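import Pool.Agent.Run7.h653.MD.Perm
import Pool.Agent.W889.VC.TD

/-!
Permutation graphs are faithfully complete.
-/

set_option autoImplicit false

namespace Pool.Agent.Run7.h653.MD

open Pool.Agent.W889.VC
open Pool.Agent.W889.VC.Grid
open Set

/-- the graph is an induced subgraph of the comparability grid over `ℚ` -/
def InGrid (y : BinStr) : Prop :=
  ∃ pos : ℕ → ℚ × ℚ, Function.Injective pos ∧
    ∀ u v, y u v = true ↔ (compGrid ℚ).Adj (pos u) (pos v)

theorem slo_emb {l : ℕ → ℕ → Prop} (h : SLO l) : ∃ f : ℕ → ℚ, ∀ a b, l a b ↔ f a < f b :=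
  ord_emb l h.irrefl h.trans h.total

theorem pp_aux (A A' B B' u v : ℚ) (h : u ≠ v) :
    ((A < A' ∧ B < B') ∨ (A' < A ∧ B' < B)) ↔
      ((B < B' ∨ (B = B' ∧ (A' < A ∨ (A = A' ∧ u < v)))) ↔
        (A < A' ∨ (A = A' ∧ (B' < B ∨ (B = B' ∧ v < u))))) := by
  rcases lt_trichotomy A A' with h2 | rfl | h2
  · rcases lt_trichotomy B B' with h3 | rfl | h3
    · simp [h2, h3]
    · simp [h2, h2.not_gt, h2.ne]
    · simp [h2, h3, h2.not_gt, h2.ne, h3.not_gt, h3.ne']
  · rcases lt_trichotomy B B' with h3 | rfl | h3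
    · simp [h3, h3.not_gt, h3.ne]
    · rcases lt_or_gt_of_ne h with h4 | h4
      · simp [h4, h4.not_gt]
      · simp [h4, h4.not_gt]
    · simp [h3, h3.not_gt, h3.ne']
  · rcases lt_trichotomy B B' with h3 | rfl | h3
    · simp [h2, h3, h2.not_gt, h2.ne', h3.not_gt]
    · simp [h2, h2.not_gt, h2.ne']
    · simp [h2, h3, h2.not_gt, h2.ne', h3.not_gt, h3.ne']

/-- two linear orders -/
theorem ingrid_of {y : BinStr} {L1 L2 : ℕ → ℕ → Prop} (h1 : SLO L1) (h2 : SLO L2)
    (hy : ∀ u, y u u = false) (h : ∀ u v, u ≠ v → (y u v = true ↔ (L1 u v ↔ L2 u v))) :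
    InGrid y := by
  obtain ⟨f, hf⟩ := slo_emb h1
  obtain ⟨g, hg⟩ := slo_emb h2
  have fi : ∀ {u v}, f u = f v → u = v := by
    intro u v e
    by_contra hne
    rcases h1.total _ _ hne with h3 | h3
    · exact absurd ((hf _ _).1 h3) (by rw [e]; exact lt_irrefl _)
    · exact absurd ((hf _ _).1 h3) (by rw [e]; exact lt_irrefl _)
  have gi : ∀ {u v}, g u = g v → u = v := by
    intro u v e
    by_contra hne
    rcases h2.total _ _ hne with h3 | h3
    · exact absurd ((hg _ _).1 h3) (by rw [e]; exact lt_irrefl _)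
    · exact absurd ((hg _ _).1 h3) (by rw [e]; exact lt_irrefl _)
  refine ⟨fun u => (f u, g u), fun u v e => fi (Prod.ext_iff.1 e).1, fun u v => ?_⟩
  by_cases huv : u = v
  · subst huv
    rw [hy u]
    simp
  · rw [h u v huv, hf, hg]
    show _ ↔ ((f u, g u) ≠ (f v, g v) ∧ (f u = f v ∨ g u = g v ∨ (f u < f v ↔ g u < g v)))
    constructor
    · exact fun h3 => ⟨fun e => huv (fi (Prod.ext_iff.1 e).1), Or.inr (Or.inr h3)⟩
    · rintro ⟨-, h3 | h3 | h3⟩
      · exact absurd (fi h3) huv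
      · exact absurd (gi h3) huv
      · exact h3

/-- **Permutation graphs.** -/
theorem faithful_grid : Faithful BIso InGrid := by
  classical
  refine (target_C _ ?_).faithful
  intro γ hb y hz
  obtain ⟨pos, hpos⟩ := exists_pos hb
  have nR : ∀ {u}, γ.R u → ¬ γ.P u := fun h h' => h'.1 h
  have nC : ∀ {u}, γ.C u → ¬ γ.P u := fun h h' => h'.2 h
  have nCR : ∀ {u}, γ.C u → ¬ γ.R u := fun h h' => hb.disj _ h' h
  have mR : ∀ {u v}, γ.R u → γ.R v → (γ.lt u v ↔ pos u < pos v) := by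
    intro u v hu hv
    rw [← hpos u v (Or.inl hu) (Or.inl hv)]
    have := hb.disj u hu
    have := hb.disj v hv
    simp [before, *]
  have mC : ∀ {u v}, γ.C u → γ.C v → (γ.lt u v ↔ pos u < pos v) := by
    intro u v hu hv
    rw [← hpos u v (Or.inr hu) (Or.inr hv)]
    have e1 : ¬ γ.R u := nCR hu
    have e2 : ¬ γ.R v := nCR hv
    simp [before, *]
  have hex : ∀ p, ∃ v w, γ.P p → γ.R v ∧ γ.iR p v ∧ γ.C w ∧ γ.iC p w := by
    intro p
    by_cases hp : γ.P p
    · obtain ⟨v, v1, v2, -⟩ := hb.rR p hp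
      obtain ⟨w, w1, w2, -⟩ := hb.rC p hp
      exact ⟨v, w, fun _ => ⟨v1, v2, w1, w2⟩⟩
    · exact ⟨0, 0, fun h => absurd h hp⟩
  choose f g hfg using hex
  let q1 : ℕ → ℚ ×ₗ ℚ ×ₗ ℚ ×ₗ ℚ ×ₗ ℚ := fun u =>
    if γ.R u then toLex (1, toLex (- pos u, toLex (0, toLex (0, (u : ℚ)))))
    else if γ.C u then toLex (0, toLex (pos u, toLex (1, toLex (0, (u : ℚ)))))
    else toLex (0, toLex (pos (g u), toLex (0, toLex (- pos (f u), (u : ℚ)))))
  let q2 : ℕ → ℚ ×ₗ ℚ ×ₗ ℚ ×ₗ ℚ ×ₗ ℚ := fun u =>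
    if γ.R u then toLex (0, toLex (pos u, toLex (1, toLex (0, - (u : ℚ)))))
    else if γ.C u then toLex (-1, toLex (- pos u, toLex (1, toLex (0, - (u : ℚ)))))
    else toLex (0, toLex (pos (f u), toLex (0, toLex (- pos (g u), - (u : ℚ)))))
  have q1R : ∀ {u}, γ.R u → q1 u = toLex (1, toLex (- pos u, toLex (0, toLex (0, (u : ℚ))))) :=
    fun h => if_pos h
  have q1C : ∀ {u}, γ.C u → q1 u = toLex (0, toLex (pos u, toLex (1, toLex (0, (u : ℚ))))) :=
    fun {u} h => by
      show (if γ.R u then _ else _) = _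
      rw [if_neg (nCR h), if_pos h]
  have q1P : ∀ {u}, γ.P u →
      q1 u = toLex (0, toLex (pos (g u), toLex (0, toLex (- pos (f u), (u : ℚ))))) :=
    fun {u} h => by
      show (if γ.R u then _ else _) = _
      rw [if_neg h.1, if_neg h.2]
  have q2R : ∀ {u}, γ.R u → q2 u = toLex (0, toLex (pos u, toLex (1, toLex (0, - (u : ℚ))))) :=
    fun h => if_pos h
  have q2C : ∀ {u}, γ.C u → q2 u = toLex (-1, toLex (- pos u, toLex (1, toLex (0, - (u : ℚ))))) :=
    fun {u} h => by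
      show (if γ.R u then _ else _) = _
      rw [if_neg (nCR h), if_pos h]
  have q2P : ∀ {u}, γ.P u →
      q2 u = toLex (0, toLex (pos (f u), toLex (0, toLex (- pos (g u), - (u : ℚ))))) :=
    fun {u} h => by
      show (if γ.R u then _ else _) = _
      rw [if_neg h.1, if_neg h.2]
  have lt5 : ∀ a b c d e a' b' c' d' e' : ℚ,
      (toLex (a, toLex (b, toLex (c, toLex (d, e)))) : ℚ ×ₗ ℚ ×ₗ ℚ ×ₗ ℚ ×ₗ ℚ) <
        toLex (a', toLex (b', toLex (c', toLex (d', e')))) ↔
      a < a' ∨ (a = a' ∧ (b < b' ∨ (b = b' ∧ (c < c' ∨ (c = c' ∧ (d < d' ∨ (d = d' ∧ e < e'))))))) := by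
    intro a b c d e a' b' c' d' e'
    simp only [Prod.Lex.toLex_lt_toLex]
  have i1 : ∀ u v, q1 u = q1 v → u = v := by
    intro u v h
    rcases cases3 γ u with hu | hu | hu <;> rcases cases3 γ v with hv | hv | hv <;>
      simp only [q1R, q1C, q1P, hu, hv, EmbeddingLike.apply_eq_iff_eq, Prod.mk.injEq,
        Nat.cast_inj] at h <;> exact h.2.2.2.2
  have i2 : ∀ u v, q2 u = q2 v → u = v := by
    intro u v h
    rcases cases3 γ u with hu | hu | hu <;> rcases cases3 γ v with hv | hv | hv <;>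
      simp only [q2R, q2C, q2P, hu, hv, EmbeddingLike.apply_eq_iff_eq, Prod.mk.injEq,
        Nat.cast_inj, neg_inj] at h <;> exact h.2.2.2.2
  have s1 := slo_of_key q1 i1
  have s2 := slo_of_key q2 i2
  have sw : ∀ u v, u ≠ v → ((q1 u < q1 v ↔ q2 u < q2 v) ↔ (q1 v < q1 u ↔ q2 v < q2 u)) := by
    intro u v huv
    have a1 : q1 v < q1 u ↔ ¬ q1 u < q1 v :=
      ⟨fun h => h.not_gt, fun h => (s1.total u v huv).resolve_left h⟩
    have a2 : q2 v < q2 u ↔ ¬ q2 u < q2 v :=
      ⟨fun h => h.not_gt, fun h => (s2.total u v huv).resolve_left h⟩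
    rw [a1, a2]
    exact not_iff_not.symm
  have ys : ∀ u v, y u v = true ↔ y v u = true := fun u v => ⟨hz.symm u v, hz.symm v u⟩
  have iR : ∀ {u v}, γ.R u → γ.R v → pos u = pos v → u = v := by
    intro u v hu hv h
    by_contra hne
    rcases hb.dR.total _ _ hu hv hne with h' | h'
    · exact absurd ((mR hu hv).1 h') (by rw [h]; exact lt_irrefl _)
    · exact absurd ((mR hv hu).1 h') (by rw [h]; exact lt_irrefl _)
  have iC : ∀ {u v}, γ.C u → γ.C v → pos u = pos v → u = v := by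
    intro u v hu hv h
    by_contra hne
    rcases hb.dC.total _ _ hu hv hne with h' | h'
    · exact absurd ((mC hu hv).1 h') (by rw [h]; exact lt_irrefl _)
    · exact absurd ((mC hv hu).1 h') (by rw [h]; exact lt_irrefl _)
  have k1 : ∀ u v, γ.R u → γ.P v → (y u v = true ↔ (q1 u < q1 v ↔ q2 u < q2 v)) := by
    intro u v hu hv
    obtain ⟨f1, f2, -, -⟩ := hfg v hv
    have a1 : ¬ q1 u < q1 v := by
      rw [q1R hu, q1P hv, lt5]
      norm_num
    have a2 : q2 u < q2 v ↔ pos u < pos (f v) := by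
      rw [q2R hu, q2P hv, lt5]
      norm_num
    rw [hz.rp u v (f v) hu hv f1 f2, a2, mR f1 hu]
    constructor
    · rintro (h | h)
      · exact iff_of_false a1 (by rw [h]; exact lt_irrefl _)
      · exact iff_of_false a1 h.not_gt
    · intro h
      have h' : ¬ pos u < pos (f v) := fun h' => a1 (h.2 h')
      rcases (not_lt.1 h').lt_or_eq with h2 | h2
      · exact Or.inr h2
      · exact Or.inl (iR f1 hu h2)
  have k2 : ∀ u v, γ.C u → γ.P v → (y u v = true ↔ (q1 u < q1 v ↔ q2 u < q2 v)) := by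
    intro u v hu hv
    obtain ⟨-, -, f1, f2⟩ := hfg v hv
    have a1 : q1 u < q1 v ↔ pos u < pos (g v) := by
      rw [q1C hu, q1P hv, lt5]
      norm_num
    have a2 : q2 u < q2 v := by
      rw [q2C hu, q2P hv, lt5]
      norm_num
    rw [hz.cp u v (g v) hu hv f1 f2, a1, mC hu f1]
    exact ⟨fun h => iff_of_true h a2, fun h => h.2 a2⟩
  have k3 : ∀ u v, γ.R u → γ.C v → (y u v = true ↔ (q1 u < q1 v ↔ q2 u < q2 v)) := by
    intro u v hu hv
    have a1 : ¬ q1 u < q1 v := by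
      rw [q1R hu, q1C hv, lt5]
      norm_num
    have a2 : ¬ q2 u < q2 v := by
      rw [q2R hu, q2C hv, lt5]
      norm_num
    exact iff_of_true (hz.rc u v hu hv) (iff_of_false a1 a2)
  refine ingrid_of s1 s2 (fun u => ?_) (fun u v huv => ?_)
  · rcases cases3 γ u with hu | hu | hu
    · simpa using hz.rr u u hu hu
    · simpa using hz.cc u u hu hu
    · obtain ⟨f1, f2, g1, g2⟩ := hfg u hu
      have : ¬ y u u = true := by
        rw [hz.pp u u _ _ _ _ hu hu f1 f2 g1 g2 f1 f2 g1 g2]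
        rintro (⟨h, -⟩ | ⟨h, -⟩)
        · exact hb.dR.irrefl _ f1 h
        · exact hb.dR.irrefl _ f1 h
      simpa using this
  · rcases cases3 γ u with hu | hu | hu <;> rcases cases3 γ v with hv | hv | hv
    · have h0 : pos u ≠ pos v := fun h => huv (iR hu hv h)
      have a1 : q1 u < q1 v ↔ pos v < pos u := by
        rw [q1R hu, q1R hv, lt5]
        simp [h0]
      have a2 : q2 u < q2 v ↔ pos u < pos v := by
        rw [q2R hu, q2R hv, lt5]
        simp [h0]
      rw [a1, a2]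
      refine iff_of_false (hz.rr u v hu hv) (fun h => ?_)
      rcases lt_or_gt_of_ne h0 with h2 | h2
      · exact h2.not_gt (h.2 h2)
      · exact h2.not_gt (h.1 h2)
    · exact k3 u v hu hv
    · exact k1 u v hu hv
    · rw [ys, sw u v huv]
      exact k3 v u hv hu
    · have h0 : pos u ≠ pos v := fun h => huv (iC hu hv h)
      have a1 : q1 u < q1 v ↔ pos u < pos v := by
        rw [q1C hu, q1C hv, lt5]
        simp [h0]
      have a2 : q2 u < q2 v ↔ pos v < pos u := by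
        rw [q2C hu, q2C hv, lt5]
        simp [h0]
      rw [a1, a2]
      refine iff_of_false (hz.cc u v hu hv) (fun h => ?_)
      rcases lt_or_gt_of_ne h0 with h2 | h2
      · exact h2.not_gt (h.1 h2)
      · exact h2.not_gt (h.2 h2)
    · exact k2 u v hu hv
    · rw [ys, sw u v huv]
      exact k1 v u hv hu
    · rw [ys, sw u v huv]
      exact k2 v u hv hu
    · obtain ⟨f1, f2, g1, g2⟩ := hfg u hu
      obtain ⟨f1', f2', g1', g2'⟩ := hfg v hv
      have huv' : (u : ℚ) ≠ v := by exact_mod_cast huv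
      rw [hz.pp u v _ _ _ _ hu hv f1 f2 g1 g2 f1' f2' g1' g2', mR f1 f1', mR f1' f1, mC g1 g1',
        mC g1' g1, pp_aux _ _ _ _ _ _ huv', q1P hu, q1P hv, q2P hu, q2P hv, lt5, lt5]
      simp

end Pool.Agent.Run7.h653.MD
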