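import Pool.Agent.Run7.h653.MD.PosH

/-!
Flipped half-graph crossings with paths of length one are faithfully complete.
-/

set_option autoImplicit false

namespace Pool.Agent.Run7.h653.MD

open Pool.Agent.W889.VC
open Pool.Agent.W889.VC.Grid
open Pool.Agent.Run7.h653.FH
open Set

variable {F : Set (Sym2 (Fin (1 + 2)))}

open Classical in
/-- orientation of the rows -/
noncomputable def sR (F : Set (Sym2 (Fin (1 + 2)))) (q : ℚ) : ℚ := if s(0, 1) ∈ F then 1 - q else q

open Classical in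
/-- orientation of the columns -/
noncomputable def sC (F : Set (Sym2 (Fin (1 + 2)))) (q : ℚ) : ℚ := if s(2, 1) ∈ F then q else 1 - q

theorem sR_inj {q q' : ℚ} (h : sR F q = sR F q') : q = q' := by
  unfold sR at h
  split_ifs at h <;> linarith

theorem sC_inj {q q' : ℚ} (h : sC F q = sC F q') : q = q' := by
  unfold sC at h
  split_ifs at h <;> linarith

theorem adj_aa {i j : ℚ} : (crossing Kind.half ℚ 1 F).Adj (.a i) (.a j) ↔ (s(0, 0) ∈ F ∧ i ≠ j) := by
  show (Vtx.a i ≠ Vtx.a j ∧ Xor (False ∨ False) (s(0, 0) ∈ F)) ↔ _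
  rw [Ne, Vtx.a.injEq]
  simp only [Xor]
  tauto

theorem adj_bb {i j : ℚ} : (crossing Kind.half ℚ 1 F).Adj (.b i) (.b j) ↔ (s(2, 2) ∈ F ∧ i ≠ j) := by
  show (Vtx.b i ≠ Vtx.b j ∧ Xor (False ∨ False) (s(2, 2) ∈ F)) ↔ _
  rw [Ne, Vtx.b.injEq]
  simp only [Xor]
  tauto

theorem adj_ab {i j : ℚ} : (crossing Kind.half ℚ 1 F).Adj (.a i) (.b j) ↔ (s(0, 2) ∈ F) := by
  show (Vtx.a i ≠ Vtx.b j ∧ Xor (False ∨ False) (s(0, 2) ∈ F)) ↔ _
  simp only [Xor]
  simp

theorem adj_pp {i j i' j' : ℚ} : (crossing Kind.half ℚ 1 F).Adj (.p i j 0) (.p i' j' 0) ↔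
    (s(1, 1) ∈ F ∧ ¬ (i = i' ∧ j = j')) := by
  show (Vtx.p i j 0 ≠ Vtx.p i' j' 0 ∧ Xor (Edge Kind.half (.p i j 0 : Vtx ℚ 1) (.p i' j' 0) ∨
    Edge Kind.half (.p i' j' 0 : Vtx ℚ 1) (.p i j 0)) (s(1, 1) ∈ F)) ↔ _
  rw [Ne, Vtx.p.injEq]
  simp [Xor, Edge, and_comm]

theorem adj_ap {q q' j : ℚ} (hq : q ≠ q') : (crossing Kind.half ℚ 1 F).Adj (.a (sR F q))
    (.p (sR F q') j 0) ↔ q < q' := by
  show (Vtx.a (sR F q) ≠ Vtx.p (sR F q') j 0 ∧ Xor (((0 : Fin 1).val = 0 ∧
    (sR F q = sR F q' ∨ (Kind.half = Kind.half ∧ sR F q < sR F q'))) ∨ False)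
    (s(0, 1) ∈ F)) ↔ _
  have h1 : ¬ sR F q = sR F q' := fun h => hq (sR_inj h)
  simp only [Xor, Ne, reduceCtorEq, not_false_eq_true, true_and, Fin.val_zero, h1, false_or,
    or_false]
  unfold sR
  by_cases h2 : s(0, 1) ∈ F
  · simp only [h2, if_true, true_and, not_true, and_false, false_or]
    constructor
    · intro h
      rcases lt_or_gt_of_ne hq with h3 | h3
      · exact h3
      · exact absurd (by linarith) h
    · intro h h'
      linarith
  · simp only [h2, if_false, not_false_iff, and_true, false_and, or_false]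

theorem adj_bp {q q' i : ℚ} (hq : q ≠ q') : (crossing Kind.half ℚ 1 F).Adj (.b (sC F q))
    (.p i (sC F q') 0) ↔ q' < q := by
  show (Vtx.b (sC F q) ≠ Vtx.p i (sC F q') 0 ∧ Xor (((0 : Fin 1).val + 1 = 1 ∧
    (sC F q = sC F q' ∨ (Kind.half = Kind.half ∧ sC F q < sC F q'))) ∨ False)
    (s(2, 1) ∈ F)) ↔ _
  have h1 : ¬ sC F q = sC F q' := fun h => hq (sC_inj h)
  simp only [Xor, Ne, reduceCtorEq, not_false_eq_true, true_and, Fin.val_zero, h1, false_or,
    or_false, zero_add]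
  unfold sC
  by_cases h2 : s(2, 1) ∈ F
  · simp only [h2, if_true, true_and, not_true, and_false, false_or]
    constructor
    · intro h
      rcases lt_or_gt_of_ne hq with h3 | h3
      · exact absurd h3 h
      · exact h3
    · intro h h'
      linarith
  · simp only [h2, if_false, not_false_iff, and_true, false_and, or_false]
    constructor <;> intro h <;> linarith

/-- **Flipped half-graph crossings, paths of length one.** -/
theorem faithful_half1 (F : Set (Sym2 (Fin (1 + 2)))) : Faithful BIso (InCross Kind.half 1 F) := by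
  classical
  refine (target_A (s(0, 0) ∈ F) (s(2, 2) ∈ F) (s(0, 2) ∈ F) (s(1, 1) ∈ F) _ ?_).faithful
  intro γ hb y hz
  obtain ⟨D, D1, D2⟩ := exists_idx hb.dR
  obtain ⟨E, E1, E2⟩ := exists_idx hb.dC
  have hD : Idx γ.R γ.lt D := ⟨D1, D2⟩
  have hE : Idx γ.C γ.lt E := ⟨E1, E2⟩
  have hex : ∀ p, ∃ v w, γ.P p → γ.R v ∧ γ.iR p v ∧ γ.C w ∧ γ.iC p w := by
    intro p
    by_cases hp : γ.P p
    · obtain ⟨v, v1, v2, -⟩ := hb.rR p hp
      obtain ⟨w, w1, w2, -⟩ := hb.rC p hp
      exact ⟨v, w, fun _ => ⟨v1, v2, w1, w2⟩⟩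
    · exact ⟨0, 0, fun h => absurd h hp⟩
  choose f g hfg using hex
  let pos : ℕ → Vtx ℚ 1 := fun u => if γ.R u then .a (sR F (D u 0)) else
    if γ.C u then .b (sC F (E u 0)) else .p (sR F (D (f u) (u + 1))) (sC F (E (g u) (u + 1))) 0
  have pR : ∀ {u}, γ.R u → pos u = .a (sR F (D u 0)) := fun h => if_pos h
  have pC : ∀ {u}, γ.C u → pos u = .b (sC F (E u 0)) := fun {u} h => by
    show (if γ.R u then _ else _) = _
    rw [if_neg (fun h' => hb.disj u h' h), if_pos h]
  have pP : ∀ {u}, γ.P u → pos u = .p (sR F (D (f u) (u + 1))) (sC F (E (g u) (u + 1))) 0 :=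
    fun {u} h => by
      show (if γ.R u then _ else _) = _
      rw [if_neg h.1, if_neg h.2]
  have ys : ∀ u v, y u v = true ↔ y v u = true := fun u v => ⟨hz.symm u v, hz.symm v u⟩
  have k1 : ∀ u v, γ.R u → γ.P v →
      (y u v = true ↔ (crossing Kind.half ℚ 1 F).Adj (pos u) (pos v)) := by
    intro u v hu hv
    obtain ⟨f1, f2, -, -⟩ := hfg v hv
    rw [pR hu, pP hv, adj_ap (fun e => by have := (hD.eq hb.dR hu f1 e).2; omega),
      hz.rp u v (f v) hu hv f1 f2, hD.l _ _ _ _ hu f1]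
    constructor
    · rintro (h | h)
      · exact Or.inr ⟨h.symm, by omega⟩
      · exact Or.inl h
    · rintro (h | ⟨h, -⟩)
      · exact Or.inr h
      · exact Or.inl h.symm
  have k2 : ∀ u v, γ.C u → γ.P v →
      (y u v = true ↔ (crossing Kind.half ℚ 1 F).Adj (pos u) (pos v)) := by
    intro u v hu hv
    obtain ⟨-, -, f1, f2⟩ := hfg v hv
    rw [pC hu, pP hv, adj_bp (fun e => by have := (hE.eq hb.dC hu f1 e).2; omega),
      hz.cp u v (g v) hu hv f1 f2, hE.l _ _ _ _ f1 hu]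
    constructor
    · intro h
      exact Or.inl h
    · rintro (h | ⟨-, h⟩)
      · exact h
      · omega
  have k3 : ∀ u v, γ.R u → γ.C v →
      (y u v = true ↔ (crossing Kind.half ℚ 1 F).Adj (pos u) (pos v)) := by
    intro u v hu hv
    rw [pR hu, pC hv, adj_ab, hz.rc u v hu hv]
  refine ⟨pos, fun u v huv => ?_, fun u v => ?_⟩
  · rcases cases3 γ u with hu | hu | hu <;> rcases cases3 γ v with hv | hv | hv
    · rw [pR hu, pR hv, Vtx.a.injEq] at huv
      exact (hD.eq hb.dR hu hv (sR_inj huv)).1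
    · rw [pR hu, pC hv] at huv
      exact absurd huv (by simp)
    · rw [pR hu, pP hv] at huv
      exact absurd huv (by simp)
    · rw [pC hu, pR hv] at huv
      exact absurd huv (by simp)
    · rw [pC hu, pC hv, Vtx.b.injEq] at huv
      exact (hE.eq hb.dC hu hv (sC_inj huv)).1
    · rw [pC hu, pP hv] at huv
      exact absurd huv (by simp)
    · rw [pP hu, pR hv] at huv
      exact absurd huv (by simp)
    · rw [pP hu, pC hv] at huv
      exact absurd huv (by simp)
    · rw [pP hu, pP hv, Vtx.p.injEq] at huv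
      have := (hD.eq hb.dR (hfg u hu).1 (hfg v hv).1 (sR_inj huv.1)).2
      omega
  · rcases cases3 γ u with hu | hu | hu <;> rcases cases3 γ v with hv | hv | hv
    · rw [pR hu, pR hv, adj_aa, hz.rr u v hu hv]
      refine and_congr Iff.rfl (not_congr ⟨fun h => by rw [h], fun h => ?_⟩)
      exact (hD.eq hb.dR hu hv (sR_inj h)).1
    · exact k3 u v hu hv
    · exact k1 u v hu hv
    · rw [ys, SimpleGraph.adj_comm]
      exact k3 v u hv hu
    · rw [pC hu, pC hv, adj_bb, hz.cc u v hu hv]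
      refine and_congr Iff.rfl (not_congr ⟨fun h => by rw [h], fun h => ?_⟩)
      exact (hE.eq hb.dC hu hv (sC_inj h)).1
    · exact k2 u v hu hv
    · rw [ys, SimpleGraph.adj_comm]
      exact k1 v u hv hu
    · rw [ys, SimpleGraph.adj_comm]
      exact k2 v u hv hu
    · rw [pP hu, pP hv, adj_pp, hz.pp u v hu hv]
      refine and_congr Iff.rfl (not_congr ⟨fun h => ?_, fun h => ?_⟩)
      · rw [h]
        exact ⟨rfl, rfl⟩
      · have := (hD.eq hb.dR (hfg u hu).1 (hfg v hv).1 (sR_inj h.1)).2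
        omega

/-- **All flipped crossings are faithfully complete.** -/
theorem faithful_half {r : ℕ} (hr : 1 ≤ r) (F : Set (Sym2 (Fin (r + 2)))) :
    Faithful BIso (InCross Kind.half r F) := by
  rcases Nat.lt_or_ge 1 r with h | h
  · exact faithful_half2 h F
  · obtain rfl : r = 1 := by omega
    exact faithful_half1 F

end Pool.Agent.Run7.h653.MD
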