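import Pool.Agent.Run7.h653.MD.Flip
import Pool.Agent.H468R2.KA.P_F_perm
import Pool.Agent.H468R2.KA.P_F_vt
import Pool.Agent.H468R2.KA.P_F_top

/-!
Borel actions of the group of permutations of the natural numbers are coded by relational structures
(Becker and Kechris), so that Vaught's conjecture for structures implies the dichotomy for all
these actions.
-/

set_option autoImplicit false

namespace Pool.Agent.Run7.h653.MD

open Pool.Agent.W889.VC
open Pool.Agent.H468R2.KA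
open MeasureTheory Set

section code

variable {X : Type} [MeasurableSpace X] [StandardBorelSpace X] [MulAction (Equiv.Perm ℕ) X]

/-- the arities -/
def ar2 (i : ℕ) : ℕ := (Nat.unpair i).2

open Classical in
/-- the structure of a point -/
noncomputable def Fx (A : ℕ → Set X) (x : X) : Str ar2 :=
  fun i v => decide (Fperm_St A x (Nat.unpair i) v)

theorem Fx_iff (A : ℕ → Set X) (x : X) (i : ℕ) (v : Fin (ar2 i) → ℕ) :
    Fx A x i v = true ↔ Fperm_St A x (Nat.unpair i) v := by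
  classical
  unfold Fx
  exact decide_eq_true_iff

theorem st_of (A : ℕ → Set X) {x y : X} (h : Fx A x = Fx A y) (r : ℕ × ℕ) (v : Fin r.2 → ℕ) :
    Fperm_St A x r v ↔ Fperm_St A y r v := by
  obtain ⟨i, rfl⟩ : ∃ i, Nat.unpair i = r := ⟨Nat.pair r.1 r.2, Nat.unpair_pair _ _⟩
  refine (Fx_iff A x i v).symm.trans (Iff.trans ?_ (Fx_iff A y i v))
  rw [h]

theorem Fx_smul (A : ℕ → Set X) (σ : Equiv.Perm ℕ) (x : X) (i : ℕ) (v : Fin (ar2 i) → ℕ) :
    Fx A (σ • x) i (⇑σ ∘ v) = Fx A x i v := by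
  rw [Bool.eq_iff_iff, Fx_iff, Fx_iff]
  exact Fperm_equiv t_F_top A x σ (Nat.unpair i) v

theorem Fx_inj (hm : @Measurable _ _ (permMS.prod inferInstance) _
      (fun p : Equiv.Perm ℕ × X => p.1 • p.2)) {A : ℕ → Set X} (hA : ∀ n, MeasurableSet (A n))
    (hsep : ∀ x y : X, (∀ n, x ∈ A n ↔ y ∈ A n) → x = y) : Function.Injective (Fx A) := by
  intro z z' h
  have hS : ∀ r a, Fperm_St A z r a ↔ Fperm_St A z' r a := fun r a => st_of A h r a
  let _ := permTop
  have : BaireSpace (Equiv.Perm ℕ) := t_F_top.1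
  have h2 : F_vt.{0} := t_F_vt t_F_top
  have hM : IsMeagre (⋃ n, ({π : Equiv.Perm ℕ | π • z ∈ A n ∧ π • z' ∉ A n} ∪
      {π : Equiv.Perm ℕ | π • z' ∈ A n ∧ π • z ∉ A n})) := by
    refine isMeagre_iUnion fun n => ?_
    exact (Fperm_diff t_F_top h2 hm A hA z z' hS n).union
      (Fperm_diff t_F_top h2 hm A hA z' z (fun r a => (hS r a).symm) n)
  have hU : ¬ IsMeagre (Set.univ : Set (Equiv.Perm ℕ)) :=
    not_isMeagre_of_isOpen isOpen_univ ⟨1, trivial⟩
  obtain ⟨π, hπ⟩ : ∃ π : Equiv.Perm ℕ, π ∉ ⋃ n, ({π : Equiv.Perm ℕ | π • z ∈ A n ∧ π • z' ∉ A n} ∪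
      {π : Equiv.Perm ℕ | π • z' ∈ A n ∧ π • z ∉ A n}) := by
    by_contra hcon
    push Not at hcon
    exact hU (hM.mono fun π _ => hcon π)
  have key : π • z = π • z' := by
    apply hsep
    intro n
    by_contra hcon
    apply hπ
    rw [Set.mem_iUnion]
    refine ⟨n, ?_⟩
    by_cases h3 : π • z ∈ A n
    · left
      exact ⟨h3, fun h4 => hcon ⟨fun _ => h4, fun _ => h3⟩⟩
    · right
      refine ⟨?_, h3⟩
      by_contra h4
      exact hcon ⟨fun h => absurd h h3, fun h => absurd h h4⟩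
  exact (smul_left_cancel_iff π).mp key

theorem Fx_meas (hm : @Measurable _ _ (permMS.prod inferInstance) _
      (fun p : Equiv.Perm ℕ × X => p.1 • p.2)) {A : ℕ → Set X} (hA : ∀ n, MeasurableSet (A n)) :
    Measurable (Fx A) := by
  refine measurable_pi_iff.2 fun i => measurable_pi_iff.2 fun v => measurable_to_bool ?_
  have hB : @MeasurableSet _ (permMS.prod inferInstance)
      {p : Equiv.Perm ℕ × X | p.1 • p.2 ∈ A (Nat.unpair i).1} := hm (hA _)
  have h1 := ((t_F_vt t_F_top : F_vt.{0}) X _ hB (Nat.unpair i).2 v).1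
  refine (congrArg MeasurableSet (Set.ext fun x => ?_)).mp h1
  show _ ↔ Fx A x i v = true
  rw [Fx_iff]
  exact Iff.rfl

end code

/-- the dichotomy for all structures implies the dichotomy for all Borel actions -/
theorem dich_act (hV : ∀ a : ℕ → ℕ, VCof True (Iso (a := a)) (fun _ => True))
    (X : Type) [MeasurableSpace X] [StandardBorelSpace X] [MulAction (Equiv.Perm ℕ) X]
    (hm : @Measurable _ _ (permMS.prod inferInstance) _
      (fun p : Equiv.Perm ℕ × X => p.1 • p.2)) :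
    (∃ S : Set X, S.Countable ∧ ∀ x, ∃ s ∈ S, ∃ σ : Equiv.Perm ℕ, σ • s = x) ∨
    ∃ c : (ℕ → Bool) → X, Measurable c ∧ ∀ a b, (∃ σ : Equiv.Perm ℕ, σ • c a = c b) → a = b := by
  classical
  obtain ⟨A, hA, hsep⟩ := exists_seq_separating X (p := MeasurableSet) (s₀ := ∅)
    MeasurableSet.empty Set.univ
  have hsep' : ∀ x y : X, (∀ n, x ∈ A n ↔ y ∈ A n) → x = y :=
    fun x y h => hsep x trivial y trivial h
  have hF := Fx_meas hm hA
  have hi := Fx_inj hm hA hsep'
  have he : MeasurableEmbedding (Fx A) := hF.measurableEmbedding hi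
  have hstep : ∀ x y, Iso x y → x ∈ range (Fx A) → y ∈ range (Fx A) := by
    rintro _ y ⟨σ, h⟩ ⟨z, rfl⟩
    refine ⟨σ • z, ?_⟩
    funext i v
    have h1 := h i (⇑σ.symm ∘ v)
    have h2 := Fx_smul A σ z i (⇑σ.symm ∘ v)
    have e : ⇑σ ∘ (⇑σ.symm ∘ v) = v := funext fun j => σ.apply_symm_apply _
    rw [e] at h1 h2
    rw [h1, h2]
  have horb : ∀ z z', Iso (Fx A z) (Fx A z') → ∃ σ : Equiv.Perm ℕ, σ • z = z' := by
    rintro z z' ⟨σ, h⟩
    refine ⟨σ, hi ?_⟩
    funext i v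
    have h1 := h i (⇑σ.symm ∘ v)
    have h2 := Fx_smul A σ z i (⇑σ.symm ∘ v)
    have e : ⇑σ ∘ (⇑σ.symm ∘ v) = v := funext fun j => σ.apply_symm_apply _
    rw [e] at h1 h2
    rw [h1, h2]
  have hiso : ∀ z (σ : Equiv.Perm ℕ), Iso (Fx A z) (Fx A (σ • z)) := fun z σ =>
    ⟨σ, fun i v => Fx_smul A σ z i v⟩
  rcases hV ar2 (range (Fx A)) he.measurableSet_range
    (fun x y h => ⟨hstep x y h, hstep y x h.symm⟩) (fun _ _ => trivial) with ⟨f, hf⟩ |
    ⟨g, h1, h2, h3⟩
  · left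
    refine ⟨{x | ∃ n, ∃ h : ∃ z, Iso (f n) (Fx A z), x = h.choose}, ?_, fun x => ?_⟩
    · refine ((Set.countable_range fun n : ℕ =>
        if h : ∃ z, Iso (f n) (Fx A z) then some h.choose else none).preimage_of_injOn
        (f := (some : X → Option X)) (Option.some_injective X).injOn).mono ?_
      rintro x ⟨n, h, rfl⟩
      exact ⟨n, dif_pos h⟩
    · obtain ⟨n, hn⟩ := hf (Fx A x) ⟨x, rfl⟩
      have h : ∃ z, Iso (f n) (Fx A z) := ⟨x, hn⟩
      exact ⟨h.choose, ⟨n, h, rfl⟩, horb _ _ (h.choose_spec.symm.trans hn)⟩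
  · right
    choose c hc using h2
    refine ⟨c, ?_, fun a b hab => ?_⟩
    · rw [← he.measurable_comp_iff]
      have : Fx A ∘ c = g := funext hc
      rw [this]
      exact (h1 trivial).measurable
    · obtain ⟨σ, hσ⟩ := hab
      apply h3
      rw [← hc a, ← hc b, ← hσ]
      exact hiso _ _

/-- the permutations act on the relations -/
@[reducible] def relAct (B : Set BinStr) (hinv : ∀ x y, BIso x y → (x ∈ B ↔ y ∈ B)) :
    MulAction (Equiv.Perm ℕ) B where
  smul σ y := ⟨fun u v => y.1 (σ⁻¹ u) (σ⁻¹ v), (hinv _ _ ⟨σ, fun m n => by simp⟩).1 y.2⟩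
  one_smul y := rfl
  mul_smul σ τ y := by
    apply Subtype.ext
    funext u v
    show y.1 ((σ * τ)⁻¹ u) ((σ * τ)⁻¹ v) = y.1 (τ⁻¹ (σ⁻¹ u)) (τ⁻¹ (σ⁻¹ v))
    rw [mul_inv_rev]
    rfl

theorem meas_relAct (B : Set BinStr) (hinv : ∀ x y, BIso x y → (x ∈ B ↔ y ∈ B)) :
    letI := relAct B hinv
    @Measurable _ _ (permMS.prod inferInstance) _ (fun p : Equiv.Perm ℕ × B => p.1 • p.2) := by
  let _ := relAct B hinv
  let _ := permMS
  refine Measurable.subtype_mk (f := fun p : Equiv.Perm ℕ × B => fun u v =>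
    p.2.1 (p.1⁻¹ u) (p.1⁻¹ v)) ?_
  refine measurable_pi_iff.2 fun u => measurable_pi_iff.2 fun v => measurable_to_bool ?_
  have h1 : ∀ a u : ℕ, MeasurableSet {p : Equiv.Perm ℕ × B | p.1 a = u} := fun a u =>
    measurable_fst (MeasurableSpace.measurableSet_generateFrom
      (s := {U | ∃ i j : ℕ, U = {π : Equiv.Perm ℕ | π i = j}}) ⟨a, u, rfl⟩)
  have h2 : ∀ a b : ℕ, MeasurableSet {p : Equiv.Perm ℕ × B | p.2.1 a b = true} := fun a b =>
    (bp_of (meas1 (measurable_subtype_coe.comp measurable_snd) a b) (fun c => c = true))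
  have h3 : MeasurableSet (⋃ a : ℕ, ⋃ b : ℕ, ({p : Equiv.Perm ℕ × B | p.1 a = u} ∩
      {p : Equiv.Perm ℕ × B | p.1 b = v} ∩ {p : Equiv.Perm ℕ × B | p.2.1 a b = true})) :=
    MeasurableSet.iUnion fun a => MeasurableSet.iUnion fun b => ((h1 a u).inter (h1 b v)).inter
      (h2 a b)
  refine (congrArg MeasurableSet (Set.ext fun p => ?_)).mp h3
  simp only [mem_iUnion]
  constructor
  · rintro ⟨a, b, ⟨e1, e2⟩, h⟩
    rw [← e1, ← e2]
    simpa using h
  · intro h
    exact ⟨p.1⁻¹ u, p.1⁻¹ v, ⟨p.1.apply_symm_apply u, p.1.apply_symm_apply v⟩, h⟩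

end Pool.Agent.Run7.h653.MD
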