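import Pool.Agent.Run7.h653.MD.Flip

/-!
Crossings and the comparability grid (Dreier, Mählmann, Toruńczyk), over a linear order of indices.
-/

set_option autoImplicit false

namespace Pool.Agent.Run7.h653.MD

open Pool.Agent.W889.VC
open Set

/-- the three kinds of crossings -/
inductive Kind
  | star
  | clique
  | half

/-- vertices: the roots `a i` and `b j` and the vertices `p i j 0, ..., p i j (r - 1)` of the paths -/
inductive Vtx (ι : Type) (r : ℕ)
  | a (i : ι)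
  | b (j : ι)
  | p (i j : ι) (l : Fin r)

/-- the layers -/
def Vtx.layer {ι : Type} {r : ℕ} : Vtx ι r → Fin (r + 2)
  | .a _ => 0
  | .b _ => Fin.last (r + 1)
  | .p _ _ l => ⟨l.val + 1, by omega⟩

/-- the edges, with a direction -/
def Edge {ι : Type} [LinearOrder ι] {r : ℕ} (κ : Kind) : Vtx ι r → Vtx ι r → Prop
  | .a i, .p i' _ l => l.val = 0 ∧ (i = i' ∨ (κ = Kind.half ∧ i < i'))
  | .b j, .p _ j' l => l.val + 1 = r ∧ (j = j' ∨ (κ = Kind.half ∧ j < j'))
  | .p i j l, .p i' j' l' => (i = i' ∧ j = j' ∧ l.val + 1 = l'.val) ∨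
      (κ = Kind.clique ∧ ((l.val = 0 ∧ l'.val = 0 ∧ i = i' ∧ j ≠ j') ∨
        (l.val + 1 = r ∧ l'.val + 1 = r ∧ j = j' ∧ i ≠ i')))
  | _, _ => False

/-- the crossing, flipped between the pairs of layers in `F` -/
def crossing (κ : Kind) (ι : Type) [LinearOrder ι] (r : ℕ) (F : Set (Sym2 (Fin (r + 2)))) :
    SimpleGraph (Vtx ι r) where
  Adj u v := u ≠ v ∧ Xor (Edge κ u v ∨ Edge κ v u) (s(u.layer, v.layer) ∈ F)
  symm := ⟨by
    rintro u v ⟨h1, h2⟩
    refine ⟨h1.symm, ?_⟩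
    rw [or_comm, Sym2.eq_swap]
    exact h2⟩
  loopless := ⟨fun u h => h.1 rfl⟩

/-- the comparability grid -/
def compGrid (ι : Type) [LinearOrder ι] : SimpleGraph (ι × ι) where
  Adj u v := u ≠ v ∧ (u.1 = v.1 ∨ u.2 = v.2 ∨ (u.1 < v.1 ↔ u.2 < v.2))
  symm := ⟨by
    rintro u v ⟨h1, h2⟩
    refine ⟨h1.symm, ?_⟩
    rcases h2 with h2 | h2 | h2
    · exact Or.inl h2.symm
    · exact Or.inr (Or.inl h2.symm)
    · by_cases h3 : u.1 = v.1
      · exact Or.inl h3.symm
      · by_cases h4 : u.2 = v.2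
        · exact Or.inr (Or.inl h4.symm)
        · right
          right
          constructor
          · intro h5
            exact lt_of_le_of_ne (not_lt.1 fun h => absurd (h2.2 h) h5.not_gt) (Ne.symm h4)
          · intro h5
            exact lt_of_le_of_ne (not_lt.1 fun h => absurd (h2.1 h) h5.not_gt) (Ne.symm h3)⟩
  loopless := ⟨fun u h => h.1 rfl⟩

section map

variable {ι ι' : Type} [LinearOrder ι] [LinearOrder ι'] {r : ℕ}

/-- the indices of the vertex are in `J` -/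
def Vtx.In (J : Set ι) : Vtx ι r → Prop
  | .a i => i ∈ J
  | .b j => j ∈ J
  | .p i j _ => i ∈ J ∧ j ∈ J

/-- change of the indices -/
def Vtx.map (g : ι → ι') : Vtx ι r → Vtx ι' r
  | .a i => .a (g i)
  | .b j => .b (g j)
  | .p i j l => .p (g i) (g j) l

theorem edge_map {g : ι → ι'} {J : Set ι} (hg : ∀ i ∈ J, ∀ j ∈ J, i < j → g i < g j) (κ : Kind)
    {u v : Vtx ι r} (hu : u.In J) (hv : v.In J) : Edge κ (u.map g) (v.map g) ↔ Edge κ u v := by
  have hlt : ∀ i ∈ J, ∀ j ∈ J, (g i < g j ↔ i < j) := by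
    intro i hi j hj
    constructor
    · intro h
      by_contra h'
      rcases (not_lt.1 h').lt_or_eq with h1 | h1
      · exact absurd (hg j hj i hi h1) h.not_gt
      · rw [h1] at h
        exact lt_irrefl _ h
    · exact hg i hi j hj
  have heq : ∀ i ∈ J, ∀ j ∈ J, (g i = g j ↔ i = j) := by
    intro i hi j hj
    constructor
    · intro h
      rcases lt_trichotomy i j with h1 | h1 | h1
      · exact absurd h (hg i hi j hj h1).ne
      · exact h1
      · exact absurd h (hg j hj i hi h1).ne'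
    · rintro rfl
      rfl
  cases u <;> cases v <;> simp only [Vtx.map, Edge, Vtx.In] at *
  · rw [heq _ hu _ hv.1, hlt _ hu _ hv.1]
  · rw [heq _ hu _ hv.2, hlt _ hu _ hv.2]
  · rw [heq _ hu.1 _ hv.1, heq _ hu.2 _ hv.2, Ne, Ne, heq _ hu.2 _ hv.2, heq _ hu.1 _ hv.1]

theorem map_inj {g : ι → ι'} {J : Set ι} (hg : ∀ i ∈ J, ∀ j ∈ J, i < j → g i < g j)
    {u v : Vtx ι r} (hu : u.In J) (hv : v.In J) : u.map g = v.map g ↔ u = v := by
  have heq : ∀ i ∈ J, ∀ j ∈ J, (g i = g j ↔ i = j) := by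
    intro i hi j hj
    constructor
    · intro h
      rcases lt_trichotomy i j with h1 | h1 | h1
      · exact absurd h (hg i hi j hj h1).ne
      · exact h1
      · exact absurd h (hg j hj i hi h1).ne'
    · rintro rfl
      rfl
  cases u <;> cases v <;> simp only [Vtx.map, Vtx.In, Vtx.a.injEq, Vtx.b.injEq, Vtx.p.injEq,
    reduceCtorEq] at *
  · rw [heq _ hu _ hv]
  · rw [heq _ hu _ hv]
  · rw [heq _ hu.1 _ hv.1, heq _ hu.2 _ hv.2]

theorem layer_map (g : ι → ι') (u : Vtx ι r) : (u.map g).layer = u.layer := by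
  cases u <;> rfl

theorem cross_map {g : ι → ι'} {J : Set ι} (hg : ∀ i ∈ J, ∀ j ∈ J, i < j → g i < g j) (κ : Kind)
    (F : Set (Sym2 (Fin (r + 2)))) {u v : Vtx ι r} (hu : u.In J) (hv : v.In J) :
    (crossing κ ι' r F).Adj (u.map g) (v.map g) ↔ (crossing κ ι r F).Adj u v := by
  unfold crossing
  simp only
  rw [edge_map hg κ hu hv, edge_map hg κ hv hu, layer_map, layer_map, Ne, map_inj hg hu hv]

theorem vtx_in_univ (u : Vtx ι r) : u.In (Set.univ : Set ι) := by
  cases u <;> simp [Vtx.In]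

/-- restriction of the indices -/
theorem emb_map {V : Type} {H : SimpleGraph V} {κ : Kind} {F : Set (Sym2 (Fin (r + 2)))}
    (e : H ↪g crossing κ ι r F) {J : Set ι} (hJ : ∀ v, (e v).In J) {g : ι → ι'}
    (hg : ∀ i ∈ J, ∀ j ∈ J, i < j → g i < g j) : Nonempty (H ↪g crossing κ ι' r F) :=
  ⟨⟨⟨fun v => (e v).map g, fun v w h => e.injective ((map_inj hg (hJ v) (hJ w)).1 h)⟩, by
    intro v w
    exact (cross_map hg κ F (hJ v) (hJ w)).trans e.map_rel_iff⟩⟩

/-- the number of smaller elements of a finite set -/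
theorem rank_exists (J : Finset ι) : ∃ g : ι → Fin (J.card + 1), ∀ i ∈ J, ∀ j ∈ J, i < j → g i < g j := by
  classical
  refine ⟨fun q => ⟨(J.filter (· < q)).card, Nat.lt_succ_of_le (Finset.card_filter_le _ _)⟩,
    fun i hi j hj hij => ?_⟩
  rw [Fin.lt_def]
  refine Finset.card_lt_card ?_
  rw [Finset.ssubset_iff_of_subset]
  · exact ⟨i, Finset.mem_filter.2 ⟨hi, hij⟩, fun h => lt_irrefl _ (Finset.mem_filter.1 h).2⟩
  · intro x hx
    rw [Finset.mem_filter] at hx ⊢
    exact ⟨hx.1, hx.2.trans hij⟩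

open Classical in
/-- the indices -/
noncomputable def Vtx.ind : Vtx ι r → Finset ι
  | .a i => {i}
  | .b j => {j}
  | .p i j _ => {i, j}

theorem in_ind (u : Vtx ι r) {J : Set ι} (h : ∀ i ∈ u.ind, i ∈ J) : u.In J := by
  cases u
  · exact h _ (by simp [Vtx.ind])
  · exact h _ (by simp [Vtx.ind])
  · exact ⟨h _ (by simp [Vtx.ind]), h _ (by simp [Vtx.ind])⟩

/-- finite graphs are contained in finite crossings -/
theorem emb_fin {V : Type} [Finite V] {H : SimpleGraph V} {κ : Kind} {F : Set (Sym2 (Fin (r + 2)))}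
    (e : H ↪g crossing κ ι r F) : ∃ k, Nonempty (H ↪g crossing κ (Fin k) r F) := by
  classical
  have := Fintype.ofFinite V
  let J : Finset ι := Finset.univ.biUnion fun v => (e v).ind
  obtain ⟨g, hg⟩ := rank_exists J
  refine ⟨J.card + 1, emb_map e (J := (J : Set ι)) (fun v => in_ind _ fun i hi => ?_) hg⟩
  exact Finset.mem_coe.2 (Finset.mem_biUnion.2 ⟨v, Finset.mem_univ _, hi⟩)

theorem emb_mono {V : Type} {H : SimpleGraph V} {κ : Kind} {F : Set (Sym2 (Fin (r + 2)))}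
    {k k' : ℕ} (hk : k ≤ k') (h : Nonempty (H ↪g crossing κ (Fin k) r F)) :
    Nonempty (H ↪g crossing κ (Fin k') r F) := by
  obtain ⟨e⟩ := h
  exact emb_map e (J := Set.univ) (fun v => vtx_in_univ _) (g := Fin.castLE hk)
    (fun i _ j _ hij => hij)

theorem grid_map {V : Type} {H : SimpleGraph V} (e : H ↪g compGrid ι) {J : Set ι}
    (hJ : ∀ v, (e v).1 ∈ J ∧ (e v).2 ∈ J) {g : ι → ι'}
    (hg : ∀ i ∈ J, ∀ j ∈ J, i < j → g i < g j) : Nonempty (H ↪g compGrid ι') := by
  have hlt : ∀ i ∈ J, ∀ j ∈ J, (g i < g j ↔ i < j) := by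
    intro i hi j hj
    constructor
    · intro h
      by_contra h'
      rcases (not_lt.1 h').lt_or_eq with h1 | h1
      · exact absurd (hg j hj i hi h1) h.not_gt
      · rw [h1] at h
        exact lt_irrefl _ h
    · exact hg i hi j hj
  have heq : ∀ i ∈ J, ∀ j ∈ J, (g i = g j ↔ i = j) := by
    intro i hi j hj
    constructor
    · intro h
      rcases lt_trichotomy i j with h1 | h1 | h1
      · exact absurd h (hg i hi j hj h1).ne
      · exact h1
      · exact absurd h (hg j hj i hi h1).ne'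
    · rintro rfl
      rfl
  have hinj : ∀ v w, (g (e v).1, g (e v).2) = (g (e w).1, g (e w).2) ↔ e v = e w := by
    intro v w
    rw [Prod.mk.injEq, heq _ (hJ v).1 _ (hJ w).1, heq _ (hJ v).2 _ (hJ w).2, Prod.ext_iff]
  refine ⟨⟨⟨fun v => (g (e v).1, g (e v).2), fun v w h => e.injective ((hinj v w).1 h)⟩, ?_⟩⟩
  intro v w
  refine Iff.trans ?_ (e.map_rel_iff (a := v) (b := w))
  show ((g (e v).1, g (e v).2) ≠ (g (e w).1, g (e w).2) ∧ (g (e v).1 = g (e w).1 ∨
    g (e v).2 = g (e w).2 ∨ (g (e v).1 < g (e w).1 ↔ g (e v).2 < g (e w).2))) ↔ _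
  rw [Ne, hinj, heq _ (hJ v).1 _ (hJ w).1, heq _ (hJ v).2 _ (hJ w).2, hlt _ (hJ v).1 _ (hJ w).1,
    hlt _ (hJ v).2 _ (hJ w).2]
  exact Iff.rfl

theorem grid_fin {V : Type} [Finite V] {H : SimpleGraph V} (e : H ↪g compGrid ι) :
    ∃ k, Nonempty (H ↪g compGrid (Fin k)) := by
  classical
  have := Fintype.ofFinite V
  let J : Finset ι := Finset.univ.biUnion fun v => {(e v).1, (e v).2}
  obtain ⟨g, hg⟩ := rank_exists J
  refine ⟨J.card + 1, grid_map e (J := (J : Set ι)) (fun v => ⟨?_, ?_⟩) hg⟩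
  · exact Finset.mem_coe.2 (Finset.mem_biUnion.2 ⟨v, Finset.mem_univ _, by simp⟩)
  · exact Finset.mem_coe.2 (Finset.mem_biUnion.2 ⟨v, Finset.mem_univ _, by simp⟩)

theorem grid_mono {V : Type} {H : SimpleGraph V} {k k' : ℕ} (hk : k ≤ k')
    (h : Nonempty (H ↪g compGrid (Fin k))) : Nonempty (H ↪g compGrid (Fin k')) := by
  obtain ⟨e⟩ := h
  exact grid_map e (J := Set.univ) (fun v => ⟨trivial, trivial⟩) (g := Fin.castLE hk)
    (fun i _ j _ hij => hij)

end map

end Pool.Agent.Run7.h653.MD
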