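import Pool.Agent.Run7.h653.MD.LS

/-!
Layered graphs and their flips. If infinitely many isolated vertices are present in every layer, then
a flip of a layered graph between layers determines the graph and the layers.
-/

set_option autoImplicit false

namespace Pool.Agent.Run7.h653.MD

open Pool.Agent.W889.VC
open Set

/-- graphs with layers -/
abbrev LGr : Type := BinStr × (ℕ → ℕ)

/-- isomorphism of graphs with layers -/
def LIso (x y : LGr) : Prop :=
  ∃ σ : Equiv.Perm ℕ, (∀ m n, y.1 (σ m) (σ n) = x.1 m n) ∧ ∀ u, y.2 (σ u) = x.2 u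

/-- isolated vertices -/
def Plain (s : BinStr) (t : ℕ) : Prop := ∀ x, s t x = false

/-- twins -/
def Tw (s : BinStr) (u v : ℕ) : Prop := ∀ w, w ≠ u → w ≠ v → s u w = s v w

/-- admissible graphs with `m` layers -/
structure Lay (m : ℕ) (x : LGr) : Prop where
  irr : ∀ u, x.1 u u = false
  symm : ∀ u v, x.1 u v = x.1 v u
  lt : ∀ u, x.2 u < m
  tw : ∀ u, ¬ Plain x.1 u → {v | Tw x.1 u v}.Finite
  occ : ∀ k, k < m → ∃ v, ¬ Plain x.1 v ∧ x.2 v = k
  inf : {t | Plain x.1 t}.Infinite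
  pl : ∀ t, Plain x.1 t → x.2 t = 0

/-- the flip of a graph between the layers -/
def flip (f : ℕ → ℕ → Bool) (s : BinStr) (μ : ℕ → ℕ) : BinStr :=
  fun u v => if u = v then false else Bool.xor (s u v) (f (μ u) (μ v))

open Classical in
/-- the layers of the isolated vertices are forgotten -/
noncomputable def dec0 (x : LGr) : LGr := (x.1, fun u => if Plain x.1 u then 0 else x.2 u)

/-- `y` is the flip of the layered graph; the layers of the isolated vertices are in normal form -/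
structure GoodF (m : ℕ) (f : ℕ → ℕ → Bool) (y : BinStr) (x : LGr) : Prop where
  eq : ∀ u v, y u v = flip f x.1 x.2 u v
  nf : ∀ t, Plain x.1 t → x.2 t < m ∧ ∀ k, k < x.2 t → ∃ j, j < m ∧ f k j ≠ f (x.2 t) j
  inf : ∀ k, k < m → ∀ N, ∃ t, N ≤ t ∧ Plain x.1 t ∧ ∀ j, j < m → f (x.2 t) j = f k j

theorem xc {a b c : Bool} (h : Bool.xor a c = Bool.xor b c) : a = b := by
  cases a <;> cases b <;> cases c <;> simp_all

section uniq

variable {m : ℕ} {f : ℕ → ℕ → Bool}

theorem dec0_np {x : LGr} {u : ℕ} (h : ¬ Plain x.1 u) : (dec0 x).2 u = x.2 u := if_neg h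

theorem mu_lt {y : BinStr} {x : LGr} (h : GoodF m f y x) (hx : Lay m (dec0 x)) (u : ℕ) :
    x.2 u < m := by
  by_cases hu : Plain x.1 u
  · exact (h.nf u hu).1
  · rw [← dec0_np hu]
    exact hx.lt u

theorem y_plain (hf : ∀ i j, f i j = f j i) {y : BinStr} {x : LGr} (h : GoodF m f y x)
    (hx : Lay m (dec0 x)) {t u : ℕ} (ht : Plain x.1 t) (hu : u ≠ t) :
    y t u = f (x.2 t) (x.2 u) ∧ y u t = f (x.2 t) (x.2 u) := by
  have h1 : x.1 u t = false := (hx.symm u t).trans (ht u)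
  rw [h.eq t u, h.eq u t]
  unfold flip
  rw [if_neg hu.symm, if_neg hu, h1, ht u]
  simp [hf (x.2 u) (x.2 t)]

theorem pick {y : BinStr} {x : LGr} (h : GoodF m f y x) {k : ℕ} (hk : k < m) (a b : ℕ) :
    ∃ t, t ≠ a ∧ t ≠ b ∧ Plain x.1 t ∧ ∀ j, j < m → f (x.2 t) j = f k j := by
  obtain ⟨t, h1, h2, h3⟩ := h.inf k hk (a + b + 1)
  exact ⟨t, by omega, by omega, h2, h3⟩

theorem plain_iff (hf : ∀ i j, f i j = f j i) {y : BinStr} {x : LGr} (h : GoodF m f y x)
    (hx : Lay m (dec0 x)) (t : ℕ) : Plain x.1 t ↔ {v | Tw y t v}.Infinite := by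
  have hlt := mu_lt h hx
  constructor
  · intro ht hfin
    obtain ⟨N, hN⟩ := hfin.bddAbove
    obtain ⟨t', h1, h2, h3⟩ := h.inf (x.2 t) (hlt t) (N + 1)
    have : t' ∈ {v | Tw y t v} := by
      intro w hw hw'
      rw [(y_plain hf h hx ht hw).1, (y_plain hf h hx h2 hw').1, h3 _ (hlt w)]
    have := hN this
    omega
  · intro hinf
    by_contra ht
    refine hinf ((hx.tw t ht).subset fun v hv => ?_)
    intro w hw hw'
    show x.1 t w = x.1 v w
    have h1 : ∀ j, j < m → f (x.2 t) j = f (x.2 v) j := by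
      intro j hj
      obtain ⟨z, z1, z2, z3, z4⟩ := pick h hj t v
      have e1 := (y_plain hf h hx z3 z1.symm).2
      have e2 := (y_plain hf h hx z3 z2.symm).2
      have e3 : y t z = y v z := hv z z1 z2
      rw [e1, e2, z4 _ (hlt t), z4 _ (hlt v)] at e3
      rw [hf _ j, hf _ j]
      exact e3
    have e4 : y t w = y v w := hv w hw hw'
    rw [h.eq, h.eq] at e4
    unfold flip at e4
    rw [if_neg hw.symm, if_neg hw'.symm, h1 _ (hlt w)] at e4
    exact xc e4

theorem xe {a b c d : Bool} (h : a = Bool.xor b c) (h' : a = Bool.xor d c) : b = d := xc (h.symm.trans h')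

/-- two representations -/
theorem uniqF (hf : ∀ i j, f i j = f j i) {y : BinStr} {x x' : LGr} (h : GoodF m f y x)
    (hx : Lay m (dec0 x)) (h' : GoodF m f y x') (hx' : Lay m (dec0 x'))
    (hk : (dec0 x).1 = (dec0 x').1 → (dec0 x).2 = (dec0 x').2) : x = x' := by
  have hlt := mu_lt h hx
  have hlt' := mu_lt h' hx'
  have hP : ∀ t, Plain x.1 t ↔ Plain x'.1 t := fun t =>
    (plain_iff hf h hx t).trans (plain_iff hf h' hx' t).symm
  have hs : x.1 = x'.1 := by
    funext u v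
    by_cases huv : u = v
    · subst huv
      exact (hx.irr u).trans (hx'.irr u).symm
    obtain ⟨z, z1, z2, z3, z4⟩ := pick h (hlt v) u v
    have e1 : y z u = f (x.2 z) (x.2 u) := (y_plain hf h hx z3 z1.symm).1
    have e1' : y z u = f (x'.2 z) (x'.2 u) := (y_plain hf h' hx' ((hP z).1 z3) z1.symm).1
    have key : f (x'.2 z) (x'.2 u) = f (x'.2 v) (x'.2 u) := by
      obtain ⟨w, w1, w2, w3, w4⟩ := pick h' (hlt' u) z v
      have w3' := (hP w).2 w3
      have a1 := (y_plain hf h hx w3' w1.symm).1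
      have a2 := (y_plain hf h hx w3' w2.symm).1
      have b1 := (y_plain hf h' hx' w3 w1.symm).1
      have b2 := (y_plain hf h' hx' w3 w2.symm).1
      rw [hf, z4 _ (hlt w), hf, ← a2] at a1
      rw [a1, b2, w4 _ (hlt' v), w4 _ (hlt' z)] at b1
      rw [hf _ (x'.2 u), hf (x'.2 v)]
      exact b1.symm
    rw [z4 _ (hlt u)] at e1
    rw [key, e1] at e1'
    have c1 := h.eq u v
    have c2 := h'.eq u v
    unfold flip at c1 c2
    rw [if_neg huv, hf] at c1 c2
    rw [← e1'] at c2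
    exact xe c1 c2
  have hd := hk hs
  refine Prod.ext hs (funext fun t => ?_)
  by_cases ht : Plain x.1 t
  · have ht' := (hP t).1 ht
    have key : ∀ k, k < m → f (x.2 t) k = f (x'.2 t) k := by
      intro k hk
      obtain ⟨v, v1, v2⟩ := hx.occ k hk
      have v1' : ¬ Plain x'.1 v := fun h => v1 ((hP v).2 h)
      have v3 : x.2 v = k := (dec0_np (x := x) v1).symm.trans v2
      have v4 : x'.2 v = k :=
        (dec0_np (x := x') v1').symm.trans ((congrFun hd v).symm.trans v2)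
      have hne : v ≠ t := fun e => v1 (e ▸ ht)
      have a1 := (y_plain hf h hx ht hne).1
      have a2 := (y_plain hf h' hx' ht' hne).1
      rw [v3] at a1
      rw [v4] at a2
      exact a1.symm.trans a2
    rcases lt_trichotomy (x.2 t) (x'.2 t) with hl | hl | hl
    · obtain ⟨j, j1, j2⟩ := (h'.nf t ht').2 _ hl
      exact absurd (key j j1) j2
    · exact hl
    · obtain ⟨j, j1, j2⟩ := (h.nf t ht).2 _ hl
      exact absurd (key j j1).symm j2
  · have ht' : ¬ Plain x'.1 t := fun h => ht ((hP t).2 h)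
    rw [← dec0_np ht, ← dec0_np ht']
    exact congrFun hd t

theorem plain_map {s s' : BinStr} {σ : Equiv.Perm ℕ} (h : ∀ u v, s' (σ u) (σ v) = s u v) (t : ℕ) :
    Plain s t ↔ Plain s' (σ t) := by
  constructor
  · intro ht x
    have := ht (σ.symm x)
    rw [← h, σ.apply_symm_apply] at this
    exact this
  · intro ht x
    rw [← h]
    exact ht _

theorem equiF {y y' : BinStr} {x : LGr} (hy : BIso y y') (h : GoodF m f y x) :
    ∃ x', GoodF m f y' x' ∧ LIso (dec0 x) (dec0 x') := by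
  obtain ⟨σ, hσ⟩ := hy
  have ex : ∀ v, ∃ u, σ u = v := fun v => ⟨σ.symm v, σ.apply_symm_apply v⟩
  let x' : LGr := (fun u v => x.1 (σ.symm u) (σ.symm v), fun u => x.2 (σ.symm u))
  have e1 : ∀ u v, x'.1 (σ u) (σ v) = x.1 u v := fun u v => by simp [x']
  have e2 : ∀ u, x'.2 (σ u) = x.2 u := fun u => by simp [x']
  have hP := plain_map e1
  refine ⟨x', ⟨?_, ?_, ?_⟩, σ, e1, fun u => ?_⟩
  · intro u v
    obtain ⟨u, rfl⟩ := ex u
    obtain ⟨v, rfl⟩ := ex v
    rw [hσ, h.eq]
    unfold flip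
    rw [e1, e2, e2]
    simp only [σ.injective.eq_iff]
  · intro t ht
    obtain ⟨t, rfl⟩ := ex t
    rw [e2]
    exact h.nf t ((hP t).2 ht)
  · intro k hk N
    have hinf : {t | Plain x.1 t ∧ ∀ j, j < m → f (x.2 t) j = f k j}.Infinite := by
      intro hfin
      obtain ⟨M, hM⟩ := hfin.bddAbove
      obtain ⟨t, h1, h2, h3⟩ := h.inf k hk (M + 1)
      have := hM (show t ∈ {t | Plain x.1 t ∧ ∀ j, j < m → f (x.2 t) j = f k j} from ⟨h2, h3⟩)
      omega
    obtain ⟨t', h1, h2⟩ := (hinf.image σ.injective.injOn).exists_gt N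
    obtain ⟨t, h3, rfl⟩ := h1
    refine ⟨σ t, h2.le, (hP t).1 h3.1, fun j hj => ?_⟩
    rw [e2]
    exact h3.2 j hj
  · unfold dec0
    simp only
    by_cases hu : Plain x.1 u
    · rw [if_pos hu, if_pos ((hP u).1 hu)]
    · rw [if_neg hu, if_neg (fun h => hu ((hP u).2 h)), e2]

/-- gluing of bijections -/
theorem glue {X X' : ℕ → Prop} (e1 : {x // X x} ≃ {x // X' x}) (e2 : {x // ¬ X x} ≃ {x // ¬ X' x}) :
    ∃ σ : Equiv.Perm ℕ, (∀ x (h : X x), σ x = e1 ⟨x, h⟩) ∧ ∀ x (h : ¬ X x), σ x = e2 ⟨x, h⟩ := by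
  classical
  refine ⟨(Equiv.sumCompl X).symm.trans ((e1.sumCongr e2).trans (Equiv.sumCompl X')),
    fun x hx => ?_, fun x hx => ?_⟩
  · simp only [Equiv.trans_apply]
    rw [Equiv.sumCompl_symm_apply_of_pos hx]
    rfl
  · simp only [Equiv.trans_apply]
    rw [Equiv.sumCompl_symm_apply_of_neg hx]
    rfl

/-- bijections of the isolated vertices which preserve the layers -/
theorem plain_equiv {y y' : BinStr} {x x' : LGr} (h : GoodF m f y x) (h' : GoodF m f y' x') :
    ∃ e : {t // Plain x.1 t} ≃ {t // Plain x'.1 t}, ∀ t, x'.2 (e t) = x.2 t := by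
  classical
  have key : ∀ {y y' : BinStr} {x x' : LGr}, GoodF m f y x → GoodF m f y' x' →
      ∀ t, Plain x.1 t → Infinite {t' : {t // Plain x'.1 t} // x'.2 t' = x.2 t} := by
    intro y y' x x' h h' t ht
    obtain ⟨h1, h2⟩ := h.nf t ht
    have hinf : {t' | Plain x'.1 t' ∧ x'.2 t' = x.2 t}.Infinite := by
      intro hfin
      obtain ⟨M, hM⟩ := hfin.bddAbove
      obtain ⟨t', k1, k2, k3⟩ := h'.inf _ h1 (M + 1)
      obtain ⟨k4, k5⟩ := h'.nf t' k2
      have k6 : x'.2 t' = x.2 t := by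
        rcases lt_trichotomy (x'.2 t') (x.2 t) with hl | hl | hl
        · obtain ⟨j, j1, j2⟩ := h2 _ hl
          exact absurd (k3 j j1) j2
        · exact hl
        · obtain ⟨j, j1, j2⟩ := k5 _ hl
          exact absurd (k3 j j1).symm j2
      have := hM (show t' ∈ {t' | Plain x'.1 t' ∧ x'.2 t' = x.2 t} from ⟨k2, k6⟩)
      omega
    have i1 := hinf.to_subtype
    exact Infinite.of_injective
      (fun t' : {t' | Plain x'.1 t' ∧ x'.2 t' = x.2 t} => (⟨⟨t'.1, t'.2.1⟩, t'.2.2⟩ :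
        {t' : {t // Plain x'.1 t} // x'.2 t' = x.2 t})) (fun a b hab => by
        simpa [Subtype.ext_iff] using hab)
  have hfib : ∀ k : ℕ, Nonempty ({t : {t // Plain x.1 t} // x.2 t = k} ≃
      {t : {t // Plain x'.1 t} // x'.2 t = k}) := by
    intro k
    by_cases h1 : ∃ t, Plain x.1 t ∧ x.2 t = k
    · obtain ⟨t, h2, rfl⟩ := h1
      have i1 := key h h' t h2
      have i2 := key h h t h2
      exact nonempty_equiv_of_countable
    · by_cases h2 : ∃ t, Plain x'.1 t ∧ x'.2 t = k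
      · obtain ⟨t, h3, rfl⟩ := h2
        have i1 := key h' h t h3
        have i2 := key h' h' t h3
        exact nonempty_equiv_of_countable
      · have i1 : IsEmpty {t : {t // Plain x.1 t} // x.2 t = k} :=
          ⟨fun t => h1 ⟨t.1.1, t.1.2, t.2⟩⟩
        have i2 : IsEmpty {t : {t // Plain x'.1 t} // x'.2 t = k} :=
          ⟨fun t => h2 ⟨t.1.1, t.1.2, t.2⟩⟩
        exact ⟨Equiv.equivOfIsEmpty _ _⟩
  let e := fun k => (hfib k).some
  refine ⟨(Equiv.sigmaFiberEquiv (fun t : {t // Plain x.1 t} => x.2 t)).symm.trans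
    ((Equiv.sigmaCongrRight e).trans
      (Equiv.sigmaFiberEquiv (fun t : {t // Plain x'.1 t} => x'.2 t))), fun t => ?_⟩
  exact ((e (x.2 t)) ⟨t, rfl⟩).2

theorem isoF (hf : ∀ i j, f i j = f j i) {y y' : BinStr} {x x' : LGr} (h : GoodF m f y x)
    (hx : Lay m (dec0 x)) (h' : GoodF m f y' x') (hx' : Lay m (dec0 x'))
    (hi : LIso (dec0 x) (dec0 x')) : BIso y y' := by
  classical
  obtain ⟨σ, h1, h2⟩ := hi
  have hP : ∀ t, Plain x.1 t ↔ Plain x'.1 (σ t) := plain_map h1
  obtain ⟨e, he⟩ := plain_equiv h h'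
  let e0 : {t // ¬ Plain x.1 t} ≃ {t // ¬ Plain x'.1 t} :=
    σ.subtypeEquiv (fun t => not_congr (hP t))
  obtain ⟨τ, t1, t2⟩ := glue e e0
  have hτ0 : ∀ t, ¬ Plain x.1 t → τ t = σ t := fun t ht => t2 t ht
  have hτP : ∀ t, Plain x.1 t → Plain x'.1 (τ t) := fun t ht => by
    rw [t1 t ht]
    exact (e ⟨t, ht⟩).2
  have hμ : ∀ t, x'.2 (τ t) = x.2 t := by
    intro t
    by_cases ht : Plain x.1 t
    · rw [t1 t ht]
      exact he ⟨t, ht⟩
    · rw [hτ0 t ht, ← dec0_np ht, ← dec0_np (fun h => ht ((hP t).2 h))]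
      exact h2 t
  have hs : ∀ u v, x'.1 (τ u) (τ v) = x.1 u v := by
    intro u v
    by_cases hu : Plain x.1 u
    · rw [hu v]
      exact hτP u hu _
    · by_cases hv : Plain x.1 v
      · have a1 : x.1 u v = false := (hx.symm u v).trans (hv u)
        have a2 : x'.1 (τ u) (τ v) = false := (hx'.symm _ _).trans (hτP v hv _)
        rw [a1, a2]
      · rw [hτ0 u hu, hτ0 v hv]
        exact h1 u v
  refine ⟨τ, fun u v => ?_⟩
  rw [h'.eq, h.eq]
  unfold flip
  rw [hs, hμ, hμ]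
  simp only [τ.injective.eq_iff]

end uniq

section meas

theorem bp_of {X α : Type} [MeasurableSpace X] [MeasurableSpace α] [DiscreteMeasurableSpace α]
    {g : X → α} (hg : Measurable g) (Q : α → Prop) : BP (fun x => Q (g x)) :=
  hg (MeasurableSet.of_discrete (s := {a | Q a}))

theorem meas1 {X : Type} [MeasurableSpace X] {g : X → BinStr} (hg : Measurable g) (u v : ℕ) :
    Measurable (fun p => g p u v) := (measurable_pi_apply v).comp ((measurable_pi_apply u).comp hg)

theorem meas2 {X : Type} [MeasurableSpace X] {g : X → ℕ → ℕ} (hg : Measurable g) (u : ℕ) :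
    Measurable (fun p => g p u) := (measurable_pi_apply u).comp hg

theorem bp_plain {X : Type} [MeasurableSpace X] {g : X → BinStr} (hg : Measurable g) (t : ℕ) :
    BP (fun p => Plain (g p) t) := BP.all fun x => bp_of (meas1 hg t x) (fun b => b = false)

theorem meas_flip {X : Type} [MeasurableSpace X] {g : X → BinStr} (hg : Measurable g)
    {l : X → ℕ → ℕ} (hl : Measurable l) (f : ℕ → ℕ → Bool) (u v : ℕ) :
    Measurable (fun p => flip f (g p) (l p) u v) := by
  unfold flip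
  by_cases h : u = v
  · simp only [h, if_true]
    exact measurable_const
  · simp only [h, if_false]
    exact (measurable_of_countable (fun q : Bool × ℕ × ℕ => Bool.xor q.1 (f q.2.1 q.2.2))).comp
      ((meas1 hg u v).prodMk ((meas2 hl u).prodMk (meas2 hl v)))

theorem bp_goodF (m : ℕ) (f : ℕ → ℕ → Bool) :
    BP (fun p : BinStr × LGr => GoodF m f p.1 p.2) := by
  have hy : Measurable (fun p : BinStr × LGr => p.1) := measurable_fst
  have hs : Measurable (fun p : BinStr × LGr => p.2.1) := measurable_fst.comp measurable_snd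
  have hm : Measurable (fun p : BinStr × LGr => p.2.2) := measurable_snd.comp measurable_snd
  have : BP (fun p : BinStr × LGr =>
      (∀ u v, p.1 u v = flip f p.2.1 p.2.2 u v) ∧
      (∀ t, Plain p.2.1 t → p.2.2 t < m ∧ ∀ k, k < p.2.2 t → ∃ j, j < m ∧ f k j ≠ f (p.2.2 t) j) ∧
      (∀ k, k < m → ∀ N, ∃ t, N ≤ t ∧ Plain p.2.1 t ∧ ∀ j, j < m → f (p.2.2 t) j = f k j)) :=
    (BP.all fun u => BP.all fun v => measurableSet_eq_fun (meas1 hy u v) (meas_flip hs hm f u v)).and <|
    (BP.all fun t => (bp_plain hs t).imp (bp_of (meas2 hm t)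
      (fun n => n < m ∧ ∀ k, k < n → ∃ j, j < m ∧ f k j ≠ f n j))).and
    (BP.all fun k => (BP.const (k < m)).imp (BP.all fun N => BP.ex fun t =>
      (BP.const (N ≤ t)).and ((bp_plain hs t).and (bp_of (meas2 hm t)
        (fun n => ∀ j, j < m → f n j = f k j)))))
  exact this.congr fun y => ⟨fun ⟨h1, h2, h3⟩ => ⟨h1, h2, h3⟩, fun ⟨h1, h2, h3⟩ => ⟨h1, h2, h3⟩⟩

theorem meas_dec0 : Measurable dec0 := by
  classical
  refine measurable_fst.prodMk (measurable_pi_iff.2 fun u => ?_)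
  exact Measurable.ite (bp_plain measurable_fst u) measurable_const (meas2 measurable_snd u)

end meas

/-- every admissible graph has an extension of the layers in normal form -/
theorem exF {m : ℕ} {f : ℕ → ℕ → Bool} {x : LGr} (hx : Lay m x) :
    ∃ μ : ℕ → ℕ, GoodF m f (flip f x.1 μ) (x.1, μ) ∧ dec0 (x.1, μ) = x := by
  classical
  have hm : 0 < m := lt_of_le_of_lt (Nat.zero_le _) (hx.lt 0)
  have i0 : Nonempty (Fin m) := ⟨⟨0, hm⟩⟩
  have i1 : Infinite {t // Plain x.1 t} := hx.inf.to_subtype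
  obtain ⟨e⟩ := nonempty_equiv_of_countable (α := {t // Plain x.1 t}) (β := Fin m × ℕ)
  have hc : ∀ k : ℕ, ∃ k', ∀ j, j < m → f k' j = f k j := fun k => ⟨k, fun _ _ => rfl⟩
  let c : ℕ → ℕ := fun k => Nat.find (hc k)
  have c1 : ∀ k j, j < m → f (c k) j = f k j := fun k => Nat.find_spec (hc k)
  have c2 : ∀ k, c k ≤ k := fun k => Nat.find_min' (hc k) (fun _ _ => rfl)
  let μ : ℕ → ℕ := fun t => if h : Plain x.1 t then c (e ⟨t, h⟩).1 else x.2 t
  have hμ : ∀ t (h : Plain x.1 t), μ t = c (e ⟨t, h⟩).1 := fun t h => dif_pos h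
  refine ⟨μ, ⟨fun _ _ => rfl, fun t ht => ?_, fun k hk N => ?_⟩, ?_⟩
  · have ht' : Plain x.1 t := ht
    show μ t < m ∧ ∀ k, k < μ t → ∃ j, j < m ∧ f k j ≠ f (μ t) j
    rw [hμ t ht']
    refine ⟨lt_of_le_of_lt (c2 _) (e ⟨t, ht'⟩).1.2, fun k hk => ?_⟩
    have := Nat.find_min (hc (e ⟨t, ht'⟩).1) hk
    push Not at this
    obtain ⟨j, j1, j2⟩ := this
    exact ⟨j, j1, fun h => j2 (h.trans (c1 _ j j1))⟩
  · have hinf : (Set.range fun n : ℕ => ((e.symm (⟨k, hk⟩, n)).1 : ℕ)).Infinite :=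
      Set.infinite_range_of_injective fun a b hab => by
        have := e.symm.injective (Subtype.ext hab)
        exact (Prod.ext_iff.1 this).2
    obtain ⟨t, ⟨n, hn⟩, h2⟩ := hinf.exists_gt N
    have hn' : (e.symm (⟨k, hk⟩, n)).1 = t := hn
    have ht : Plain x.1 t := by
      rw [← hn']
      exact (e.symm (⟨k, hk⟩, n)).2
    refine ⟨t, h2.le, ht, fun j hj => ?_⟩
    show f (μ t) j = f k j
    have e1 : (⟨t, ht⟩ : {t // Plain x.1 t}) = e.symm (⟨k, hk⟩, n) := Subtype.ext hn'.symm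
    rw [hμ t ht, e1, e.apply_symm_apply]
    exact c1 k j hj
  · refine Prod.ext rfl (funext fun t => ?_)
    by_cases ht : Plain x.1 t
    · exact (if_pos ht).trans (hx.pl t ht).symm
    · exact (if_neg ht).trans (dif_neg ht)

/-- **Flips between layers.** -/
theorem faithful_flip {K : LGr → Prop} (hK : Faithful LIso K) (m : ℕ) (hL : ∀ x, K x → Lay m x)
    (hu : ∀ s l l', K (s, l) → K (s, l') → l = l') (f : ℕ → ℕ → Bool) (hf : ∀ i j, f i j = f j i)
    {K' : BinStr → Prop}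
    (hK' : ∀ (s : BinStr) (μ : ℕ → ℕ), K (dec0 (s, μ)) → (∀ u, μ u < m) → K' (flip f s μ)) :
    Faithful BIso K' := by
  refine faithful_rep hK (GoodF m f) (bp_goodF m f) dec0 meas_dec0 (fun _ _ h => h.symm)
    ?_ ?_ ?_ ?_ ?_
  · intro y x x' h h' hx hx'
    refine uniqF hf h (hL _ hx) h' (hL _ hx') fun he => ?_
    refine hu (dec0 x).1 _ _ hx ?_
    rw [he]
    exact hx'
  · intro y y' x hy h _
    exact equiF hy h
  · intro y y' x x' h h' hx hx' hi
    exact isoF hf h (hL _ hx) h' (hL _ hx') hi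
  · intro x hx
    obtain ⟨μ, h1, h2⟩ := exF (f := f) (hL x hx)
    refine ⟨_, _, h1, ?_⟩
    rw [h2]
    exact ⟨1, fun _ _ => rfl, fun _ => rfl⟩
  · intro y x h hx
    have := hK' x.1 x.2 hx (mu_lt h (hL _ hx))
    have e : y = flip f x.1 x.2 := by
      funext u v
      exact h.eq u v
    rw [e]
    exact this

end Pool.Agent.Run7.h653.MD
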