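import Pool.Agent.Run7.h653.MD.Src

/-!
Half-graph crossings with paths of length at least two, as layered graphs: decoding.
-/

set_option autoImplicit false

namespace Pool.Agent.Run7.h653.MD

open Pool.Agent.W889.VC
open Pool.Agent.W889.VC.Grid
open Set

/-- a grid and the paths -/
abbrev RH : Type := GS × (ℕ → ℕ → ℕ)

/-- valid coordinates -/
def Va (r : ℕ) (g : GS) (u k : ℕ) : Prop := k = 1 ∨ ((toG g).P u ∧ 2 ≤ k ∧ k ≤ r)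

/-- edges -/
def HE (r : ℕ) (ρ : RH) (a b : ℕ) : Prop :=
  (∃ u p v, (toG ρ.1).R u ∧ (toG ρ.1).P p ∧ (toG ρ.1).R v ∧ (toG ρ.1).iR p v ∧
    (v = u ∨ (toG ρ.1).lt v u) ∧ ρ.2 u 1 = a ∧ ρ.2 p 1 = b) ∨
  (∃ u p v, (toG ρ.1).C u ∧ (toG ρ.1).P p ∧ (toG ρ.1).C v ∧ (toG ρ.1).iC p v ∧
    (toG ρ.1).lt u v ∧ ρ.2 u 1 = a ∧ ρ.2 p r = b) ∨
  (∃ p k, (toG ρ.1).P p ∧ 1 ≤ k ∧ k < r ∧ ρ.2 p k = a ∧ ρ.2 p (k + 1) = b)

/-- half-graph crossings -/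
structure GoodH (r : ℕ) (x : LGr) (ρ : RH) : Prop where
  mono : ∀ u v, u < v → ρ.2 u 1 < ρ.2 v 1
  inj : ∀ u k v l, Va r ρ.1 u k → Va r ρ.1 v l → ρ.2 u k = ρ.2 v l → u = v ∧ k = l
  junk : ∀ u k, ¬ Va r ρ.1 u k → ρ.2 u k = 0
  adj : ∀ a b, x.1 a b = true ↔ HE r ρ a b ∨ HE r ρ b a
  layR : ∀ u n, (toG ρ.1).R u → ρ.2 u 1 = n → x.2 n = 0
  layC : ∀ u n, (toG ρ.1).C u → ρ.2 u 1 = n → x.2 n = r + 1
  layP : ∀ u k n, (toG ρ.1).P u → 1 ≤ k → k ≤ r → ρ.2 u k = n → x.2 n = k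
  pl : ∀ t, Plain x.1 t → x.2 t = 0
  inf : ∀ n, ∃ t, n ≤ t ∧ Plain x.1 t

section basic

variable {r : ℕ} {x : LGr} {ρ : RH}

theorem va1 {r : ℕ} {g : GS} {u : ℕ} : Va r g u 1 := Or.inl rfl

theorem vaP {r : ℕ} {g : GS} {u k : ℕ} (h : (toG g).P u) (h1 : 1 ≤ k) (h2 : k ≤ r) : Va r g u k := by
  by_cases h3 : k = 1
  · exact Or.inl h3
  · exact Or.inr ⟨h, by omega, h2⟩

theorem GoodH.symm (h : GoodH r x ρ) (a b : ℕ) : x.1 a b = x.1 b a := by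
  rw [Bool.eq_iff_iff, h.adj, h.adj]
  exact or_comm

theorem GoodH.i1 (h : GoodH r x ρ) {u v : ℕ} (e : ρ.2 u 1 = ρ.2 v 1) : u = v :=
  (h.inj _ _ _ _ va1 va1 e).1

theorem GoodH.iP (h : GoodH r x ρ) {u v k l : ℕ} (hu : (toG ρ.1).P u) (hv : (toG ρ.1).P v)
    (h1 : 1 ≤ k) (h2 : k ≤ r) (h3 : 1 ≤ l) (h4 : l ≤ r) (e : ρ.2 u k = ρ.2 v l) : u = v ∧ k = l :=
  h.inj _ _ _ _ (vaP hu h1 h2) (vaP hv h3 h4) e

/-- path vertices are not rows, columns or first vertices -/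
theorem GoodH.n1 (h : GoodH r x ρ) {u k v : ℕ} (hu : (toG ρ.1).P u) (h1 : 2 ≤ k) (h2 : k ≤ r) :
    ρ.2 u k ≠ ρ.2 v 1 := by
  intro e
  have := (h.inj _ _ _ _ (vaP hu (by omega) h2) va1 e).2
  omega

theorem nRP {g : GS} {u : ℕ} (h : (toG g).R u) : ¬ (toG g).P u := fun h' => h'.1 h

theorem nCP {g : GS} {u : ℕ} (h : (toG g).C u) : ¬ (toG g).P u := fun h' => h'.2 h

theorem GoodH.nb_row (h : GoodH r x ρ) (hg : KG ρ.1) (hr : 2 ≤ r) {u : ℕ} (hu : (toG ρ.1).R u)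
    (b : ℕ) : x.1 (ρ.2 u 1) b = true ↔ ∃ p v, (toG ρ.1).P p ∧ (toG ρ.1).R v ∧ (toG ρ.1).iR p v ∧
      (v = u ∨ (toG ρ.1).lt v u) ∧ ρ.2 p 1 = b := by
  rw [h.adj]
  constructor
  · rintro ((⟨u', p, v, h1, h2, h3, h4, h5, h6, h7⟩ | ⟨u', p, v, h1, h2, h3, h4, h5, h6, h7⟩ |
      ⟨p, k, h1, h2, h3, h4, h5⟩) | (⟨u', p, v, h1, h2, h3, h4, h5, h6, h7⟩ |
      ⟨u', p, v, h1, h2, h3, h4, h5, h6, h7⟩ | ⟨p, k, h1, h2, h3, h4, h5⟩))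
    · have := h.i1 h6
      subst this
      exact ⟨p, v, h2, h3, h4, h5, h7⟩
    · have := h.i1 h6
      subst this
      exact absurd h1 (hg.b.disj _ hu)
    · have := (h.inj _ _ _ _ (vaP h1 h2 h3.le) va1 h4).1
      subst this
      exact absurd h1 (nRP hu)
    · have := h.i1 h7
      subst this
      exact absurd h2 (nRP hu)
    · exact absurd h7 (h.n1 h2 hr le_rfl)
    · exact absurd h5 (h.n1 h1 (by omega) (by omega))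
  · rintro ⟨p, v, h2, h3, h4, h5, h7⟩
    exact Or.inl (Or.inl ⟨u, p, v, hu, h2, h3, h4, h5, rfl, h7⟩)

theorem GoodH.nb_col (h : GoodH r x ρ) (hg : KG ρ.1) (hr : 2 ≤ r) {u : ℕ} (hu : (toG ρ.1).C u)
    (b : ℕ) : x.1 (ρ.2 u 1) b = true ↔ ∃ p v, (toG ρ.1).P p ∧ (toG ρ.1).C v ∧ (toG ρ.1).iC p v ∧
      (toG ρ.1).lt u v ∧ ρ.2 p r = b := by
  rw [h.adj]
  constructor
  · rintro ((⟨u', p, v, h1, h2, h3, h4, h5, h6, h7⟩ | ⟨u', p, v, h1, h2, h3, h4, h5, h6, h7⟩ |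
      ⟨p, k, h1, h2, h3, h4, h5⟩) | (⟨u', p, v, h1, h2, h3, h4, h5, h6, h7⟩ |
      ⟨u', p, v, h1, h2, h3, h4, h5, h6, h7⟩ | ⟨p, k, h1, h2, h3, h4, h5⟩))
    · have := h.i1 h6
      subst this
      exact absurd hu (hg.b.disj _ h1)
    · have := h.i1 h6
      subst this
      exact ⟨p, v, h2, h3, h4, h5, h7⟩
    · have := (h.inj _ _ _ _ (vaP h1 h2 h3.le) va1 h4).1
      subst this
      exact absurd h1 (nCP hu)
    · have := h.i1 h7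
      subst this
      exact absurd h2 (nCP hu)
    · exact absurd h7 (h.n1 h2 hr le_rfl)
    · exact absurd h5 (h.n1 h1 (by omega) (by omega))
  · rintro ⟨p, v, h2, h3, h4, h5, h7⟩
    exact Or.inl (Or.inr (Or.inl ⟨u, p, v, hu, h2, h3, h4, h5, rfl, h7⟩))

theorem GoodH.nb_w (h : GoodH r x ρ) (hr : 2 ≤ r) {p k : ℕ} (hp : (toG ρ.1).P p)
    (hk : 1 ≤ k) (hk' : k ≤ r) (b : ℕ) : x.1 (ρ.2 p k) b = true ↔
      (k = 1 ∧ ∃ u v, (toG ρ.1).R u ∧ (toG ρ.1).R v ∧ (toG ρ.1).iR p v ∧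
        (v = u ∨ (toG ρ.1).lt v u) ∧ ρ.2 u 1 = b) ∨
      (k = r ∧ ∃ u v, (toG ρ.1).C u ∧ (toG ρ.1).C v ∧ (toG ρ.1).iC p v ∧
        (toG ρ.1).lt u v ∧ ρ.2 u 1 = b) ∨
      (k < r ∧ ρ.2 p (k + 1) = b) ∨ (2 ≤ k ∧ ρ.2 p (k - 1) = b) := by
  rw [h.adj]
  constructor
  · rintro ((⟨u', q, v, h1, h2, h3, h4, h5, h6, h7⟩ | ⟨u', q, v, h1, h2, h3, h4, h5, h6, h7⟩ |
      ⟨q, l, h1, h2, h3, h4, h5⟩) | (⟨u', q, v, h1, h2, h3, h4, h5, h6, h7⟩ |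
      ⟨u', q, v, h1, h2, h3, h4, h5, h6, h7⟩ | ⟨q, l, h1, h2, h3, h4, h5⟩))
    · have := (h.inj _ _ _ _ va1 (vaP hp hk hk') h6).1
      subst this
      exact absurd hp (nRP h1)
    · have := (h.inj _ _ _ _ va1 (vaP hp hk hk') h6).1
      subst this
      exact absurd hp (nCP h1)
    · obtain ⟨rfl, rfl⟩ := h.iP h1 hp h2 h3.le hk hk' h4
      exact Or.inr (Or.inr (Or.inl ⟨h3, h5⟩))
    · obtain ⟨rfl, h8⟩ := h.inj _ _ _ _ va1 (vaP hp hk hk') h7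
      exact Or.inl ⟨h8.symm, u', v, h1, h3, h4, h5, h6⟩
    · obtain ⟨rfl, h8⟩ := h.iP h2 hp (by omega) le_rfl hk hk' h7
      exact Or.inr (Or.inl ⟨h8.symm, u', v, h1, h3, h4, h5, h6⟩)
    · obtain ⟨rfl, rfl⟩ := h.iP h1 hp (by omega) (by omega) hk hk' h5
      exact Or.inr (Or.inr (Or.inr ⟨by omega, h4⟩))
  · rintro (⟨rfl, u, v, h1, h2, h3, h4, h5⟩ | ⟨rfl, u, v, h1, h2, h3, h4, h5⟩ | ⟨h1, h2⟩ | ⟨h1, h2⟩)
    · exact Or.inr (Or.inl ⟨u, p, v, h1, hp, h2, h3, h4, h5, rfl⟩)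
    · exact Or.inr (Or.inr (Or.inl ⟨u, p, v, h1, hp, h2, h3, h4, h5, rfl⟩))
    · exact Or.inl (Or.inr (Or.inr ⟨p, k, hp, hk, h1, rfl, h2⟩))
    · exact Or.inr (Or.inr (Or.inr ⟨p, k - 1, hp, by omega, by omega, h2, by
        rw [Nat.sub_add_cancel hk]⟩))

theorem GoodH.np (h : GoodH r x ρ) (hr : 2 ≤ r) {a : ℕ} (ha : ¬ Plain x.1 a) :
    (∃ u, (toG ρ.1).R u ∧ ρ.2 u 1 = a) ∨ (∃ u, (toG ρ.1).C u ∧ ρ.2 u 1 = a) ∨
      ∃ p k, (toG ρ.1).P p ∧ 1 ≤ k ∧ k ≤ r ∧ ρ.2 p k = a := by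
  unfold Plain at ha
  push Not at ha
  obtain ⟨b, hb⟩ := ha
  have hb' : x.1 a b = true := by simpa using hb
  rw [h.adj] at hb'
  rcases hb' with (⟨u', q, v, h1, h2, h3, h4, h5, h6, h7⟩ | ⟨u', q, v, h1, h2, h3, h4, h5, h6, h7⟩ |
      ⟨q, l, h1, h2, h3, h4, h5⟩) | (⟨u', q, v, h1, h2, h3, h4, h5, h6, h7⟩ |
      ⟨u', q, v, h1, h2, h3, h4, h5, h6, h7⟩ | ⟨q, l, h1, h2, h3, h4, h5⟩)
  · exact Or.inl ⟨u', h1, h6⟩
  · exact Or.inr (Or.inl ⟨u', h1, h6⟩)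
  · exact Or.inr (Or.inr ⟨q, l, h1, h2, h3.le, h4⟩)
  · exact Or.inr (Or.inr ⟨q, 1, h2, le_rfl, by omega, h7⟩)
  · exact Or.inr (Or.inr ⟨q, r, h2, by omega, le_rfl, h7⟩)
  · exact Or.inr (Or.inr ⟨q, l + 1, h1, by omega, by omega, h5⟩)

/-- the edge is contained in a cycle of length four -/
def C4 (s : BinStr) (a b : ℕ) : Prop :=
  ∃ a' b', a ≠ a' ∧ b ≠ b' ∧ s a b' = true ∧ s a' b = true ∧ s a' b' = true

theorem C4.symm {s : BinStr} (hs : ∀ a b, s a b = s b a) {a b : ℕ} (h : C4 s a b) : C4 s b a := by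
  obtain ⟨a', b', h1, h2, h3, h4, h5⟩ := h
  refine ⟨b', a', h2, h1, ?_, ?_, ?_⟩
  · rw [hs]
    exact h4
  · rw [hs]
    exact h3
  · rw [hs]
    exact h5

/-- two points in the same fibre row, in different columns -/
theorem two_row {g : GS} (hg : KG g) {v : ℕ} (hv : (toG g).R v) (p : ℕ) :
    ∃ q, (toG g).P q ∧ (toG g).iR q v ∧ q ≠ p := by
  obtain ⟨c, hc⟩ := hg.f.c0
  obtain ⟨c', hc', hlt⟩ := hg.b.dC.above c hc
  obtain ⟨q, q1, q2, q3⟩ := hg.f.f v c hv hc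
  obtain ⟨q', k1, k2, k3⟩ := hg.f.f v c' hv hc'
  by_cases h : q = p
  · refine ⟨q', k1, k2, ?_⟩
    rintro rfl
    subst h
    obtain ⟨c0, -, -, h0⟩ := hg.b.rC q q1
    have : c = c' := (h0 c hc q3).trans (h0 c' hc' k3).symm
    subst this
    exact hg.b.dC.irrefl _ hc hlt
  · exact ⟨q, q1, q2, h⟩

theorem two_col {g : GS} (hg : KG g) {v : ℕ} (hv : (toG g).C v) (p : ℕ) :
    ∃ q, (toG g).P q ∧ (toG g).iC q v ∧ q ≠ p := by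
  obtain ⟨c, hc⟩ := hg.f.r0
  obtain ⟨c', hc', hlt⟩ := hg.b.dR.above c hc
  obtain ⟨q, q1, q2, q3⟩ := hg.f.f c v hc hv
  obtain ⟨q', k1, k2, k3⟩ := hg.f.f c' v hc' hv
  by_cases h : q = p
  · refine ⟨q', k1, k3, ?_⟩
    rintro rfl
    subst h
    obtain ⟨c0, -, -, h0⟩ := hg.b.rR q q1
    have : c = c' := (h0 c hc q2).trans (h0 c' hc' k2).symm
    subst this
    exact hg.b.dR.irrefl _ hc hlt
  · exact ⟨q, q1, q3, h⟩

theorem GoodH.c4_row (h : GoodH r x ρ) (hg : KG ρ.1) (hr : 2 ≤ r) {u b : ℕ}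
    (hu : (toG ρ.1).R u) (hb : x.1 (ρ.2 u 1) b = true) : C4 x.1 (ρ.2 u 1) b := by
  obtain ⟨p, v, h1, h2, h3, h4, rfl⟩ := (h.nb_row hg hr hu b).1 hb
  obtain ⟨u', h5, h6⟩ := hg.b.dR.above u hu
  obtain ⟨q, q1, q2, q3⟩ := two_row hg h2 p
  have h7 : v = u' ∨ (toG ρ.1).lt v u' := by
    rcases h4 with rfl | h4
    · exact Or.inr h6
    · exact Or.inr (hg.b.dR.trans _ _ _ h2 hu h5 h4 h6)
  refine ⟨ρ.2 u' 1, ρ.2 q 1, fun e => ?_, fun e => q3 (h.i1 e).symm, ?_, ?_, ?_⟩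
  · have := h.i1 e
    subst this
    exact hg.b.dR.irrefl _ hu h6
  · exact (h.nb_row hg hr hu _).2 ⟨q, v, q1, h2, q2, h4, rfl⟩
  · exact (h.nb_row hg hr h5 _).2 ⟨p, v, h1, h2, h3, h7, rfl⟩
  · exact (h.nb_row hg hr h5 _).2 ⟨q, v, q1, h2, q2, h7, rfl⟩

theorem GoodH.c4_col (h : GoodH r x ρ) (hg : KG ρ.1) (hr : 2 ≤ r) {u b : ℕ}
    (hu : (toG ρ.1).C u) (hb : x.1 (ρ.2 u 1) b = true) : C4 x.1 (ρ.2 u 1) b := by
  obtain ⟨p, v, h1, h2, h3, h4, rfl⟩ := (h.nb_col hg hr hu b).1 hb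
  obtain ⟨u', h5, h6⟩ := hg.b.dC.below u hu
  obtain ⟨q, q1, q2, q3⟩ := two_col hg h2 p
  have h7 : (toG ρ.1).lt u' v := hg.b.dC.trans _ _ _ h5 hu h2 h6 h4
  refine ⟨ρ.2 u' 1, ρ.2 q r, fun e => ?_, fun e => q3 (h.iP h1 q1 (by omega) le_rfl (by omega)
    le_rfl e).1.symm, ?_, ?_, ?_⟩
  · have := h.i1 e
    subst this
    exact hg.b.dC.irrefl _ hu h6
  · exact (h.nb_col hg hr hu _).2 ⟨q, v, q1, h2, q2, h4, rfl⟩
  · exact (h.nb_col hg hr h5 _).2 ⟨p, v, h1, h2, h3, h7, rfl⟩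
  · exact (h.nb_col hg hr h5 _).2 ⟨q, v, q1, h2, q2, h7, rfl⟩

theorem GoodH.step (h : GoodH r x ρ) {p k : ℕ} (hp : (toG ρ.1).P p) (h1 : 1 ≤ k) (h2 : k < r) :
    x.1 (ρ.2 p k) (ρ.2 p (k + 1)) = true :=
  (h.adj _ _).2 (Or.inl (Or.inr (Or.inr ⟨p, k, hp, h1, h2, rfl, rfl⟩)))

/-- path edges are in no cycle of length four -/
theorem GoodH.not_c4 (h : GoodH r x ρ) (hg : KG ρ.1) (hr : 2 ≤ r) {p k : ℕ}
    (hp : (toG ρ.1).P p) (h1 : 1 ≤ k) (h2 : k < r) : ¬ C4 x.1 (ρ.2 p k) (ρ.2 p (k + 1)) := by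
  rintro ⟨a, b, ha, hb, e1, e2, e3⟩
  rw [h.symm] at e2
  rw [h.nb_w hr hp h1 h2.le] at e1
  rw [h.nb_w hr hp (by omega) h2] at e2
  rcases e1 with ⟨k1, u, v, k2, k3, k4, k5, rfl⟩ | ⟨k1, -⟩ | ⟨-, k1⟩ | ⟨k1, rfl⟩
  · -- `b` is a row
    rw [h.symm, h.nb_row hg hr k2] at e3
    obtain ⟨q, v', l1, l2, l3, l4, l5⟩ := e3
    rcases e2 with ⟨m1, -⟩ | ⟨m1, u', v'', m2, m3, m4, m5, m6⟩ | ⟨m1, m2⟩ | ⟨m1, m2⟩
    · omega
    · rw [← m6] at l5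
      have := h.i1 l5
      subst this
      exact nCP m2 l1
    · rw [← m2] at l5
      exact h.n1 hp (by omega) (by omega) l5.symm
    · exact ha m2
  · omega
  · exact hb k1
  · -- `b` is the preceding path vertex
    rw [h.symm, h.nb_w hr hp (by omega) (by omega)] at e3
    rcases e2 with ⟨m1, -⟩ | ⟨m1, u', v'', m2, m3, m4, m5, rfl⟩ | ⟨m1, rfl⟩ | ⟨m1, m2⟩
    · omega
    · rcases e3 with ⟨n1, u, v, n2, n3, n4, n5, n6⟩ | ⟨n1, -⟩ | ⟨n1, n2⟩ | ⟨n1, n2⟩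
      · have := h.i1 n6
        subst this
        exact hg.b.disj _ n2 m2
      · omega
      · rw [Nat.sub_add_cancel h1] at n2
        exact h.n1 hp k1 h2.le n2
      · rcases Nat.lt_or_ge (k - 1 - 1) 2 with n3 | n3
        · rw [show k - 1 - 1 = 1 by omega] at n2
          have := h.i1 n2
          subst this
          exact nCP m2 hp
        · exact h.n1 hp n3 (by omega) n2
    · rcases e3 with ⟨n1, u, v, n2, n3, n4, n5, n6⟩ | ⟨n1, -⟩ | ⟨n1, n2⟩ | ⟨n1, n2⟩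
      · exact h.n1 hp (by omega) (by omega) n6.symm
      · omega
      · have := (h.iP hp hp (by omega) (by omega) (by omega) (by omega) n2).2
        omega
      · have := (h.iP hp hp (by omega) (by omega) (by omega) (by omega) n2).2
        omega
    · exact ha m2

/-- rows and columns, from the graph -/
def RtH (s : BinStr) (a : ℕ) : Prop := (∃ b, s a b = true) ∧ ∀ b, s a b = true → C4 s a b

theorem GoodH.rt_iff (h : GoodH r x ρ) (hg : KG ρ.1) (hr : 2 ≤ r) (a : ℕ) :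
    RtH x.1 a ↔ (∃ u, (toG ρ.1).R u ∧ ρ.2 u 1 = a) ∨ ∃ u, (toG ρ.1).C u ∧ ρ.2 u 1 = a := by
  constructor
  · rintro ⟨⟨b, hb⟩, h2⟩
    have ha : ¬ Plain x.1 a := by
      intro ha
      rw [ha b] at hb
      exact absurd hb (by decide)
    rcases h.np hr ha with h3 | h3 | ⟨p, k, h3, h4, h5, rfl⟩
    · exact Or.inl h3
    · exact Or.inr h3
    · exfalso
      rcases Nat.lt_or_ge k r with h6 | h6
      · exact h.not_c4 hg hr h3 h4 h6 (h2 _ (h.step h3 h4 h6))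
      · obtain ⟨j, rfl⟩ : ∃ j, k = j + 1 := ⟨k - 1, by omega⟩
        have e1 := h.step h3 (k := j) (by omega) (by omega)
        rw [h.symm] at e1
        exact h.not_c4 hg hr h3 (k := j) (by omega) (by omega) ((h2 _ e1).symm h.symm)
  · rintro (⟨u, hu, rfl⟩ | ⟨u, hu, rfl⟩)
    · refine ⟨?_, fun b hb => h.c4_row hg hr hu hb⟩
      obtain ⟨c, hc⟩ := hg.f.c0
      obtain ⟨q, q1, q2, q3⟩ := hg.f.f u c hu hc
      exact ⟨_, (h.nb_row hg hr hu _).2 ⟨q, u, q1, hu, q2, Or.inl rfl, rfl⟩⟩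
    · refine ⟨?_, fun b hb => h.c4_col hg hr hu hb⟩
      obtain ⟨c, hc⟩ := hg.f.r0
      obtain ⟨u', h1, h2⟩ := hg.b.dC.above u hu
      obtain ⟨q, q1, q2, q3⟩ := hg.f.f c u' hc h1
      exact ⟨_, (h.nb_col hg hr hu _).2 ⟨q, u', q1, h1, q3, h2, rfl⟩⟩

/-- columns, from the graph -/
def ClH (s : BinStr) (a : ℕ) : Prop :=
  RtH s a ∧ ∀ b, s a b = true → ∃ a', RtH s a' ∧ s a' b = true ∧
    (∀ b', s a' b' = true → s a b' = true) ∧ ∃ b', s a b' = true ∧ s a' b' ≠ true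

theorem GoodH.cl_iff (h : GoodH r x ρ) (hg : KG ρ.1) (hr : 2 ≤ r) (a : ℕ) :
    ClH x.1 a ↔ ∃ u, (toG ρ.1).C u ∧ ρ.2 u 1 = a := by
  constructor
  · rintro ⟨h1, h2⟩
    rcases (h.rt_iff hg hr a).1 h1 with ⟨u, hu, rfl⟩ | h3
    · exfalso
      obtain ⟨c, hc⟩ := hg.f.c0
      obtain ⟨p, p1, p2, p3⟩ := hg.f.f u c hu hc
      obtain ⟨a', k1, k2, k3, b', k4, k5⟩ := h2 (ρ.2 p 1)
        ((h.nb_row hg hr hu _).2 ⟨p, u, p1, hu, p2, Or.inl rfl, rfl⟩)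
      rcases (h.rt_iff hg hr a').1 k1 with ⟨u', hu', rfl⟩ | ⟨u', hu', rfl⟩
      · obtain ⟨p', v, l1, l2, l3, l4, l5⟩ := (h.nb_row hg hr hu' _).1 k2
        have := h.i1 l5
        subst this
        obtain ⟨r0, -, -, h0⟩ := hg.b.rR p' l1
        have e : v = u := (h0 v l2 l3).trans (h0 u hu p2).symm
        subst e
        rcases l4 with rfl | l4
        · exact k5 k4
        · obtain ⟨q, q1, q2, q3⟩ := hg.f.f u' c hu' hc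
          have := k3 _ ((h.nb_row hg hr hu' _).2 ⟨q, u', q1, hu', q2, Or.inl rfl, rfl⟩)
          obtain ⟨q', w, m1, m2, m3, m4, m5⟩ := (h.nb_row hg hr hu _).1 this
          have e := h.i1 m5
          subst e
          obtain ⟨r1, -, -, h1'⟩ := hg.b.rR q' m1
          have e : w = u' := (h1' w m2 m3).trans (h1' u' hu' q2).symm
          subst e
          rcases m4 with rfl | m4
          · exact hg.b.dR.irrefl _ hu l4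
          · exact hg.b.dR.irrefl _ hu (hg.b.dR.trans _ _ _ hu m2 hu l4 m4)
      · obtain ⟨p', v, l1, l2, l3, l4, l5⟩ := (h.nb_col hg hr hu' _).1 k2
        exact h.n1 l1 hr le_rfl l5
    · exact h3
  · rintro ⟨u, hu, rfl⟩
    refine ⟨(h.rt_iff hg hr _).2 (Or.inr ⟨u, hu, rfl⟩), fun b hb => ?_⟩
    obtain ⟨p, v, h1, h2, h3, h4, rfl⟩ := (h.nb_col hg hr hu b).1 hb
    obtain ⟨c, h5, h6, h7⟩ := hg.b.dC.dense u v hu h2 h4
    obtain ⟨r0, hr0⟩ := hg.f.r0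
    obtain ⟨q, q1, q2, q3⟩ := hg.f.f r0 c hr0 h5
    refine ⟨ρ.2 c 1, (h.rt_iff hg hr _).2 (Or.inr ⟨c, h5, rfl⟩),
      (h.nb_col hg hr h5 _).2 ⟨p, v, h1, h2, h3, h7, rfl⟩, fun b' hb' => ?_,
      ρ.2 q r, (h.nb_col hg hr hu _).2 ⟨q, c, q1, h5, q3, h6, rfl⟩, fun hb' => ?_⟩
    · obtain ⟨p', v', l1, l2, l3, l4, l5⟩ := (h.nb_col hg hr h5 _).1 hb'
      exact (h.nb_col hg hr hu _).2 ⟨p', v', l1, l2, l3, hg.b.dC.trans _ _ _ hu h5 l2 h6 l4, l5⟩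
    · obtain ⟨p', v', l1, l2, l3, l4, l5⟩ := (h.nb_col hg hr h5 _).1 hb'
      have e := (h.iP l1 q1 (by omega) le_rfl (by omega) le_rfl l5).1
      subst e
      obtain ⟨r1, -, -, h1'⟩ := hg.b.rC p' l1
      have e : v' = c := (h1' v' l2 l3).trans (h1' c h5 q3).symm
      subst e
      exact hg.b.dC.irrefl _ h5 l4

end basic

end Pool.Agent.Run7.h653.MD
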