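import Pool.Agent.Run7.h653.MD.Half

/-!
Half-graph crossings with paths of length at least two: uniqueness of the representation and twins.
-/

set_option autoImplicit false

namespace Pool.Agent.Run7.h653.MD

open Pool.Agent.W889.VC
open Pool.Agent.W889.VC.Grid
open Set

section uniq

variable {r : ℕ} {x : LGr} {ρ : RH}

/-- rows, columns and first vertices, from the graph -/
def EnH (s : BinStr) (b : ℕ) : Prop := RtH s b ∨ ∃ a, RtH s a ∧ ¬ ClH s a ∧ s a b = true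

theorem GoodH.row_iff (h : GoodH r x ρ) (hg : KG ρ.1) (hr : 2 ≤ r) (a : ℕ) :
    (RtH x.1 a ∧ ¬ ClH x.1 a) ↔ ∃ u, (toG ρ.1).R u ∧ ρ.2 u 1 = a := by
  rw [h.rt_iff hg hr, h.cl_iff hg hr]
  constructor
  · rintro ⟨h1 | h1, h2⟩
    · exact h1
    · exact absurd h1 h2
  · rintro ⟨u, h1, rfl⟩
    refine ⟨Or.inl ⟨u, h1, rfl⟩, ?_⟩
    rintro ⟨v, h2, h3⟩
    have := h.i1 h3
    subst this
    exact hg.b.disj _ h1 h2

theorem GoodH.en_iff (h : GoodH r x ρ) (hg : KG ρ.1) (hr : 2 ≤ r) (b : ℕ) :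
    EnH x.1 b ↔ ∃ u, ρ.2 u 1 = b := by
  constructor
  · rintro (h1 | ⟨a, h1, h2, h3⟩)
    · rcases (h.rt_iff hg hr b).1 h1 with ⟨u, -, h2⟩ | ⟨u, -, h2⟩
      · exact ⟨u, h2⟩
      · exact ⟨u, h2⟩
    · obtain ⟨u, h4, rfl⟩ := (h.row_iff hg hr a).1 ⟨h1, h2⟩
      obtain ⟨p, v, -, -, -, -, h5⟩ := (h.nb_row hg hr h4 b).1 h3
      exact ⟨p, h5⟩
  · rintro ⟨u, rfl⟩
    rcases cases3 (toG ρ.1) u with hu | hu | hu
    · exact Or.inl ((h.rt_iff hg hr _).2 (Or.inl ⟨u, hu, rfl⟩))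
    · exact Or.inl ((h.rt_iff hg hr _).2 (Or.inr ⟨u, hu, rfl⟩))
    · obtain ⟨v, h1, h2, -⟩ := hg.b.rR u hu
      have := (h.row_iff hg hr (ρ.2 v 1)).2 ⟨v, h1, rfl⟩
      exact Or.inr ⟨_, this.1, this.2, (h.nb_row hg hr h1 _).2 ⟨u, v, hu, h1, h2, Or.inl rfl, rfl⟩⟩

theorem GoodH.R_iff (h : GoodH r x ρ) (hg : KG ρ.1) (hr : 2 ≤ r) (u : ℕ) :
    (toG ρ.1).R u ↔ (RtH x.1 (ρ.2 u 1) ∧ ¬ ClH x.1 (ρ.2 u 1)) := by
  rw [h.row_iff hg hr]
  constructor
  · intro h1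
    exact ⟨u, h1, rfl⟩
  · rintro ⟨v, h1, h2⟩
    have := h.i1 h2
    subst this
    exact h1

theorem GoodH.C_iff (h : GoodH r x ρ) (hg : KG ρ.1) (hr : 2 ≤ r) (u : ℕ) :
    (toG ρ.1).C u ↔ ClH x.1 (ρ.2 u 1) := by
  rw [h.cl_iff hg hr]
  constructor
  · intro h1
    exact ⟨u, h1, rfl⟩
  · rintro ⟨v, h1, h2⟩
    have := h.i1 h2
    subst this
    exact h1

theorem GoodH.ltR_iff (h : GoodH r x ρ) (hg : KG ρ.1) (hr : 2 ≤ r) {u v : ℕ}
    (hu : (toG ρ.1).R u) (hv : (toG ρ.1).R v) : (toG ρ.1).lt u v ↔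
      u ≠ v ∧ ∀ b, x.1 (ρ.2 u 1) b = true → x.1 (ρ.2 v 1) b = true := by
  constructor
  · intro h1
    refine ⟨?_, fun b hb => ?_⟩
    · rintro rfl
      exact hg.b.dR.irrefl _ hu h1
    · obtain ⟨p, w, l1, l2, l3, l4, l5⟩ := (h.nb_row hg hr hu _).1 hb
      refine (h.nb_row hg hr hv _).2 ⟨p, w, l1, l2, l3, Or.inr ?_, l5⟩
      rcases l4 with rfl | l4
      · exact h1
      · exact hg.b.dR.trans _ _ _ l2 hu hv l4 h1
  · rintro ⟨h1, h2⟩
    rcases hg.b.dR.total u v hu hv h1 with h3 | h3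
    · exact h3
    · exfalso
      obtain ⟨c, hc⟩ := hg.f.c0
      obtain ⟨q, q1, q2, q3⟩ := hg.f.f u c hu hc
      have := h2 _ ((h.nb_row hg hr hu _).2 ⟨q, u, q1, hu, q2, Or.inl rfl, rfl⟩)
      obtain ⟨p, w, l1, l2, l3, l4, l5⟩ := (h.nb_row hg hr hv _).1 this
      have e := h.i1 l5
      subst e
      obtain ⟨r1, -, -, h1'⟩ := hg.b.rR p l1
      have e : w = u := (h1' w l2 l3).trans (h1' u hu q2).symm
      subst e
      rcases l4 with rfl | l4
      · exact h1 rfl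
      · exact hg.b.dR.irrefl _ hu (hg.b.dR.trans _ _ _ hu hv hu l4 h3)

theorem GoodH.ltC_iff (h : GoodH r x ρ) (hg : KG ρ.1) (hr : 2 ≤ r) {u v : ℕ}
    (hu : (toG ρ.1).C u) (hv : (toG ρ.1).C v) : (toG ρ.1).lt u v ↔
      u ≠ v ∧ ∀ b, x.1 (ρ.2 v 1) b = true → x.1 (ρ.2 u 1) b = true := by
  constructor
  · intro h1
    refine ⟨?_, fun b hb => ?_⟩
    · rintro rfl
      exact hg.b.dC.irrefl _ hu h1
    · obtain ⟨p, w, l1, l2, l3, l4, l5⟩ := (h.nb_col hg hr hv _).1 hb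
      exact (h.nb_col hg hr hu _).2 ⟨p, w, l1, l2, l3, hg.b.dC.trans _ _ _ hu hv l2 h1 l4, l5⟩
  · rintro ⟨h1, h2⟩
    rcases hg.b.dC.total u v hu hv h1 with h3 | h3
    · exact h3
    · exfalso
      obtain ⟨c, hc⟩ := hg.f.r0
      obtain ⟨q, q1, q2, q3⟩ := hg.f.f c u hc hu
      have := h2 _ ((h.nb_col hg hr hv _).2 ⟨q, u, q1, hu, q3, h3, rfl⟩)
      obtain ⟨p, w, l1, l2, l3, l4, l5⟩ := (h.nb_col hg hr hu _).1 this
      have e := (h.iP l1 q1 (by omega) le_rfl (by omega) le_rfl l5).1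
      subst e
      obtain ⟨r1, -, -, h1'⟩ := hg.b.rC p l1
      have e : w = u := (h1' w l2 l3).trans (h1' u hu q3).symm
      subst e
      exact hg.b.dC.irrefl _ hu l4

theorem GoodH.iR_iff (h : GoodH r x ρ) (hg : KG ρ.1) (hr : 2 ≤ r) {p v : ℕ}
    (hp : (toG ρ.1).P p) (hv : (toG ρ.1).R v) : (toG ρ.1).iR p v ↔
      (x.1 (ρ.2 v 1) (ρ.2 p 1) = true ∧
        ∀ v', (toG ρ.1).R v' → x.1 (ρ.2 v' 1) (ρ.2 p 1) = true → v = v' ∨ (toG ρ.1).lt v v') := by
  obtain ⟨w, w1, w2, w3⟩ := hg.b.rR p hp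
  have key : ∀ u, (toG ρ.1).R u → (x.1 (ρ.2 u 1) (ρ.2 p 1) = true ↔ (w = u ∨ (toG ρ.1).lt w u)) := by
    intro u hu
    rw [h.nb_row hg hr hu]
    constructor
    · rintro ⟨q, v', l1, l2, l3, l4, l5⟩
      have e := h.i1 l5
      subst e
      have e := w3 v' l2 l3
      subst e
      exact l4
    · intro h1
      exact ⟨p, w, hp, w1, w2, h1, rfl⟩
  constructor
  · intro h1
    have e := w3 v hv h1
    subst e
    exact ⟨(key v hv).2 (Or.inl rfl), fun v' h2 h3 => (key v' h2).1 h3⟩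
  · rintro ⟨h1, h2⟩
    rcases (key v hv).1 h1 with rfl | h3
    · exact w2
    · exfalso
      rcases h2 w w1 ((key w w1).2 (Or.inl rfl)) with rfl | h4
      · exact hg.b.dR.irrefl _ hv h3
      · exact hg.b.dR.irrefl _ hv (hg.b.dR.trans _ _ _ hv w1 hv h4 h3)

theorem GoodH.iC_iff (h : GoodH r x ρ) (hg : KG ρ.1) (hr : 2 ≤ r) {p v : ℕ}
    (hp : (toG ρ.1).P p) (hv : (toG ρ.1).C v) : (toG ρ.1).iC p v ↔
      ∀ v', (toG ρ.1).C v' → (x.1 (ρ.2 v' 1) (ρ.2 p r) = true ↔ (toG ρ.1).lt v' v) := by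
  obtain ⟨w, w1, w2, w3⟩ := hg.b.rC p hp
  have key : ∀ u, (toG ρ.1).C u → (x.1 (ρ.2 u 1) (ρ.2 p r) = true ↔ (toG ρ.1).lt u w) := by
    intro u hu
    rw [h.nb_col hg hr hu]
    constructor
    · rintro ⟨q, v', l1, l2, l3, l4, l5⟩
      have e := (h.iP l1 hp (by omega) le_rfl (by omega) le_rfl l5).1
      subst e
      have e := w3 v' l2 l3
      subst e
      exact l4
    · intro h1
      exact ⟨p, w, hp, w1, w2, h1, rfl⟩
  constructor
  · intro h1 v' h2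
    have e := w3 v hv h1
    subst e
    exact key v' h2
  · intro h1
    by_cases hne : v = w
    · subst hne
      exact w2
    · exfalso
      rcases hg.b.dC.total v w hv w1 hne with h2 | h2
      · exact hg.b.dC.irrefl _ hv ((h1 v hv).1 ((key v hv).2 h2))
      · exact hg.b.dC.irrefl _ w1 ((key w w1).1 ((h1 w w1).2 h2))

theorem GoodH.uniq (h : GoodH r x ρ) (hg : KG ρ.1) (hr : 2 ≤ r) {x' : LGr} {ρ' : RH}
    (h' : GoodH r x' ρ') (hg' : KG ρ'.1) (hx : x.1 = x'.1) : ρ = ρ' := by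
  have he : ∀ u, ρ.2 u 1 = ρ'.2 u 1 := by
    have := (StrictMono.range_inj (f := fun u => ρ.2 u 1) (g := fun u => ρ'.2 u 1)
      (fun m n hmn => h.mono m n hmn) (fun m n hmn => h'.mono m n hmn)).1 (by
        ext b
        have e1 := h.en_iff hg hr b
        have e2 := h'.en_iff hg' hr b
        rw [hx] at e1
        exact e1.symm.trans e2)
    exact fun u => congrFun this u
  have eR : ∀ u, (toG ρ.1).R u ↔ (toG ρ'.1).R u := by
    intro u
    rw [h.R_iff hg hr, h'.R_iff hg' hr, hx, he]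
  have eC : ∀ u, (toG ρ.1).C u ↔ (toG ρ'.1).C u := by
    intro u
    rw [h.C_iff hg hr, h'.C_iff hg' hr, hx, he]
  have eP : ∀ u, (toG ρ.1).P u ↔ (toG ρ'.1).P u := fun u =>
    and_congr (not_congr (eR u)) (not_congr (eC u))
  have el : ∀ u v, (toG ρ.1).lt u v ↔ (toG ρ'.1).lt u v := by
    have key : ∀ {x x' : LGr} {ρ ρ' : RH}, GoodH r x ρ → KG ρ.1 → GoodH r x' ρ' → KG ρ'.1 →
        x.1 = x'.1 → (∀ u, ρ.2 u 1 = ρ'.2 u 1) → (∀ u, (toG ρ.1).R u ↔ (toG ρ'.1).R u) →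
        (∀ u, (toG ρ.1).C u ↔ (toG ρ'.1).C u) → ∀ u v, (toG ρ.1).lt u v → (toG ρ'.1).lt u v := by
      intro x x' ρ ρ' h hg h' hg' hx he eR eC u v h1
      rcases hg.f.nl _ _ h1 with ⟨h2, h3⟩ | ⟨h2, h3⟩
      · rw [h'.ltR_iff hg' hr ((eR _).1 h2) ((eR _).1 h3), ← hx, ← he, ← he]
        exact (h.ltR_iff hg hr h2 h3).1 h1
      · rw [h'.ltC_iff hg' hr ((eC _).1 h2) ((eC _).1 h3), ← hx, ← he, ← he]
        exact (h.ltC_iff hg hr h2 h3).1 h1
    exact fun u v => ⟨key h hg h' hg' hx he eR eC u v,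
      key h' hg' h hg hx.symm (fun u => (he u).symm) (fun u => (eR u).symm) (fun u => (eC u).symm) u v⟩
  have ew : ∀ p, (toG ρ.1).P p → ∀ k, 1 ≤ k → k ≤ r → ρ.2 p k = ρ'.2 p k := by
    intro p hp
    have key : ∀ k, k + 1 ≤ r → ρ.2 p k = ρ'.2 p k ∧ ρ.2 p (k + 1) = ρ'.2 p (k + 1) ∨
        k = 0 ∧ ρ.2 p (k + 1) = ρ'.2 p (k + 1) := by
      intro k
      induction k with
      | zero => exact fun _ => Or.inr ⟨rfl, he p⟩
      | succ k ih =>
        intro hk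
        have i2 : ρ.2 p (k + 1) = ρ'.2 p (k + 1) := by
          rcases ih (by omega) with i | i
          · exact i.2
          · exact i.2
        refine Or.inl ⟨i2, ?_⟩
        have e1 := h'.step ((eP p).1 hp) (k := k + 1) (by omega) (by omega)
        rw [← hx, ← i2, h.nb_w hr hp (by omega) (by omega)] at e1
        rcases e1 with ⟨-, u, v, l1, -, -, -, l2⟩ | ⟨-, u, v, l1, -, -, -, l2⟩ | ⟨-, l1⟩ | ⟨l1, l2⟩
        · rw [he u] at l2
          exact absurd l2.symm (h'.n1 ((eP p).1 hp) (by omega) hk)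
        · rw [he u] at l2
          exact absurd l2.symm (h'.n1 ((eP p).1 hp) (by omega) hk)
        · exact l1
        · exfalso
          rw [Nat.add_sub_cancel] at l2
          rcases ih (by omega) with i | i
          · rw [i.1] at l2
            have := (h'.iP ((eP p).1 hp) ((eP p).1 hp) (by omega) (by omega) (by omega) (by omega) l2).2
            omega
          · omega
    intro k h1 h2
    obtain ⟨j, rfl⟩ : ∃ j, k = j + 1 := ⟨k - 1, by omega⟩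
    rcases key j (by omega) with i | i
    · exact i.2
    · exact i.2
  have eiR : ∀ p v, (toG ρ.1).iR p v ↔ (toG ρ'.1).iR p v := by
    intro p v
    by_cases h1 : (toG ρ.1).P p ∧ (toG ρ.1).R v
    · rw [h.iR_iff hg hr h1.1 h1.2, h'.iR_iff hg' hr ((eP p).1 h1.1) ((eR v).1 h1.2), ← hx]
      simp only [he, eR, el]
    · constructor
      · intro h2
        exact absurd (hg.f.nR _ _ h2) h1
      · intro h2
        rw [eP, eR] at h1
        exact absurd (hg'.f.nR _ _ h2) h1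
  have eiC : ∀ p v, (toG ρ.1).iC p v ↔ (toG ρ'.1).iC p v := by
    intro p v
    by_cases h1 : (toG ρ.1).P p ∧ (toG ρ.1).C v
    · rw [h.iC_iff hg hr h1.1 h1.2, h'.iC_iff hg' hr ((eP p).1 h1.1) ((eC v).1 h1.2), ← hx]
      simp only [he, eC, el, ew p h1.1 r (by omega) le_rfl]
    · constructor
      · intro h2
        exact absurd (hg.f.nC _ _ h2) h1
      · intro h2
        rw [eP, eC] at h1
        exact absurd (hg'.f.nC _ _ h2) h1
  have eg : ρ.1 = ρ'.1 := by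
    refine Prod.ext (funext fun u => Bool.eq_iff_iff.2 (eR u)) (Prod.ext
      (funext fun u => Bool.eq_iff_iff.2 (eC u)) (Prod.ext
      (funext fun u => funext fun v => Bool.eq_iff_iff.2 (el u v)) (Prod.ext
      (funext fun u => funext fun v => Bool.eq_iff_iff.2 (eiR u v))
      (funext fun u => funext fun v => Bool.eq_iff_iff.2 (eiC u v)))))
  refine Prod.ext eg (funext fun u => funext fun k => ?_)
  by_cases hk : Va r ρ.1 u k
  · rcases hk with rfl | ⟨h1, h2, h3⟩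
    · exact he u
    · exact ew u h1 k (by omega) h3
  · rw [h.junk _ _ hk, h'.junk _ _ (by rw [← eg]; exact hk)]

end uniq

section tw

variable {r : ℕ} {x : LGr} {ρ : RH}

theorem GoodH.lay_eq (h : GoodH r x ρ) (hg : KG ρ.1) (hr : 2 ≤ r) {x' : LGr} {ρ' : RH}
    (h' : GoodH r x' ρ') (hg' : KG ρ'.1) (hx : x.1 = x'.1) : x.2 = x'.2 := by
  have hρ := h.uniq hg hr h' hg' hx
  subst hρ
  funext p
  by_cases hp : Plain x.1 p
  · rw [h.pl p hp, h'.pl p (by rw [← hx]; exact hp)]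
  · rcases h.np hr hp with ⟨u, hu, rfl⟩ | ⟨u, hu, rfl⟩ | ⟨u, k, hu, hk, hk', rfl⟩
    · rw [h.layR _ _ hu rfl, h'.layR _ _ hu rfl]
    · rw [h.layC _ _ hu rfl, h'.layC _ _ hu rfl]
    · rw [h.layP _ _ _ hu hk hk' rfl, h'.layP _ _ _ hu hk hk' rfl]

/-- no path vertex other than the vertices of the same path is a neighbour of a path vertex -/
theorem GoodH.nw (h : GoodH r x ρ) (hr : 2 ≤ r) {p k q l : ℕ} (hp : (toG ρ.1).P p)
    (hk : 1 ≤ k) (hk' : k ≤ r) (hq : (toG ρ.1).P q) (hl : 1 ≤ l) (hl' : l ≤ r) (hne : q ≠ p) :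
    x.1 (ρ.2 p k) (ρ.2 q l) ≠ true := by
  rw [Ne, h.nb_w hr hp hk hk']
  rintro (⟨-, u, v, h1, -, -, -, h2⟩ | ⟨-, u, v, h1, -, -, -, h2⟩ | ⟨h1, h2⟩ | ⟨h1, h2⟩)
  · have := (h.inj _ _ _ _ va1 (vaP hq hl hl') h2).1
    subst this
    exact nRP h1 hq
  · have := (h.inj _ _ _ _ va1 (vaP hq hl hl') h2).1
    subst this
    exact nCP h1 hq
  · exact hne (h.iP hp hq (by omega) h1 hl hl' h2).1.symm
  · exact hne (h.iP hp hq (by omega) (by omega) hl hl' h2).1.symm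

theorem GoodH.tw_row (h : GoodH r x ρ) (hg : KG ρ.1) (hr : 2 ≤ r) {u : ℕ} (hu : (toG ρ.1).R u) :
    {b | Tw x.1 (ρ.2 u 1) b}.Finite := by
  refine (Set.toFinite {ρ.2 u 1}).subset fun b hb => ?_
  by_contra hne
  rw [Set.mem_singleton_iff] at hne
  have nb : ∀ q v, (toG ρ.1).P q → (toG ρ.1).R v → (toG ρ.1).iR q v → (v = u ∨ (toG ρ.1).lt v u) →
      ρ.2 q 1 ≠ b → x.1 b (ρ.2 q 1) = true := by
    intro q v h1 h2 h3 h4 h5
    have h6 : ρ.2 q 1 ≠ ρ.2 u 1 := by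
      intro e
      have := h.i1 e
      subst this
      exact nRP hu h1
    rw [← hb _ h6 h5]
    exact (h.nb_row hg hr hu _).2 ⟨q, v, h1, h2, h3, h4, rfl⟩
  by_cases hp : Plain x.1 b
  · obtain ⟨q, q1, q2, q3⟩ := two_row hg hu 0
    obtain ⟨q', k1, k2, k3⟩ := two_row hg hu q
    by_cases e : ρ.2 q 1 = b
    · have := nb q' u k1 hu k2 (Or.inl rfl) (fun e' => k3 (h.i1 (e'.trans e.symm)))
      rw [hp] at this
      exact absurd this (by decide)
    · have := nb q u q1 hu q2 (Or.inl rfl) e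
      rw [hp] at this
      exact absurd this (by decide)
  rcases h.np hr hp with ⟨u', hu', rfl⟩ | ⟨u', hu', rfl⟩ | ⟨p, k, hp1, hk, hk', rfl⟩
  · have hne' : u ≠ u' := fun e => hne (by rw [e])
    rcases hg.b.dR.total u u' hu hu' hne' with hl | hl
    · obtain ⟨c, hc⟩ := hg.f.c0
      obtain ⟨q, q1, q2, q3⟩ := hg.f.f u' c hu' hc
      have e1 : x.1 (ρ.2 u' 1) (ρ.2 q 1) = true :=
        (h.nb_row hg hr hu' _).2 ⟨q, u', q1, hu', q2, Or.inl rfl, rfl⟩
      have e2 : x.1 (ρ.2 u 1) (ρ.2 q 1) = true := by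
        rw [hb _ (fun e => nRP hu (by rw [← h.i1 e]; exact q1))
          (fun e => nRP hu' (by rw [← h.i1 e]; exact q1))]
        exact e1
      obtain ⟨q', w, m1, m2, m3, m4, m5⟩ := (h.nb_row hg hr hu _).1 e2
      have e := h.i1 m5
      subst e
      obtain ⟨r1, -, -, h1'⟩ := hg.b.rR q' m1
      have e : w = u' := (h1' w m2 m3).trans (h1' u' hu' q2).symm
      subst e
      rcases m4 with rfl | m4
      · exact hne' rfl
      · exact hg.b.dR.irrefl _ hu (hg.b.dR.trans _ _ _ hu m2 hu hl m4)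
    · obtain ⟨c, hc⟩ := hg.f.c0
      obtain ⟨q, q1, q2, q3⟩ := hg.f.f u c hu hc
      have e1 := nb q u q1 hu q2 (Or.inl rfl) (fun e => nRP hu' (by rw [← h.i1 e]; exact q1))
      obtain ⟨q', w, m1, m2, m3, m4, m5⟩ := (h.nb_row hg hr hu' _).1 e1
      have e := h.i1 m5
      subst e
      obtain ⟨r1, -, -, h1'⟩ := hg.b.rR q' m1
      have e : w = u := (h1' w m2 m3).trans (h1' u hu q2).symm
      subst e
      rcases m4 with rfl | m4
      · exact hne' rfl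
      · exact hg.b.dR.irrefl _ hu (hg.b.dR.trans _ _ _ hu hu' hu m4 hl)
  · obtain ⟨q, q1, q2, q3⟩ := two_row hg hu 0
    have e1 := nb q u q1 hu q2 (Or.inl rfl) (fun e => nCP hu' (by rw [← h.i1 e]; exact q1))
    obtain ⟨q', w, m1, m2, m3, m4, m5⟩ := (h.nb_col hg hr hu' _).1 e1
    exact h.n1 m1 hr le_rfl m5
  · obtain ⟨q, q1, q2, q3⟩ := two_row hg hu p
    have hne2 : ρ.2 q 1 ≠ ρ.2 p k := fun e =>
      q3 (h.iP q1 hp1 le_rfl (by omega) hk hk' e).1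
    exact h.nw hr hp1 hk hk' q1 le_rfl (by omega) q3 (nb q u q1 hu q2 (Or.inl rfl) hne2)

theorem GoodH.tw_col (h : GoodH r x ρ) (hg : KG ρ.1) (hr : 2 ≤ r) {u : ℕ} (hu : (toG ρ.1).C u) :
    {b | Tw x.1 (ρ.2 u 1) b}.Finite := by
  refine (Set.toFinite {ρ.2 u 1}).subset fun b hb => ?_
  by_contra hne
  rw [Set.mem_singleton_iff] at hne
  have nb : ∀ q v, (toG ρ.1).P q → (toG ρ.1).C v → (toG ρ.1).iC q v → (toG ρ.1).lt u v →
      ρ.2 q r ≠ b → x.1 b (ρ.2 q r) = true := by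
    intro q v h1 h2 h3 h4 h5
    rw [← hb _ (h.n1 h1 hr le_rfl) h5]
    exact (h.nb_col hg hr hu _).2 ⟨q, v, h1, h2, h3, h4, rfl⟩
  obtain ⟨v, hv, huv⟩ := hg.b.dC.above u hu
  by_cases hp : Plain x.1 b
  · obtain ⟨q, q1, q2, q3⟩ := two_col hg hv 0
    obtain ⟨q', k1, k2, k3⟩ := two_col hg hv q
    by_cases e : ρ.2 q r = b
    · have := nb q' v k1 hv k2 huv (fun e' => k3 (h.iP k1 q1 (by omega) le_rfl (by omega) le_rfl
        (e'.trans e.symm)).1)
      rw [hp] at this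
      exact absurd this (by decide)
    · have := nb q v q1 hv q2 huv e
      rw [hp] at this
      exact absurd this (by decide)
  rcases h.np hr hp with ⟨u', hu', rfl⟩ | ⟨u', hu', rfl⟩ | ⟨p, k, hp1, hk, hk', rfl⟩
  · obtain ⟨q, q1, q2, q3⟩ := two_col hg hv 0
    have e1 := nb q v q1 hv q2 huv (h.n1 q1 hr le_rfl)
    obtain ⟨q', w, m1, m2, m3, m4, m5⟩ := (h.nb_row hg hr hu' _).1 e1
    exact h.n1 q1 hr le_rfl m5.symm
  · have hne' : u ≠ u' := fun e => hne (by rw [e])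
    obtain ⟨c, hc⟩ := hg.f.r0
    rcases hg.b.dC.total u u' hu hu' hne' with hl | hl
    · obtain ⟨q, q1, q2, q3⟩ := hg.f.f c u' hc hu'
      have e1 := nb q u' q1 hu' q3 hl (h.n1 q1 hr le_rfl)
      obtain ⟨q', w, m1, m2, m3, m4, m5⟩ := (h.nb_col hg hr hu' _).1 e1
      have e := (h.iP m1 q1 (by omega) le_rfl (by omega) le_rfl m5).1
      subst e
      obtain ⟨r1, -, -, h1'⟩ := hg.b.rC q' m1
      have e : w = u' := (h1' w m2 m3).trans (h1' u' hu' q3).symm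
      subst e
      exact hg.b.dC.irrefl _ hu' m4
    · obtain ⟨q, q1, q2, q3⟩ := hg.f.f c u hc hu
      have e1 : x.1 (ρ.2 u' 1) (ρ.2 q r) = true :=
        (h.nb_col hg hr hu' _).2 ⟨q, u, q1, hu, q3, hl, rfl⟩
      have e2 : x.1 (ρ.2 u 1) (ρ.2 q r) = true := by
        rw [hb _ (h.n1 q1 hr le_rfl) (h.n1 q1 hr le_rfl)]
        exact e1
      obtain ⟨q', w, m1, m2, m3, m4, m5⟩ := (h.nb_col hg hr hu _).1 e2
      have e := (h.iP m1 q1 (by omega) le_rfl (by omega) le_rfl m5).1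
      subst e
      obtain ⟨r1, -, -, h1'⟩ := hg.b.rC q' m1
      have e : w = u := (h1' w m2 m3).trans (h1' u hu q3).symm
      subst e
      exact hg.b.dC.irrefl _ hu m4
  · obtain ⟨q, q1, q2, q3⟩ := two_col hg hv p
    have hne2 : ρ.2 q r ≠ ρ.2 p k := fun e =>
      q3 (h.iP q1 hp1 (by omega) le_rfl hk hk' e).1
    exact h.nw hr hp1 hk hk' q1 (by omega) le_rfl q3 (nb q v q1 hv q2 huv hne2)

theorem GoodH.tw_path (h : GoodH r x ρ) (hg : KG ρ.1) (hr : 2 ≤ r) {p k : ℕ}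
    (hp : (toG ρ.1).P p) (hk : 1 ≤ k) (hk' : k ≤ r) : {b | Tw x.1 (ρ.2 p k) b}.Finite := by
  by_cases hk1 : k = 1
  · subst hk1
    refine (Set.toFinite {ρ.2 p 1, ρ.2 p 2, ρ.2 p 3}).subset fun b hb => ?_
    by_contra hne
    simp only [Set.mem_insert_iff, Set.mem_singleton_iff, not_or] at hne
    obtain ⟨n1, n2, n3⟩ := hne
    have e1 := h.step hp (k := 1) le_rfl (by omega)
    have e2 : x.1 b (ρ.2 p 2) = true := by
      rw [← hb (ρ.2 p 2) (h.n1 hp le_rfl hr) (fun e => n2 e.symm)]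
      exact e1
    rw [h.symm, h.nb_w hr hp (by omega) hr] at e2
    rcases e2 with ⟨m1, -⟩ | ⟨m1, u, v, m2, m3, m4, m5, rfl⟩ | ⟨m1, m2⟩ | ⟨m1, m2⟩
    · omega
    · obtain ⟨w, w1, w2, -⟩ := hg.b.rR p hp
      have e3 : x.1 (ρ.2 p 1) (ρ.2 w 1) = true := by
        rw [h.symm]
        exact (h.nb_row hg hr w1 _).2 ⟨p, w, hp, w1, w2, Or.inl rfl, rfl⟩
      rw [hb _ (fun e => nRP w1 (by rw [h.i1 e]; exact hp))
        (fun e => hg.b.disj _ w1 (by rw [h.i1 e]; exact m2))] at e3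
      obtain ⟨q', w', l1, l2, l3, l4, l5⟩ := (h.nb_col hg hr m2 _).1 e3
      exact h.n1 l1 hr le_rfl l5
    · exact n3 m2.symm
    · exact n1 m2.symm
  · refine (Set.toFinite {ρ.2 p (k - 1), ρ.2 p k, ρ.2 p (k - 1 - 1)}).subset fun b hb => ?_
    by_contra hne
    simp only [Set.mem_insert_iff, Set.mem_singleton_iff, not_or] at hne
    obtain ⟨n1, n2, n3⟩ := hne
    have e1 := h.step hp (k := k - 1) (by omega) (by omega)
    rw [Nat.sub_add_cancel hk, h.symm] at e1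
    have n4 : ρ.2 p (k - 1) ≠ ρ.2 p k := fun e => by
      have := (h.iP hp hp (by omega) (by omega) hk hk' e).2
      omega
    have e2 : x.1 b (ρ.2 p (k - 1)) = true := by
      rw [← hb _ n4 (fun e => n1 e.symm)]
      exact e1
    rw [h.symm, h.nb_w hr hp (by omega) (by omega)] at e2
    rcases e2 with ⟨m1, u, v, m2, m3, m4, m5, rfl⟩ | ⟨m1, -⟩ | ⟨m1, m2⟩ | ⟨m1, m2⟩
    · obtain ⟨q, q1, q2, q3⟩ := two_row hg m2 p
      have e3 : x.1 (ρ.2 u 1) (ρ.2 q 1) = true :=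
        (h.nb_row hg hr m2 _).2 ⟨q, u, q1, m2, q2, Or.inl rfl, rfl⟩
      rw [← hb _ (fun e => q3 (h.iP q1 hp le_rfl (by omega) hk hk' e).1)
        (fun e => nRP m2 (by rw [← h.i1 e]; exact q1))] at e3
      exact h.nw hr hp hk hk' q1 le_rfl (by omega) q3 e3
    · omega
    · rw [Nat.sub_add_cancel hk] at m2
      exact n2 m2.symm
    · exact n3 m2.symm

theorem GoodH.lays (h : GoodH r x ρ) (hg : KG ρ.1) (hr : 2 ≤ r) : Lay (r + 2) x where
  irr a := by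
    by_contra ha
    have ha' : x.1 a a = true := by simpa using ha
    have hp : ¬ Plain x.1 a := by
      intro hp
      rw [hp a] at ha'
      exact absurd ha' (by decide)
    rcases h.np hr hp with ⟨u, hu, rfl⟩ | ⟨u, hu, rfl⟩ | ⟨u, k, hu, hk, hk', rfl⟩
    · obtain ⟨q, v, l1, l2, l3, l4, l5⟩ := (h.nb_row hg hr hu _).1 ha'
      have := h.i1 l5
      subst this
      exact nRP hu l1
    · obtain ⟨q, v, l1, l2, l3, l4, l5⟩ := (h.nb_col hg hr hu _).1 ha'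
      exact h.n1 l1 hr le_rfl l5
    · rcases (h.nb_w hr hu hk hk' _).1 ha' with ⟨-, v, w, h1, -, -, -, h2⟩ |
        ⟨-, v, w, h1, -, -, -, h2⟩ | ⟨h1, h2⟩ | ⟨h1, h2⟩
      · have := (h.inj _ _ _ _ va1 (vaP hu hk hk') h2).1
        subst this
        exact nRP h1 hu
      · have := (h.inj _ _ _ _ va1 (vaP hu hk hk') h2).1
        subst this
        exact nCP h1 hu
      · have := (h.iP hu hu (by omega) (by omega) hk hk' h2).2
        omega
      · have := (h.iP hu hu (by omega) (by omega) hk hk' h2).2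
        omega
  symm := h.symm
  lt a := by
    by_cases hp : Plain x.1 a
    · rw [h.pl a hp]
      omega
    · rcases h.np hr hp with ⟨u, hu, rfl⟩ | ⟨u, hu, rfl⟩ | ⟨u, k, hu, hk, hk', rfl⟩
      · rw [h.layR _ _ hu rfl]
        omega
      · rw [h.layC _ _ hu rfl]
        omega
      · rw [h.layP _ _ _ hu hk hk' rfl]
        omega
  tw a hp := by
    rcases h.np hr hp with ⟨u, hu, rfl⟩ | ⟨u, hu, rfl⟩ | ⟨u, k, hu, hk, hk', rfl⟩
    · exact h.tw_row hg hr hu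
    · exact h.tw_col hg hr hu
    · exact h.tw_path hg hr hu hk hk'
  occ k hk := by
    obtain ⟨u, hu⟩ := hg.f.r0
    obtain ⟨c, hc⟩ := hg.f.c0
    obtain ⟨q, q1, q2, q3⟩ := hg.f.f u c hu hc
    obtain ⟨c', hc', hlt⟩ := hg.b.dC.above c hc
    obtain ⟨q', k1, k2, k3⟩ := hg.f.f u c' hu hc'
    have np : ∀ {a b}, x.1 a b = true → ¬ Plain x.1 a := by
      intro a b h1 h2
      rw [h2 b] at h1
      exact absurd h1 (by decide)
    rcases Nat.eq_zero_or_pos k with h1 | h1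
    · subst h1
      exact ⟨ρ.2 u 1, np ((h.nb_row hg hr hu _).2 ⟨q, u, q1, hu, q2, Or.inl rfl, rfl⟩),
        h.layR _ _ hu rfl⟩
    · by_cases h2 : k = r + 1
      · subst h2
        exact ⟨ρ.2 c 1, np ((h.nb_col hg hr hc _).2 ⟨q', c', k1, hc', k3, hlt, rfl⟩),
          h.layC _ _ hc rfl⟩
      · refine ⟨ρ.2 q k, ?_, h.layP _ _ _ q1 h1 (by omega) rfl⟩
        by_cases h3 : k = r
        · have e1 := h.step q1 (k := k - 1) (by omega) (by omega)
          rw [Nat.sub_add_cancel h1, h.symm] at e1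
          exact np e1
        · exact np (h.step q1 h1 (by omega))
  inf := by
    intro hfin
    obtain ⟨M, hM⟩ := hfin.bddAbove
    obtain ⟨t, h1, h2⟩ := h.inf (M + 1)
    have := hM (show t ∈ {t | Plain x.1 t} from h2)
    omega
  pl := h.pl

end tw

end Pool.Agent.Run7.h653.MD
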