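import Pool.Agent.Run7.h653.MD.Sub2

/-!
Subdivisions, and line graphs of subdivisions, are faithfully complete as layered graphs: existence,
measurability and the final statement.
-/

set_option autoImplicit false

namespace Pool.Agent.Run7.h653.MD

open Pool.Agent.W889.VC
open Set

/-- the paths -/
def wS (N : ℕ) (z : BinStr) (u v k : ℕ) : ℕ :=
  if z u v = true ∧ k ≤ N + 1 then
    (if k = 0 then 2 * u else if k = N + 1 then 2 * v else
      if u < v then 4 * Nat.pair (Nat.pair u v) k + 1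
      else 4 * Nat.pair (Nat.pair v u) (N + 1 - k) + 1)
  else 0

theorem wS_zero {N : ℕ} {z : BinStr} {u v : ℕ} (h : z u v = true) : wS N z u v 0 = 2 * u := by
  simp [wS, h]

theorem wS_last {N : ℕ} {z : BinStr} {u v : ℕ} (h : z u v = true) : wS N z u v (N + 1) = 2 * v := by
  simp [wS, h]

theorem wS_mid {N : ℕ} {z : BinStr} {u v k : ℕ} (h : z u v = true) (hk : 1 ≤ k) (hk' : k ≤ N) :
    wS N z u v k = if u < v then 4 * Nat.pair (Nat.pair u v) k + 1
      else 4 * Nat.pair (Nat.pair v u) (N + 1 - k) + 1 := by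
  unfold wS
  rw [if_pos ⟨h, by omega⟩, if_neg (by omega), if_neg (by omega)]

theorem preS_ex {N : ℕ} {z : BinStr} (hz : K0 z) : PreS N (z, (fun n => 2 * n), wS N z) where
  mono m n h := by
    show 2 * m < 2 * n
    omega
  w0 u v h := wS_zero h
  rev u v k h hk := by
    show wS N z v u (N + 1 - k) = wS N z u v k
    have h' := hz.symm _ _ h
    have hne : u ≠ v := fun e => hz.irr v (by rw [e] at h; exact h)
    rcases Nat.eq_zero_or_pos k with h1 | h1
    · subst h1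
      rw [Nat.sub_zero, wS_last h', wS_zero h]
    · by_cases h2 : k = N + 1
      · subst h2
        rw [Nat.sub_self, wS_last h, wS_zero h']
      · rw [wS_mid h' (by omega) (by omega), wS_mid h h1 (by omega)]
        rcases Nat.lt_or_ge u v with h3 | h3
        · rw [if_neg (by omega), if_pos h3, show N + 1 - (N + 1 - k) = k by omega]
        · rw [if_pos (by omega), if_neg (by omega)]
  inj u v k u' v' k' h h' h1 h2 h3 h4 e := by
    have e' : wS N z u v k = wS N z u' v' k' := e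
    rw [wS_mid h h1 h2, wS_mid h' h3 h4] at e'
    split_ifs at e' with h5 h6 h6
    · have := Nat.pair_eq_pair.1 (show Nat.pair (Nat.pair u v) k = Nat.pair (Nat.pair u' v') k' by omega)
      have h7 := Nat.pair_eq_pair.1 this.1
      exact Or.inl ⟨h7.1, h7.2, this.2⟩
    · have := Nat.pair_eq_pair.1
        (show Nat.pair (Nat.pair u v) k = Nat.pair (Nat.pair v' u') (N + 1 - k') by omega)
      have h7 := Nat.pair_eq_pair.1 this.1
      exact Or.inr ⟨h7.1, h7.2, by omega⟩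
    · have := Nat.pair_eq_pair.1
        (show Nat.pair (Nat.pair v u) (N + 1 - k) = Nat.pair (Nat.pair u' v') k' by omega)
      have h7 := Nat.pair_eq_pair.1 this.1
      exact Or.inr ⟨h7.2, h7.1, this.2.symm⟩
    · have := Nat.pair_eq_pair.1
        (show Nat.pair (Nat.pair v u) (N + 1 - k) = Nat.pair (Nat.pair v' u') (N + 1 - k') by omega)
      have h7 := Nat.pair_eq_pair.1 this.1
      exact Or.inl ⟨h7.2, h7.1, by omega⟩
  nr u v k n h h1 h2 := by
    show wS N z u v k ≠ 2 * n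
    rw [wS_mid h h1 h2]
    split_ifs <;> omega
  junk u v k h := if_neg h

theorem wS_val {N : ℕ} {z : BinStr} {u v k n : ℕ} (h : z u v = true) (hk : k ≤ N + 1) :
    wS N z u v k ≠ 4 * n + 3 := by
  rcases Nat.eq_zero_or_pos k with h1 | h1
  · subst h1
    rw [wS_zero h]
    omega
  · by_cases h2 : k = N + 1
    · subst h2
      rw [wS_last h]
      omega
    · rw [wS_mid h h1 (by omega)]
      split_ifs <;> omega

theorem goodS_ex {N : ℕ} {c : Prop} {z : BinStr} (hz : K0 z) (hN : 2 ≤ N) :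
    ∃ (x : LGr) (ρ : RS), GoodS N c x ρ ∧ ρ.1 = z := by
  classical
  let ρ : RS := (z, (fun n => 2 * n), wS N z)
  have hp : PreS N ρ := preS_ex hz
  have hz' : K0 ρ.1 := hz
  let s : BinStr := fun p q => decide (
    (∃ u v k, ρ.1 u v = true ∧ k ≤ N ∧ ρ.2.2 u v k = p ∧ ρ.2.2 u v (k + 1) = q) ∨
    (c ∧ ∃ u v v', ρ.1 u v = true ∧ ρ.1 u v' = true ∧ v ≠ v' ∧ ρ.2.2 u v 1 = p ∧ ρ.2.2 u v' 1 = q))
  let l : ℕ → ℕ := fun n => if h0 : ∃ q : ℕ × ℕ × ℕ, ρ.1 q.1 q.2.1 = true ∧ q.2.2 ≤ N + 1 ∧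
    ρ.2.2 q.1 q.2.1 q.2.2 = n then min h0.choose.2.2 (N + 1 - h0.choose.2.2) else 0
  have hadj : ∀ p q, s p q = true ↔
    (∃ u v k, ρ.1 u v = true ∧ k ≤ N ∧ ρ.2.2 u v k = p ∧ ρ.2.2 u v (k + 1) = q) ∨
    (c ∧ ∃ u v v', ρ.1 u v = true ∧ ρ.1 u v' = true ∧ v ≠ v' ∧ ρ.2.2 u v 1 = p ∧
      ρ.2.2 u v' 1 = q) := fun p q => decide_eq_true_iff
  refine ⟨(s, l), ρ, ⟨hp.mono, hp.w0, hp.rev, hp.inj, hp.nr, hp.junk, hadj, ?_, ?_, ?_⟩, rfl⟩
  · rintro u v k n h1 h2 rfl
    have h0 : ∃ q : ℕ × ℕ × ℕ, ρ.1 q.1 q.2.1 = true ∧ q.2.2 ≤ N + 1 ∧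
      ρ.2.2 q.1 q.2.1 q.2.2 = ρ.2.2 u v k := ⟨(u, v, k), h1, h2, rfl⟩
    have e : l (ρ.2.2 u v k) = min h0.choose.2.2 (N + 1 - h0.choose.2.2) := dif_pos h0
    show l (ρ.2.2 u v k) = _
    rw [e]
    obtain ⟨k1, k2, k3⟩ := h0.choose_spec
    rw [hp.weq hz' k1 h1 k2 h2] at k3
    unfold Eqv at k3
    omega
  · intro t ht
    refine dif_neg ?_
    rintro ⟨⟨u, v, k⟩, h1, h2, h3⟩
    have h1' : ρ.1 u v = true := h1
    have h2' : k ≤ N + 1 := h2
    have h3' : ρ.2.2 u v k = t := h3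
    rcases Nat.lt_or_ge k (N + 1) with h4 | h4
    · have := (hadj t (ρ.2.2 u v (k + 1))).2 (Or.inl ⟨u, v, k, h1', by omega, h3', rfl⟩)
      have e := ht (ρ.2.2 u v (k + 1))
      rw [show s t (ρ.2.2 u v (k + 1)) = false from e] at this
      exact absurd this (by decide)
    · have h5 := hz.symm _ _ h1'
      have e1 : ρ.2.2 v u 0 = t := by
        rw [← h3']
        have := hp.rev u v k h1' h2'
        rwa [show N + 1 - k = 0 by omega] at this
      have := (hadj t (ρ.2.2 v u 1)).2 (Or.inl ⟨v, u, 0, h5, by omega, e1, rfl⟩)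
      have e := ht (ρ.2.2 v u 1)
      rw [show s t (ρ.2.2 v u 1) = false from e] at this
      exact absurd this (by decide)
  · intro n
    refine ⟨4 * n + 3, by omega, fun q => ?_⟩
    by_contra hq
    have hq' : s (4 * n + 3) q = true := by simpa using hq
    rw [hadj] at hq'
    rcases hq' with ⟨u, v, k, h1, h2, h3, h4⟩ | ⟨hc, u, v, v', h1, h2, h3, h4, h5⟩
    · exact wS_val h1 (by omega) h3
    · exact wS_val h1 (by omega) h4

theorem bp_goodS (N : ℕ) (c : Prop) : BP (fun p : LGr × RS => GoodS N c p.1 p.2) := by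
  have ms : Measurable (fun p : LGr × RS => p.1.1) := measurable_fst.comp measurable_fst
  have ml : Measurable (fun p : LGr × RS => p.1.2) := measurable_snd.comp measurable_fst
  have mz : Measurable (fun p : LGr × RS => p.2.1) := measurable_fst.comp measurable_snd
  have ma : Measurable (fun p : LGr × RS => p.2.2.1) :=
    measurable_fst.comp (measurable_snd.comp measurable_snd)
  have mw0 : Measurable (fun p : LGr × RS => p.2.2.2) :=
    measurable_snd.comp (measurable_snd.comp measurable_snd)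
  have mw : ∀ u v k, Measurable (fun p : LGr × RS => p.2.2.2 u v k) := fun u v k =>
    (measurable_pi_apply k).comp ((measurable_pi_apply v).comp ((measurable_pi_apply u).comp mw0))
  have bz : ∀ u v, BP (fun p : LGr × RS => p.2.1 u v = true) := fun u v =>
    bp_of (meas1 mz u v) (fun b => b = true)
  have bw : ∀ u v k n, BP (fun p : LGr × RS => p.2.2.2 u v k = n) := fun u v k n =>
    bp_of (mw u v k) (fun b => b = n)
  have : BP (fun p : LGr × RS =>
    (∀ m n, m < n → p.2.2.1 m < p.2.2.1 n) ∧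
    (∀ u v, p.2.1 u v = true → p.2.2.2 u v 0 = p.2.2.1 u) ∧
    (∀ u v k, p.2.1 u v = true → k ≤ N + 1 → p.2.2.2 v u (N + 1 - k) = p.2.2.2 u v k) ∧
    (∀ u v k u' v' k', p.2.1 u v = true → p.2.1 u' v' = true → 1 ≤ k → k ≤ N → 1 ≤ k' → k' ≤ N →
      p.2.2.2 u v k = p.2.2.2 u' v' k' →
      (u = u' ∧ v = v' ∧ k = k') ∨ (u = v' ∧ v = u' ∧ k' = N + 1 - k)) ∧
    (∀ u v k n, p.2.1 u v = true → 1 ≤ k → k ≤ N → ¬ p.2.2.2 u v k = p.2.2.1 n) ∧
    (∀ u v k, ¬ (p.2.1 u v = true ∧ k ≤ N + 1) → p.2.2.2 u v k = 0) ∧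
    (∀ r q, p.1.1 r q = true ↔
      (∃ u v k, p.2.1 u v = true ∧ k ≤ N ∧ p.2.2.2 u v k = r ∧ p.2.2.2 u v (k + 1) = q) ∨
      (c ∧ ∃ u v v', p.2.1 u v = true ∧ p.2.1 u v' = true ∧ v ≠ v' ∧ p.2.2.2 u v 1 = r ∧
        p.2.2.2 u v' 1 = q)) ∧
    (∀ u v k n, p.2.1 u v = true → k ≤ N + 1 → p.2.2.2 u v k = n → p.1.2 n = min k (N + 1 - k)) ∧
    (∀ t, Plain p.1.1 t → p.1.2 t = 0) ∧
    (∀ n, ∃ t, n ≤ t ∧ Plain p.1.1 t)) :=
    (BP.all fun m => BP.all fun n => (BP.const (m < n)).imp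
      (measurableSet_lt (meas2 ma m) (meas2 ma n))).and <|
    (BP.all fun u => BP.all fun v => (bz u v).imp
      (measurableSet_eq_fun (mw u v 0) (meas2 ma u))).and <|
    (BP.all fun u => BP.all fun v => BP.all fun k => (bz u v).imp <| (BP.const (k ≤ N + 1)).imp
      (measurableSet_eq_fun (mw v u (N + 1 - k)) (mw u v k))).and <|
    (BP.all fun u => BP.all fun v => BP.all fun k => BP.all fun u' => BP.all fun v' =>
      BP.all fun k' => (bz u v).imp <| (bz u' v').imp <| (BP.const (1 ≤ k)).imp <|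
      (BP.const (k ≤ N)).imp <| (BP.const (1 ≤ k')).imp <| (BP.const (k' ≤ N)).imp <|
      BP.imp (p := fun p : LGr × RS => p.2.2.2 u v k = p.2.2.2 u' v' k')
        (measurableSet_eq_fun (mw u v k) (mw u' v' k')) (BP.const _)).and <|
    (BP.all fun u => BP.all fun v => BP.all fun k => BP.all fun n => (bz u v).imp <|
      (BP.const (1 ≤ k)).imp <| (BP.const (k ≤ N)).imp <|
      BP.not (p := fun p : LGr × RS => p.2.2.2 u v k = p.2.2.1 n)
        (measurableSet_eq_fun (mw u v k) (meas2 ma n))).and <|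
    (BP.all fun u => BP.all fun v => BP.all fun k => ((bz u v).and (BP.const (k ≤ N + 1))).not.imp
      (bw u v k 0)).and <|
    (BP.all fun r => BP.all fun q => (bp_of (meas1 ms r q) (fun b => b = true)).iff <|
      (BP.ex fun u => BP.ex fun v => BP.ex fun k => (bz u v).and <| (BP.const (k ≤ N)).and <|
        (bw u v k r).and (bw u v (k + 1) q)).or <|
      (BP.const c).and <| BP.ex fun u => BP.ex fun v => BP.ex fun v' => (bz u v).and <|
        (bz u v').and <| (BP.const (v ≠ v')).and <| (bw u v 1 r).and (bw u v' 1 q)).and <|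
    (BP.all fun u => BP.all fun v => BP.all fun k => BP.all fun n => (bz u v).imp <|
      (BP.const (k ≤ N + 1)).imp <| (bw u v k n).imp
        (bp_of (meas2 ml n) (fun b => b = min k (N + 1 - k)))).and <|
    (BP.all fun t => (bp_plain ms t).imp (bp_of (meas2 ml t) (fun b => b = 0))).and
    (BP.all fun n => BP.ex fun t => (BP.const (n ≤ t)).and (bp_plain ms t))
  exact this.congr fun y => ⟨fun ⟨h1, h2, h3, h4, h5, h6, h7, h8, h9, h10⟩ =>
    ⟨h1, h2, h3, h4, h5, h6, h7, h8, h9, h10⟩, fun ⟨h1, h2, h3, h4, h5, h6, h7, h8, h9, h10⟩ =>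
    ⟨h1, h2, h3, h4, h5, h6, h7, h8, h9, h10⟩⟩

theorem LIso.symm {x y : LGr} (h : LIso x y) : LIso y x := by
  obtain ⟨σ, h1, h2⟩ := h
  refine ⟨σ.symm, fun m n => ?_, fun u => ?_⟩
  · rw [← h1, σ.apply_symm_apply, σ.apply_symm_apply]
  · rw [← h2, σ.apply_symm_apply]

/-- layered graphs of this kind -/
def KS (N : ℕ) (c : Prop) (x : LGr) : Prop := ∃ ρ, GoodS N c x ρ ∧ K0 ρ.1

theorem faithful_S0 {N : ℕ} {c : Prop} (hN : 2 ≤ N) (h0 : Faithful BIso K0) :
    Faithful LIso (KS N c) := by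
  refine faithful_rep h0 (GoodS N c) (bp_goodS N c) (fun ρ => ρ.1) measurable_fst
    (fun _ _ h => h.symm) ?_ ?_ ?_ ?_ ?_
  · intro x ρ ρ' h h' hz hz'
    exact h.uniq hz hN h' hz' rfl
  · intro x x' ρ hi h hz
    exact h.equi hz hi
  · intro x x' ρ ρ' h h' hz hz' hi
    exact h.iso hz h' hz' hN hi
  · intro z hz
    obtain ⟨x, ρ, h1, h2⟩ := goodS_ex (c := c) hz hN
    refine ⟨x, ρ, h1, ?_⟩
    rw [h2]
    exact ⟨1, fun _ _ => rfl⟩
  · intro x ρ h hz
    exact ⟨ρ, h, hz⟩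

/-- **Flips of subdivisions and of line graphs of subdivisions.** -/
theorem faithful_S {N : ℕ} {c : Prop} (hN : 2 ≤ N) (hpar : c → Even N)
    (f : ℕ → ℕ → Bool) (hf : ∀ i j, f i j = f j i) {K' : BinStr → Prop}
    (hK' : ∀ (s : BinStr) (μ : ℕ → ℕ), KS N c (dec0 (s, μ)) → (∀ u, μ u < (N + 1) / 2 + 1) →
      K' (flip f s μ)) : Faithful BIso K' := by
  refine faithful_flip (faithful_S0 (c := c) hN faithful_K0) ((N + 1) / 2 + 1) ?_ ?_ f hf hK'
  · rintro x ⟨ρ, h, hz⟩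
    exact h.lays hz hN hpar
  · rintro s l l' ⟨ρ, h, hz⟩ ⟨ρ', h', hz'⟩
    exact h.lay_eq hz hN h' hz' rfl

end Pool.Agent.Run7.h653.MD
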