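import Pool.Agent.Run7.h653.MD.Half2
import Pool.Agent.Run7.h653.MD.Sub3

/-!
Half-graph crossings with paths of length at least two are faithfully complete as layered graphs.
-/

set_option autoImplicit false

namespace Pool.Agent.Run7.h653.MD

open Pool.Agent.W889.VC
open Pool.Agent.W889.VC.Grid
open Set

section main

variable {r : ℕ}

theorem GoodH.infP {x : LGr} {ρ : RH} (h : GoodH r x ρ) : {t | Plain x.1 t}.Infinite := by
  intro hfin
  obtain ⟨M, hM⟩ := hfin.bddAbove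
  obtain ⟨t, h1, h2⟩ := h.inf (M + 1)
  have := hM (show t ∈ {t | Plain x.1 t} from h2)
  omega

theorem HE.map {ρ ρ' : RH} {τ σ : Equiv.Perm ℕ} (m : GM τ (toG ρ.1) (toG ρ'.1))
    (hw : ∀ u k, Va r ρ.1 u k → ρ'.2 (τ u) k = σ (ρ.2 u k)) (hr : 1 ≤ r) {a b : ℕ}
    (h : HE r ρ a b) : HE r ρ' (σ a) (σ b) := by
  rcases h with ⟨u, q, v, h1, h2, h3, h4, h5, h6, h7⟩ | ⟨u, q, v, h1, h2, h3, h4, h5, h6, h7⟩ |
      ⟨q, l, h1, h2, h3, h4, h5⟩
  · refine Or.inl ⟨τ u, τ q, τ v, (m.R u).2 h1, (m.P q).2 h2, (m.R v).2 h3, (m.iR q v).2 h4, ?_,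
      ?_, ?_⟩
    · rcases h5 with rfl | h5
      · exact Or.inl rfl
      · exact Or.inr ((m.lt _ _).2 h5)
    · rw [hw _ _ va1, h6]
    · rw [hw _ _ va1, h7]
  · refine Or.inr (Or.inl ⟨τ u, τ q, τ v, (m.C u).2 h1, (m.P q).2 h2, (m.C v).2 h3, (m.iC q v).2 h4,
      (m.lt _ _).2 h5, ?_, ?_⟩)
    · rw [hw _ _ va1, h6]
    · rw [hw _ _ (vaP h2 hr le_rfl), h7]
  · refine Or.inr (Or.inr ⟨τ q, l, (m.P q).2 h1, h2, h3, ?_, ?_⟩)
    · rw [hw _ _ (vaP h1 h2 h3.le), h4]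
    · rw [hw _ _ (vaP h1 (by omega) h3), h5]

theorem gm_symm {τ : Equiv.Perm ℕ} {γ δ : Grid ℕ} (m : GM τ γ δ) : GM τ.symm δ γ where
  R u := by
    have := m.R (τ.symm u)
    rw [τ.apply_symm_apply] at this
    exact this.symm
  C u := by
    have := m.C (τ.symm u)
    rw [τ.apply_symm_apply] at this
    exact this.symm
  lt u v := by
    have := m.lt (τ.symm u) (τ.symm v)
    rw [τ.apply_symm_apply, τ.apply_symm_apply] at this
    exact this.symm
  iR u v := by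
    have := m.iR (τ.symm u) (τ.symm v)
    rw [τ.apply_symm_apply, τ.apply_symm_apply] at this
    exact this.symm
  iC u v := by
    have := m.iC (τ.symm u) (τ.symm v)
    rw [τ.apply_symm_apply, τ.apply_symm_apply] at this
    exact this.symm

theorem GoodH.equi {x x' : LGr} {ρ : RH} (h : GoodH r x ρ) (hr : 2 ≤ r) (hi : LIso x x') :
    ∃ ρ', GoodH r x' ρ' ∧ GE ρ.1 ρ'.1 := by
  classical
  obtain ⟨σ, s1, s2⟩ := hi
  obtain ⟨a', τ, t1, t2⟩ := enum (fun n => σ (ρ.2 n 1)) (fun m n e => h.i1 (σ.injective e))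
  let g' : GS := (fun u => ρ.1.1 (τ.symm u), fun u => ρ.1.2.1 (τ.symm u),
    fun u v => ρ.1.2.2.1 (τ.symm u) (τ.symm v), fun u v => ρ.1.2.2.2.1 (τ.symm u) (τ.symm v),
    fun u v => ρ.1.2.2.2.2 (τ.symm u) (τ.symm v))
  have ge : GE ρ.1 g' := ⟨τ, fun u => by simp [g'], fun u => by simp [g'], fun u v => by simp [g'],
    fun u v => by simp [g'], fun u v => by simp [g']⟩
  have m : GM τ (toG ρ.1) (toG g') := gm_of (fun u => by simp [g']) (fun u => by simp [g'])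
    (fun u v => by simp [g']) (fun u v => by simp [g']) (fun u v => by simp [g'])
  have mv : ∀ u k, Va r g' (τ u) k ↔ Va r ρ.1 u k := by
    intro u k
    unfold Va
    rw [m.P]
  let w' : ℕ → ℕ → ℕ := fun u k => if Va r ρ.1 (τ.symm u) k then σ (ρ.2 (τ.symm u) k) else 0
  let ρ' : RH := (g', w')
  have hw : ∀ u k, Va r ρ.1 u k → ρ'.2 (τ u) k = σ (ρ.2 u k) := by
    intro u k h1
    simp [ρ', w', h1]
  have hw' : ∀ u k, Va r ρ'.1 u k → ρ.2 (τ.symm u) k = σ.symm (ρ'.2 u k) := by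
    intro u k h1
    have h2 : Va r ρ.1 (τ.symm u) k := by
      rw [← mv, τ.apply_symm_apply]
      exact h1
    have := hw _ _ h2
    rw [τ.apply_symm_apply] at this
    rw [this, σ.symm_apply_apply]
  have m' : GM τ (toG ρ.1) (toG ρ'.1) := m
  have ex : ∀ v, ∃ u, τ u = v := fun v => ⟨τ.symm v, τ.apply_symm_apply v⟩
  have exs : ∀ v, ∃ u, σ u = v := fun v => ⟨σ.symm v, σ.apply_symm_apply v⟩
  have hP : ∀ t, Plain x.1 t ↔ Plain x'.1 (σ t) := plain_map s1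
  have ea : ∀ u, ρ'.2 u 1 = a' u := by
    intro u
    obtain ⟨u, rfl⟩ := ex u
    rw [hw _ _ va1]
    exact (t2 u).symm
  have hHE : ∀ a b, HE r ρ' (σ a) (σ b) ↔ HE r ρ a b := by
    intro a b
    constructor
    · intro h1
      have := HE.map (ρ := ρ') (ρ' := ρ) (τ := τ.symm) (σ := σ.symm) (gm_symm m') hw' (by omega) h1
      rwa [σ.symm_apply_apply, σ.symm_apply_apply] at this
    · intro h1
      exact h1.map m' hw (by omega)
  refine ⟨ρ', ⟨?_, ?_, ?_, ?_, ?_, ?_, ?_, ?_, ?_⟩, ge⟩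
  · intro u v huv
    rw [ea, ea]
    exact t1 u v huv
  · intro u k v l
    obtain ⟨u, rfl⟩ := ex u
    obtain ⟨v, rfl⟩ := ex v
    intro h1 h2 h3
    have h1' := (mv u k).1 h1
    have h2' := (mv v l).1 h2
    rw [hw _ _ h1', hw _ _ h2'] at h3
    obtain ⟨rfl, rfl⟩ := h.inj _ _ _ _ h1' h2' (σ.injective h3)
    exact ⟨rfl, rfl⟩
  · intro u k h1
    obtain ⟨u, rfl⟩ := ex u
    have h2 : ¬ Va r ρ.1 (τ.symm (τ u)) k := by
      rw [τ.symm_apply_apply, ← mv]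
      exact h1
    exact if_neg h2
  · intro a b
    obtain ⟨a, rfl⟩ := exs a
    obtain ⟨b, rfl⟩ := exs b
    rw [s1, h.adj, hHE, hHE]
  · intro u n
    obtain ⟨u, rfl⟩ := ex u
    intro h1 h2
    rw [hw _ _ va1] at h2
    rw [← h2, s2]
    exact h.layR u _ ((m'.R u).1 h1) rfl
  · intro u n
    obtain ⟨u, rfl⟩ := ex u
    intro h1 h2
    rw [hw _ _ va1] at h2
    rw [← h2, s2]
    exact h.layC u _ ((m'.C u).1 h1) rfl
  · intro u k n
    obtain ⟨u, rfl⟩ := ex u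
    intro h1 h2 h3 h4
    have h1' := (m'.P u).1 h1
    rw [hw _ _ (vaP h1' h2 h3)] at h4
    rw [← h4, s2]
    exact h.layP u k _ h1' h2 h3 rfl
  · intro t ht
    obtain ⟨t, rfl⟩ := exs t
    rw [s2]
    exact h.pl t ((hP t).2 ht)
  · intro n
    obtain ⟨t', ⟨t, h1, rfl⟩, h2⟩ := (h.infP.image σ.injective.injOn).exists_gt n
    exact ⟨σ t, h2.le, (hP t).1 h1⟩

theorem GoodH.cnp {x : LGr} {ρ : RH} (h : GoodH r x ρ) (hg : KG ρ.1) (hr : 2 ≤ r) {u k : ℕ}
    (h1 : Va r ρ.1 u k) : ¬ Plain x.1 (ρ.2 u k) := by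
  have np : ∀ {a b}, x.1 a b = true → ¬ Plain x.1 a := by
    intro a b h1 h2
    rw [h2 b] at h1
    exact absurd h1 (by decide)
  by_cases hu : (toG ρ.1).P u
  · obtain ⟨h2, h3⟩ : 1 ≤ k ∧ k ≤ r := by
      rcases h1 with rfl | h1
      · omega
      · omega
    by_cases h4 : k = r
    · have e1 := h.step hu (k := k - 1) (by omega) (by omega)
      rw [Nat.sub_add_cancel h2, h.symm] at e1
      exact np e1
    · exact np (h.step hu h2 (by omega))
  · have hk : k = 1 := by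
      rcases h1 with rfl | h1
      · rfl
      · exact absurd h1.1 hu
    subst hk
    obtain ⟨r0, hr0⟩ := hg.f.r0
    obtain ⟨c0, hc0⟩ := hg.f.c0
    rcases cases3' (toG ρ.1) u hu with h2 | h2
    · obtain ⟨q, q1, q2, q3⟩ := hg.f.f u c0 h2 hc0
      exact np ((h.nb_row hg hr h2 _).2 ⟨q, u, q1, h2, q2, Or.inl rfl, rfl⟩)
    · obtain ⟨v, hv, huv⟩ := hg.b.dC.above u h2
      obtain ⟨q, q1, q2, q3⟩ := hg.f.f r0 v hr0 hv
      exact np ((h.nb_col hg hr h2 _).2 ⟨q, v, q1, hv, q3, huv, rfl⟩)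

theorem GoodH.np' {x : LGr} {ρ : RH} (h : GoodH r x ρ) (hr : 2 ≤ r) {a : ℕ}
    (ha : ¬ Plain x.1 a) : ∃ u k, Va r ρ.1 u k ∧ ρ.2 u k = a := by
  rcases h.np hr ha with ⟨u, hu, rfl⟩ | ⟨u, hu, rfl⟩ | ⟨u, k, hu, hk, hk', rfl⟩
  · exact ⟨u, 1, va1, rfl⟩
  · exact ⟨u, 1, va1, rfl⟩
  · exact ⟨u, k, vaP hu hk hk', rfl⟩

theorem GoodH.iso {x x' : LGr} {ρ ρ' : RH} (h : GoodH r x ρ) (hg : KG ρ.1)
    (h' : GoodH r x' ρ') (hg' : KG ρ'.1) (hr : 2 ≤ r) (hi : GE ρ.1 ρ'.1) : LIso x x' := by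
  classical
  obtain ⟨τ, t1, t2, t3, t4, t5⟩ := hi
  have m : GM τ (toG ρ.1) (toG ρ'.1) := gm_of t1 t2 t3 t4 t5
  have mv : ∀ u k, Va r ρ'.1 (τ u) k ↔ Va r ρ.1 u k := by
    intro u k
    unfold Va
    rw [m.P]
  let f : ℕ → ℕ := fun p => if h0 : ∃ q : ℕ × ℕ, Va r ρ.1 q.1 q.2 ∧ ρ.2 q.1 q.2 = p then
    ρ'.2 (τ h0.choose.1) h0.choose.2 else 0
  have hf : ∀ u k, Va r ρ.1 u k → f (ρ.2 u k) = ρ'.2 (τ u) k := by
    intro u k h1
    have h0 : ∃ q : ℕ × ℕ, Va r ρ.1 q.1 q.2 ∧ ρ.2 q.1 q.2 = ρ.2 u k := ⟨(u, k), h1, rfl⟩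
    have e : f (ρ.2 u k) = ρ'.2 (τ h0.choose.1) h0.choose.2 := dif_pos h0
    rw [e]
    obtain ⟨k1, k2⟩ := h0.choose_spec
    obtain ⟨e1, e2⟩ := h.inj _ _ _ _ k1 h1 k2
    rw [e1, e2]
  have hinfP : ∀ {x : LGr} {ρ : RH}, GoodH r x ρ → {t | ¬ ¬ Plain x.1 t}.Infinite := by
    intro x ρ h
    simpa only [not_not] using h.infP
  obtain ⟨σ, hσ⟩ := ext_perm (X := fun p => ¬ Plain x.1 p) (X' := fun p => ¬ Plain x'.1 p) f
    (by
      intro p hp
      obtain ⟨u, k, h1, rfl⟩ := h.np' hr hp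
      rw [hf _ _ h1]
      exact h'.cnp hg' hr ((mv _ _).2 h1))
    (by
      intro p q hp hq he
      obtain ⟨u, k, h1, rfl⟩ := h.np' hr hp
      obtain ⟨v, l, h2, rfl⟩ := h.np' hr hq
      rw [hf _ _ h1, hf _ _ h2] at he
      obtain ⟨e1, rfl⟩ := h'.inj _ _ _ _ ((mv _ _).2 h1) ((mv _ _).2 h2) he
      rw [τ.injective e1])
    (by
      intro q hq
      obtain ⟨u, k, h1, rfl⟩ := h'.np' hr hq
      obtain ⟨u, rfl⟩ : ∃ v, τ v = u := ⟨τ.symm u, τ.apply_symm_apply u⟩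
      rw [mv] at h1
      exact ⟨ρ.2 u k, h.cnp hg hr h1, hf _ _ h1⟩)
    (hinfP h) (hinfP h')
  have hw : ∀ u k, Va r ρ.1 u k → ρ'.2 (τ u) k = σ (ρ.2 u k) := by
    intro u k h1
    rw [hσ _ (h.cnp hg hr h1)]
    exact (hf _ _ h1).symm
  have hw' : ∀ u k, Va r ρ'.1 u k → ρ.2 (τ.symm u) k = σ.symm (ρ'.2 u k) := by
    intro u k h1
    obtain ⟨u, rfl⟩ : ∃ v, τ v = u := ⟨τ.symm u, τ.apply_symm_apply u⟩
    rw [mv] at h1
    rw [hw _ _ h1, σ.symm_apply_apply, τ.symm_apply_apply]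
  have hP : ∀ p, Plain x.1 p → Plain x'.1 (σ p) := by
    intro p hp
    by_contra hcon
    obtain ⟨u, k, h1, h3⟩ := h'.np' hr hcon
    have e2 := hw' _ _ h1
    rw [h3, σ.symm_apply_apply] at e2
    rw [← e2] at hp
    refine h.cnp hg hr ?_ hp
    rw [← mv, τ.apply_symm_apply]
    exact h1
  have hHE : ∀ a b, HE r ρ' (σ a) (σ b) ↔ HE r ρ a b := by
    intro a b
    constructor
    · intro h1
      have := HE.map (ρ := ρ') (ρ' := ρ) (τ := τ.symm) (σ := σ.symm) (gm_symm m) hw' (by omega) h1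
      rwa [σ.symm_apply_apply, σ.symm_apply_apply] at this
    · intro h1
      exact h1.map m hw (by omega)
  refine ⟨σ, fun p q => ?_, fun p => ?_⟩
  · rw [Bool.eq_iff_iff, h'.adj, h.adj, hHE, hHE]
  · by_cases hp : Plain x.1 p
    · rw [h.pl p hp, h'.pl _ (hP p hp)]
    · rcases h.np hr hp with ⟨u, hu, rfl⟩ | ⟨u, hu, rfl⟩ | ⟨u, k, hu, hk, hk', rfl⟩
      · rw [h.layR _ _ hu rfl, ← hw _ _ va1, h'.layR _ _ ((m.R u).2 hu) rfl]
      · rw [h.layC _ _ hu rfl, ← hw _ _ va1, h'.layC _ _ ((m.C u).2 hu) rfl]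
      · rw [h.layP _ _ _ hu hk hk' rfl, ← hw _ _ (vaP hu hk hk'),
          h'.layP _ _ _ ((m.P u).2 hu) hk hk' rfl]

open Classical in
/-- the paths -/
noncomputable def wH (r : ℕ) (g : GS) (u k : ℕ) : ℕ :=
  if Va r g u k then (if k = 1 then 2 * u else 4 * Nat.pair u k + 1) else 0

theorem wH_one {g : GS} {u : ℕ} : wH r g u 1 = 2 * u := by
  unfold wH
  rw [if_pos va1, if_pos rfl]

theorem wH_pos {g : GS} {u k : ℕ} (h : Va r g u k) (hk : k ≠ 1) :
    wH r g u k = 4 * Nat.pair u k + 1 := by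
  unfold wH
  rw [if_pos h, if_neg hk]

theorem wH_inj {g : GS} {u k v l : ℕ} (h1 : Va r g u k) (h2 : Va r g v l)
    (e : wH r g u k = wH r g v l) : u = v ∧ k = l := by
  by_cases hk : k = 1
  · subst hk
    rw [wH_one] at e
    by_cases hl : l = 1
    · subst hl
      rw [wH_one] at e
      exact ⟨by omega, rfl⟩
    · rw [wH_pos h2 hl] at e
      omega
  · rw [wH_pos h1 hk] at e
    by_cases hl : l = 1
    · subst hl
      rw [wH_one] at e
      omega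
    · rw [wH_pos h2 hl] at e
      have := Nat.pair_eq_pair.1 (show Nat.pair u k = Nat.pair v l by omega)
      exact this

theorem wH_val {g : GS} {u k n : ℕ} : wH r g u k ≠ 4 * n + 3 := by
  by_cases h : Va r g u k
  · by_cases hk : k = 1
    · subst hk
      rw [wH_one]
      omega
    · rw [wH_pos h hk]
      omega
  · unfold wH
    rw [if_neg h]
    omega

theorem goodH_ex (hr : 2 ≤ r) {g : GS} (hg : KG g) : ∃ (x : LGr) (ρ : RH), GoodH r x ρ ∧ ρ.1 = g := by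
  classical
  let ρ : RH := (g, wH r g)
  let s : BinStr := fun a b => decide (HE r ρ a b ∨ HE r ρ b a)
  let l : ℕ → ℕ := fun n => if h0 : ∃ q : ℕ × ℕ, Va r ρ.1 q.1 q.2 ∧ ρ.2 q.1 q.2 = n then
    (if (toG g).R h0.choose.1 then 0 else if (toG g).C h0.choose.1 then r + 1 else h0.choose.2) else 0
  have hadj : ∀ a b, s a b = true ↔ HE r ρ a b ∨ HE r ρ b a := fun a b => decide_eq_true_iff
  have hl : ∀ u k, Va r ρ.1 u k → l (ρ.2 u k) =
      if (toG g).R u then 0 else if (toG g).C u then r + 1 else k := by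
    intro u k h1
    have h0 : ∃ q : ℕ × ℕ, Va r ρ.1 q.1 q.2 ∧ ρ.2 q.1 q.2 = ρ.2 u k := ⟨(u, k), h1, rfl⟩
    have e : l (ρ.2 u k) = (if (toG g).R h0.choose.1 then 0 else
      if (toG g).C h0.choose.1 then r + 1 else h0.choose.2) := dif_pos h0
    rw [e]
    obtain ⟨k1, k2⟩ := h0.choose_spec
    obtain ⟨e1, e2⟩ := wH_inj k1 h1 k2
    rw [e1, e2]
  have hnv : ∀ n, ¬ HE r ρ n n → True := fun _ _ => trivial
  have hHV : ∀ {a b}, HE r ρ a b → (∃ u k, Va r ρ.1 u k ∧ ρ.2 u k = a) ∧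
      ∃ u k, Va r ρ.1 u k ∧ ρ.2 u k = b := by
    rintro a b (⟨u, q, v, h1, h2, h3, h4, h5, h6, h7⟩ | ⟨u, q, v, h1, h2, h3, h4, h5, h6, h7⟩ |
      ⟨q, l, h1, h2, h3, h4, h5⟩)
    · exact ⟨⟨u, 1, va1, h6⟩, ⟨q, 1, va1, h7⟩⟩
    · exact ⟨⟨u, 1, va1, h6⟩, ⟨q, r, vaP h2 (by omega) le_rfl, h7⟩⟩
    · exact ⟨⟨q, l, vaP h1 h2 h3.le, h4⟩, ⟨q, l + 1, vaP h1 (by omega) h3, h5⟩⟩
  -- a preliminary version, with all layers forgotten, shows that no vertex of the pattern is isolated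
  have pre : GoodH r (s, l) ρ := by
    refine ⟨?_, ?_, ?_, hadj, ?_, ?_, ?_, ?_, ?_⟩
    · intro u v huv
      show wH r g u 1 < wH r g v 1
      rw [wH_one, wH_one]
      omega
    · intro u k v l h1 h2 e
      exact wH_inj h1 h2 e
    · intro u k h1
      exact if_neg h1
    · intro u n h1 h2
      rw [← h2]
      show l (ρ.2 u 1) = 0
      rw [hl _ _ va1, if_pos h1]
    · intro u n h1 h2
      rw [← h2]
      show l (ρ.2 u 1) = r + 1
      rw [hl _ _ va1, if_neg (fun h => hg.b.disj _ h h1), if_pos h1]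
    · intro u k n h1 h2 h3 h4
      rw [← h4]
      show l (ρ.2 u k) = k
      rw [hl _ _ (vaP h1 h2 h3), if_neg h1.1, if_neg h1.2]
    · intro t ht
      refine dif_neg ?_
      rintro ⟨⟨u, k⟩, h1, h2⟩
      have h1' : Va r g u k := h1
      have h2' : ρ.2 u k = t := h2
      obtain ⟨b, hb⟩ : ∃ b, s (ρ.2 u k) b = true := by
        by_cases hu : (toG g).P u
        · obtain ⟨h3, h4⟩ : 1 ≤ k ∧ k ≤ r := by
            rcases h1' with rfl | h1'
            · omega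
            · omega
          by_cases h5 : k = r
          · refine ⟨ρ.2 u (k - 1), (hadj _ _).2 (Or.inr (Or.inr (Or.inr ⟨u, k - 1, hu, by omega,
              by omega, rfl, ?_⟩)))⟩
            rw [Nat.sub_add_cancel h3]
          · exact ⟨ρ.2 u (k + 1), (hadj _ _).2 (Or.inl (Or.inr (Or.inr ⟨u, k, hu, h3, by omega, rfl,
              rfl⟩)))⟩
        · have hk : k = 1 := by
            rcases h1' with rfl | h1'
            · rfl
            · exact absurd h1'.1 hu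
          subst hk
          obtain ⟨r0, hr0⟩ := hg.f.r0
          obtain ⟨c0, hc0⟩ := hg.f.c0
          rcases cases3' (toG g) u hu with h3 | h3
          · obtain ⟨q, q1, q2, q3⟩ := hg.f.f u c0 h3 hc0
            exact ⟨ρ.2 q 1, (hadj _ _).2 (Or.inl (Or.inl ⟨u, q, u, h3, q1, h3, q2, Or.inl rfl, rfl,
              rfl⟩))⟩
          · obtain ⟨v, hv, huv⟩ := hg.b.dC.above u h3
            obtain ⟨q, q1, q2, q3⟩ := hg.f.f r0 v hr0 hv
            exact ⟨ρ.2 q r, (hadj _ _).2 (Or.inl (Or.inr (Or.inl ⟨u, q, v, h3, q1, hv, q3, huv, rfl,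
              rfl⟩)))⟩
      rw [h2', show s t b = false from ht b] at hb
      exact absurd hb (by decide)
    · intro n
      refine ⟨4 * n + 3, by omega, fun q => ?_⟩
      by_contra hq
      have hq' : s (4 * n + 3) q = true := by simpa using hq
      rw [hadj] at hq'
      rcases hq' with h1 | h1
      · obtain ⟨⟨u, k, h2, h3⟩, -⟩ := hHV h1
        exact wH_val h3
      · obtain ⟨-, ⟨u, k, h2, h3⟩⟩ := hHV h1
        exact wH_val h3
  exact ⟨(s, l), ρ, pre, rfl⟩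

theorem bp_goodH (r : ℕ) : BP (fun p : LGr × RH => GoodH r p.1 p.2) := by
  have ms : Measurable (fun p : LGr × RH => p.1.1) := measurable_fst.comp measurable_fst
  have ml : Measurable (fun p : LGr × RH => p.1.2) := measurable_snd.comp measurable_fst
  have mg0 : Measurable (fun p : LGr × RH => p.2.1) := measurable_fst.comp measurable_snd
  have mw0 : Measurable (fun p : LGr × RH => p.2.2) := measurable_snd.comp measurable_snd
  have mw : ∀ u k, Measurable (fun p : LGr × RH => p.2.2 u k) := fun u k =>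
    (measurable_pi_apply k).comp ((measurable_pi_apply u).comp mw0)
  have bw : ∀ u k n, BP (fun p : LGr × RH => p.2.2 u k = n) := fun u k n =>
    bp_of (mw u k) (fun b => b = n)
  have hD : MG (fun p : LGr × RH => toG p.2.1) :=
    ⟨fun u => mg0 (mg_toG.R u), fun u => mg0 (mg_toG.C u), fun u v => mg0 (mg_toG.lt u v),
      fun u v => mg0 (mg_toG.iR u v), fun u v => mg0 (mg_toG.iC u v)⟩
  have bV : ∀ u k, BP (fun p : LGr × RH => Va r p.2.1 u k) := fun u k =>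
    (BP.const (k = 1)).or ((hD.P u).and ((BP.const (2 ≤ k)).and (BP.const (k ≤ r))))
  have bH : ∀ a b, BP (fun p : LGr × RH => HE r p.2 a b) := fun a b =>
    (BP.ex fun u => BP.ex fun q => BP.ex fun v => (hD.R u).and <| (hD.P q).and <| (hD.R v).and <|
      (hD.iR q v).and <| ((BP.const (v = u)).or (hD.lt v u)).and <| (bw u 1 a).and (bw q 1 b)).or <|
    (BP.ex fun u => BP.ex fun q => BP.ex fun v => (hD.C u).and <| (hD.P q).and <| (hD.C v).and <|
      (hD.iC q v).and <| (hD.lt u v).and <| (bw u 1 a).and (bw q r b)).or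
    (BP.ex fun q => BP.ex fun k => (hD.P q).and <| (BP.const (1 ≤ k)).and <|
      (BP.const (k < r)).and <| (bw q k a).and (bw q (k + 1) b))
  have : BP (fun p : LGr × RH =>
    (∀ u v, u < v → p.2.2 u 1 < p.2.2 v 1) ∧
    (∀ u k v l, Va r p.2.1 u k → Va r p.2.1 v l → p.2.2 u k = p.2.2 v l → u = v ∧ k = l) ∧
    (∀ u k, ¬ Va r p.2.1 u k → p.2.2 u k = 0) ∧
    (∀ a b, p.1.1 a b = true ↔ HE r p.2 a b ∨ HE r p.2 b a) ∧
    (∀ u n, (toG p.2.1).R u → p.2.2 u 1 = n → p.1.2 n = 0) ∧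
    (∀ u n, (toG p.2.1).C u → p.2.2 u 1 = n → p.1.2 n = r + 1) ∧
    (∀ u k n, (toG p.2.1).P u → 1 ≤ k → k ≤ r → p.2.2 u k = n → p.1.2 n = k) ∧
    (∀ t, Plain p.1.1 t → p.1.2 t = 0) ∧
    (∀ n, ∃ t, n ≤ t ∧ Plain p.1.1 t)) :=
    (BP.all fun m => BP.all fun n => (BP.const (m < n)).imp
      (measurableSet_lt (mw m 1) (mw n 1))).and <|
    (BP.all fun u => BP.all fun k => BP.all fun v => BP.all fun l => (bV u k).imp <| (bV v l).imp <|
      BP.imp (p := fun p : LGr × RH => p.2.2 u k = p.2.2 v l)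
        (measurableSet_eq_fun (mw u k) (mw v l)) (BP.const _)).and <|
    (BP.all fun u => BP.all fun k => (bV u k).not.imp (bw u k 0)).and <|
    (BP.all fun a => BP.all fun b => (bp_of (meas1 ms a b) (fun c => c = true)).iff
      ((bH a b).or (bH b a))).and <|
    (BP.all fun u => BP.all fun n => (hD.R u).imp <| (bw u 1 n).imp
      (bp_of (meas2 ml n) (fun b => b = 0))).and <|
    (BP.all fun u => BP.all fun n => (hD.C u).imp <| (bw u 1 n).imp
      (bp_of (meas2 ml n) (fun b => b = r + 1))).and <|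
    (BP.all fun u => BP.all fun k => BP.all fun n => (hD.P u).imp <| (BP.const (1 ≤ k)).imp <|
      (BP.const (k ≤ r)).imp <| (bw u k n).imp (bp_of (meas2 ml n) (fun b => b = k))).and <|
    (BP.all fun t => (bp_plain ms t).imp (bp_of (meas2 ml t) (fun b => b = 0))).and
    (BP.all fun n => BP.ex fun t => (BP.const (n ≤ t)).and (bp_plain ms t))
  exact this.congr fun y => ⟨fun ⟨h1, h2, h3, h4, h5, h6, h7, h8, h9⟩ =>
    ⟨h1, h2, h3, h4, h5, h6, h7, h8, h9⟩, fun ⟨h1, h2, h3, h4, h5, h6, h7, h8, h9⟩ =>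
    ⟨h1, h2, h3, h4, h5, h6, h7, h8, h9⟩⟩

/-- layered graphs of this kind -/
def KH (r : ℕ) (x : LGr) : Prop := ∃ ρ, GoodH r x ρ ∧ KG ρ.1

theorem faithful_H0 (hr : 2 ≤ r) : Faithful LIso (KH r) := by
  refine faithful_rep faithful_G (GoodH r) (bp_goodH r) (fun ρ => ρ.1) measurable_fst
    (fun _ _ h => h.symm) ?_ ?_ ?_ ?_ ?_
  · intro x ρ ρ' h h' hz hz'
    exact h.uniq hz hr h' hz' rfl
  · intro x x' ρ hi h hz
    exact h.equi hr hi
  · intro x x' ρ ρ' h h' hz hz' hi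
    exact h.iso hz h' hz' hr hi
  · intro g hg
    obtain ⟨x, ρ, h1, h2⟩ := goodH_ex hr hg
    refine ⟨x, ρ, h1, ?_⟩
    rw [h2]
    exact ⟨1, fun _ => rfl, fun _ => rfl, fun _ _ => rfl, fun _ _ => rfl, fun _ _ => rfl⟩
  · intro x ρ h hg
    exact ⟨ρ, h, hg⟩

/-- **Flips of half-graph crossings.** -/
theorem faithful_H (hr : 2 ≤ r) (f : ℕ → ℕ → Bool) (hf : ∀ i j, f i j = f j i)
    {K' : BinStr → Prop}
    (hK' : ∀ (s : BinStr) (μ : ℕ → ℕ), KH r (dec0 (s, μ)) → (∀ u, μ u < r + 2) →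
      K' (flip f s μ)) : Faithful BIso K' := by
  refine faithful_flip (faithful_H0 hr) (r + 2) ?_ ?_ f hf hK'
  · rintro x ⟨ρ, h, hg⟩
    exact h.lays hg hr
  · rintro s l l' ⟨ρ, h, hg⟩ ⟨ρ', h', hg'⟩
    exact h.lay_eq hg hr h' hg' rfl

end main

end Pool.Agent.Run7.h653.MD
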