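import Pool.Agent.W889.VC.HF

/-!
Faithful completeness by unique representations: if every element of a class has a unique code, and
the relation of coding is Borel, then by the theorem of Lusin and Souslin the decoding is Borel.
-/

set_option autoImplicit false

namespace Pool.Agent.Run7.h653.MD

open Pool.Agent.W889.VC
open Set

/-- Transfer of faithful completeness along unique Borel representations. -/
theorem faithful_rep {Y Z R : Type} [MeasurableSpace Y] [MeasurableSpace Z] [MeasurableSpace R]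
    [StandardBorelSpace Z] [StandardBorelSpace R]
    {E : Y → Y → Prop} {K : Y → Prop} (h : Faithful E K)
    {E' : Z → Z → Prop} {K' : Z → Prop}
    (Good : Z → R → Prop) (hG : MeasurableSet {p : Z × R | Good p.1 p.2})
    (dec : R → Y) (hdec : Measurable dec)
    (symm : ∀ z z', E' z z' → E' z' z)
    (uniq : ∀ z ρ ρ', Good z ρ → Good z ρ' → K (dec ρ) → K (dec ρ') → ρ = ρ')
    (equi : ∀ z z' ρ, E' z z' → Good z ρ → K (dec ρ) → ∃ ρ', Good z' ρ' ∧ E (dec ρ) (dec ρ'))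
    (iso : ∀ z z' ρ ρ', Good z ρ → Good z' ρ' → K (dec ρ) → K (dec ρ') →
      E (dec ρ) (dec ρ') → E' z z')
    (ex : ∀ y, K y → ∃ z ρ, Good z ρ ∧ E y (dec ρ))
    (cls : ∀ z ρ, Good z ρ → K (dec ρ) → K' z) : Faithful E' K' := by
  classical
  intro a B hB hinv
  obtain ⟨B', F, h1, h2, h3, h4, h5, h6, h7⟩ := h a B hB hinv
  let S : Set (Z × R) := {p | Good p.1 p.2 ∧ dec p.2 ∈ B'}
  have hS : MeasurableSet S := hG.inter ((hdec.comp measurable_snd) h1)
  have : StandardBorelSpace S := hS.standardBorel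
  let φ : S → Z := fun p => p.1.1
  have hφ : Measurable φ := measurable_fst.comp measurable_subtype_coe
  have hinj : Function.Injective φ := by
    rintro ⟨⟨z, ρ⟩, k1, k2⟩ ⟨⟨z', ρ'⟩, k3, k4⟩ he
    have e : z = z' := he
    subst e
    have := uniq z ρ ρ' k1 k3 (h3 _ k2) (h3 _ k4)
    subst this
    rfl
  have hemb : MeasurableEmbedding φ := hφ.measurableEmbedding hinj
  have hFm : Measurable (fun p : S => F (dec p.1.2)) :=
    h4.comp (hdec.comp (measurable_snd.comp measurable_subtype_coe))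
  obtain ⟨F', hF1, hF2⟩ := hemb.exists_measurable_extend hFm
    (fun _ => ⟨fun _ _ => false⟩)
  have hF : ∀ z ρ, Good z ρ → dec ρ ∈ B' → F' z = F (dec ρ) := by
    intro z ρ k1 k2
    exact congrFun hF2 (⟨(z, ρ), k1, k2⟩ : S)
  have mem : ∀ z, z ∈ range φ ↔ ∃ ρ, Good z ρ ∧ dec ρ ∈ B' := by
    intro z
    constructor
    · rintro ⟨⟨⟨z', ρ⟩, k1, k2⟩, rfl⟩
      exact ⟨ρ, k1, k2⟩
    · rintro ⟨ρ, k1, k2⟩
      exact ⟨⟨(z, ρ), k1, k2⟩, rfl⟩
  have hstep : ∀ y z, E' y z → y ∈ range φ → z ∈ range φ := by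
    intro y z hyz hy
    obtain ⟨ρ, k1, k2⟩ := (mem y).1 hy
    obtain ⟨ρ', k3, k4⟩ := equi y z ρ hyz k1 (h3 _ k2)
    exact (mem z).2 ⟨ρ', k3, (h2 _ _ k4).1 k2⟩
  refine ⟨range φ, F', hemb.measurableSet_range,
    fun y z hyz => ⟨hstep y z hyz, hstep z y (symm _ _ hyz)⟩, fun y hy => ?_, hF1, fun y hy => ?_,
    fun y hy z hz => ?_, fun x hx => ?_⟩
  · obtain ⟨ρ, k1, k2⟩ := (mem y).1 hy
    exact cls y ρ k1 (h3 _ k2)
  · obtain ⟨ρ, k1, k2⟩ := (mem y).1 hy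
    rw [hF y ρ k1 k2]
    exact h5 _ k2
  · obtain ⟨ρ, k1, k2⟩ := (mem y).1 hy
    obtain ⟨ρ', k3, k4⟩ := (mem z).1 hz
    rw [hF y ρ k1 k2, hF z ρ' k3 k4]
    constructor
    · intro hyz
      obtain ⟨ρ'', k5, k6⟩ := equi y z ρ hyz k1 (h3 _ k2)
      have k7 := (h2 _ _ k6).1 k2
      have := uniq z ρ' ρ'' k3 k5 (h3 _ k4) (h3 _ k7)
      subst this
      exact (h6 _ k2 _ k4).1 k6
    · intro hyz
      exact iso y z ρ ρ' k1 k3 (h3 _ k2) (h3 _ k4) ((h6 _ k2 _ k4).2 hyz)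
  · obtain ⟨y, hy, hxy⟩ := h7 x hx
    obtain ⟨z, ρ, k1, k2⟩ := ex y (h3 y hy)
    have k3 := (h2 _ _ k2).1 hy
    refine ⟨z, (mem z).2 ⟨ρ, k1, k3⟩, ?_⟩
    rw [hF z ρ k1 k3]
    exact hxy.trans ((h6 _ hy _ k3).1 k2)

/-- A bijection of subsets with infinite complements extends to a permutation. -/
theorem ext_perm {X X' : ℕ → Prop} (f : ℕ → ℕ) (hf : ∀ x, X x → X' (f x))
    (hinj : ∀ x y, X x → X y → f x = f y → x = y) (hsurj : ∀ y, X' y → ∃ x, X x ∧ f x = y)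
    (hc : {x | ¬ X x}.Infinite) (hc' : {x | ¬ X' x}.Infinite) :
    ∃ σ : Equiv.Perm ℕ, ∀ x, X x → σ x = f x := by
  classical
  let e1 : {x // X x} ≃ {x // X' x} := Equiv.ofBijective (fun x => ⟨f x.1, hf x.1 x.2⟩)
    ⟨fun x y hxy => Subtype.ext (hinj _ _ x.2 y.2 (congrArg Subtype.val hxy)), fun y => by
      obtain ⟨x, hx, hxy⟩ := hsurj y.1 y.2
      exact ⟨⟨x, hx⟩, Subtype.ext hxy⟩⟩
  have i1 : Infinite {x // ¬ X x} := hc.to_subtype
  have i2 : Infinite {x // ¬ X' x} := hc'.to_subtype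
  obtain ⟨e2⟩ := nonempty_equiv_of_countable (α := {x // ¬ X x}) (β := {x // ¬ X' x})
  refine ⟨(Equiv.sumCompl X).symm.trans ((e1.sumCongr e2).trans (Equiv.sumCompl X')), fun x hx => ?_⟩
  simp only [Equiv.trans_apply]
  rw [Equiv.sumCompl_symm_apply_of_pos hx]
  rfl

end Pool.Agent.Run7.h653.MD
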