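import Pool.Agent.Run7.h653.FH.A2
import Pool.Agent.Run7.h653.MD.Cross

/-!
Permutation graphs of grids determine the grids.
-/

set_option autoImplicit false

namespace Pool.Agent.Run7.h653.MD

open Pool.Agent.W889.VC
open Pool.Agent.W889.VC.Grid
open Pool.Agent.Run7.h653.FH
open Set

/-- The graph `z` represents the grid: rows are adjacent to the points of smaller or equal row, columns
to the points of greater column and to all rows; points are adjacent if row and column increase. -/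
structure CRep (γ : Grid ℕ) (z : ℕ → ℕ → Prop) : Prop where
  symm : ∀ u v, z u v → z v u
  rp : ∀ u p r, γ.R u → γ.P p → γ.R r → γ.iR p r → (z u p ↔ (r = u ∨ γ.lt r u))
  cp : ∀ u p c, γ.C u → γ.P p → γ.C c → γ.iC p c → (z u p ↔ γ.lt u c)
  rr : ∀ u v, γ.R u → γ.R v → ¬ z u v
  cc : ∀ u v, γ.C u → γ.C v → ¬ z u v
  rc : ∀ u v, γ.R u → γ.C v → z u v
  pp : ∀ u v r c r' c', γ.P u → γ.P v → γ.R r → γ.iR u r → γ.C c → γ.iC u c → γ.R r' →
    γ.iR v r' → γ.C c' → γ.iC v c' →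
    (z u v ↔ ((γ.lt r r' ∧ γ.lt c c') ∨ (γ.lt r' r ∧ γ.lt c' c)))

/-- a point: no incomparable vertex, apart from twins -/
def PM (z : ℕ → ℕ → Prop) (u : ℕ) : Prop :=
  ∀ v, ¬ NV z u v → ∀ w, w ≠ u → w ≠ v → (z u w ↔ z v w)

/-- the graph without the edges between points -/
def zc (z : ℕ → ℕ → Prop) (u v : ℕ) : Prop := z u v ∧ ¬ (PM z u ∧ PM z v)

section dec

variable {γ : Grid ℕ} {z : ℕ → ℕ → Prop}

theorem cm_rr (hz : CRep γ z) (hb : Base γ) {u v : ℕ} (hu : γ.R u) (hv : γ.R v)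
    (huv : γ.lt u v) : ¬ NV z u v := by
  rintro ⟨⟨w, h1, h2, h3, h4⟩, -⟩
  apply h4
  rcases cases3 γ w with hw | hw | hw
  · exact absurd h3 (hz.rr u w hu hw)
  · exact hz.rc v w hv hw
  · obtain ⟨r, k1, k2, -⟩ := hb.rR w hw
    rw [hz.rp v w r hv hw k1 k2]
    rw [hz.rp u w r hu hw k1 k2] at h3
    right
    rcases h3 with rfl | h3
    · exact huv
    · exact hb.dR.trans _ _ _ k1 hu hv h3 huv

theorem cm_cc (hz : CRep γ z) (hb : Base γ) {u v : ℕ} (hu : γ.C u) (hv : γ.C v)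
    (huv : γ.lt u v) : ¬ NV z u v := by
  rintro ⟨-, w, h1, h2, h3, h4⟩
  apply h4
  rcases cases3 γ w with hw | hw | hw
  · exact hz.symm _ _ (hz.rc w u hw hu)
  · exact absurd h3 (hz.cc v w hv hw)
  · obtain ⟨c, k1, k2, -⟩ := hb.rC w hw
    rw [hz.cp u w c hu hw k1 k2]
    rw [hz.cp v w c hv hw k1 k2] at h3
    exact hb.dC.trans _ _ _ hu hv k1 huv h3

/-- points and markers are incomparable -/
theorem nm_rp (hz : CRep γ z) (hb : Base γ) {u p : ℕ} (hu : γ.R u) (hp : γ.P p) : NV z u p := by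
  have d : ∀ {u v}, ¬ γ.P u → γ.P v → u ≠ v := fun h h' e => h (e ▸ h')
  have nR : ∀ {u}, γ.R u → ¬ γ.P u := fun h h' => h'.1 h
  have nC : ∀ {u}, γ.C u → ¬ γ.P u := fun h h' => h'.2 h
  obtain ⟨r, k1, k2, -⟩ := hb.rR p hp
  obtain ⟨c, k3, k4, -⟩ := hb.rC p hp
  obtain ⟨r1, e1, e2⟩ := hb.dR.above r k1
  obtain ⟨r2, e3, e4⟩ := hb.dR.above r1 e1
  refine ⟨⟨c, fun e => hb.disj _ hu (e ▸ k3), d (nC k3) hp, hz.rc u c hu k3, fun h => ?_⟩, ?_⟩
  · exact hb.dC.irrefl _ k3 ((hz.cp c p c k3 hp k3 k4).1 (hz.symm _ _ h))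
  · by_cases h : r1 = u
    · subst h
      refine ⟨r2, ?_, d (nR e3) hp, hz.symm _ _ ((hz.rp r2 p r e3 hp k1 k2).2
        (Or.inr (hb.dR.trans _ _ _ k1 e1 e3 e2 e4))), hz.rr _ _ hu e3⟩
      rintro rfl
      exact hb.dR.irrefl _ e3 e4
    · exact ⟨r1, h, d (nR e1) hp, hz.symm _ _ ((hz.rp r1 p r e1 hp k1 k2).2 (Or.inr e2)),
        hz.rr _ _ hu e1⟩

theorem nm_cp (hz : CRep γ z) (hb : Base γ) {u p : ℕ} (hu : γ.C u) (hp : γ.P p) : NV z u p := by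
  have d : ∀ {u v}, ¬ γ.P u → γ.P v → u ≠ v := fun h h' e => h (e ▸ h')
  have nR : ∀ {u}, γ.R u → ¬ γ.P u := fun h h' => h'.1 h
  have nC : ∀ {u}, γ.C u → ¬ γ.P u := fun h h' => h'.2 h
  obtain ⟨r, k1, k2, -⟩ := hb.rR p hp
  obtain ⟨c, k3, k4, -⟩ := hb.rC p hp
  obtain ⟨r1, e1, e2⟩ := hb.dR.below r k1
  obtain ⟨c1, f1, f2⟩ := hb.dC.below c k3
  obtain ⟨c2, f3, f4⟩ := hb.dC.below c1 f1
  refine ⟨⟨r1, fun e => hb.disj _ e1 (e ▸ hu), d (nR e1) hp, hz.symm _ _ (hz.rc r1 u e1 hu),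
    fun h => ?_⟩, ?_⟩
  · rcases (hz.rp r1 p r e1 hp k1 k2).1 (hz.symm _ _ h) with rfl | h'
    · exact hb.dR.irrefl _ e1 e2
    · exact hb.dR.irrefl _ k1 (hb.dR.trans _ _ _ k1 e1 k1 h' e2)
  · by_cases h : c1 = u
    · subst h
      refine ⟨c2, ?_, d (nC f3) hp, hz.symm _ _ ((hz.cp c2 p c f3 hp k3 k4).2
        (hb.dC.trans _ _ _ f3 f1 k3 f4 f2)), hz.cc _ _ hu f3⟩
      rintro rfl
      exact hb.dC.irrefl _ f3 f4
    · exact ⟨c1, h, d (nC f1) hp, hz.symm _ _ ((hz.cp c1 p c f1 hp k3 k4).2 f2),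
        hz.cc _ _ hu f1⟩

/-- points of different rows or columns are incomparable -/
theorem nm_pp (hz : CRep γ z) (hb : Base γ) (hf : ∀ r c, γ.R r → γ.C c → ∃ p, γ.Fib r c p)
    {p q r c r' c' : ℕ} (hp : γ.P p) (hq : γ.P q) (hr : γ.R r) (i1 : γ.iR p r) (hc : γ.C c)
    (i2 : γ.iC p c) (hr' : γ.R r') (i3 : γ.iR q r') (hc' : γ.C c') (i4 : γ.iC q c')
    (hne : ¬ (r = r' ∧ c = c')) : NV z p q := by
  have d : ∀ {u v}, ¬ γ.P u → γ.P v → u ≠ v := fun h h' e => h (e ▸ h')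
  have nR : ∀ {u}, γ.R u → ¬ γ.P u := fun h h' => h'.1 h
  have nC : ∀ {u}, γ.C u → ¬ γ.P u := fun h h' => h'.2 h
  have lR := hb.dR.irrefl
  have lC := hb.dC.irrefl
  have uR : ∀ {p r r'}, γ.P p → γ.R r → γ.R r' → γ.iR p r → γ.iR p r' → r = r' := by
    intro p r r' h1 h2 h3 h4 h5
    obtain ⟨s, -, -, h⟩ := hb.rR p h1
    exact (h r h2 h4).trans (h r' h3 h5).symm
  have uC : ∀ {p r r'}, γ.P p → γ.C r → γ.C r' → γ.iC p r → γ.iC p r' → r = r' := by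
    intro p r r' h1 h2 h3 h4 h5
    obtain ⟨s, -, -, h⟩ := hb.rC p h1
    exact (h r h2 h4).trans (h r' h3 h5).symm
  -- a row smaller than the other one
  have wr : ∀ {p q r c r' c'}, γ.P p → γ.P q → γ.R r → γ.iR p r → γ.C c → γ.iC p c → γ.R r' →
      γ.iR q r' → γ.C c' → γ.iC q c' → γ.lt r r' → ∃ w, w ≠ p ∧ w ≠ q ∧ z p w ∧ ¬ z q w := by
    intro p q r c r' c' hp hq hr i1 hc i2 hr' i3 hc' i4 hl
    refine ⟨r, d (nR hr) hp, d (nR hr) hq, hz.symm _ _ ((hz.rp r p r hr hp hr i1).2 (Or.inl rfl)),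
      fun h => ?_⟩
    rcases (hz.rp r q r' hr hq hr' i3).1 (hz.symm _ _ h) with rfl | h'
    · exact lR _ hr hl
    · exact lR _ hr (hb.dR.trans _ _ _ hr hr' hr hl h')
  have wc : ∀ {p q r c r' c'}, γ.P p → γ.P q → γ.R r → γ.iR p r → γ.C c → γ.iC p c → γ.R r' →
      γ.iR q r' → γ.C c' → γ.iC q c' → γ.lt c c' → ∃ w, w ≠ p ∧ w ≠ q ∧ z q w ∧ ¬ z p w := by
    intro p q r c r' c' hp hq hr i1 hc i2 hr' i3 hc' i4 hl
    refine ⟨c, d (nC hc) hp, d (nC hc) hq, hz.symm _ _ ((hz.cp c q c' hc hq hc' i4).2 hl),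
      fun h => ?_⟩
    exact lC _ hc ((hz.cp c p c hc hp hc i2).1 (hz.symm _ _ h))
  -- rows at most equal and columns at least equal
  have key : ∀ {p q r c r' c'}, γ.P p → γ.P q → γ.R r → γ.iR p r → γ.C c → γ.iC p c → γ.R r' →
      γ.iR q r' → γ.C c' → γ.iC q c' → (r = r' ∧ γ.lt c' c) ∨ (γ.lt r r' ∧ (c = c' ∨ γ.lt c' c)) →
      ∃ w, w ≠ p ∧ w ≠ q ∧ z q w ∧ ¬ z p w := by
    intro p q r c r' c' hp hq hr i1 hc i2 hr' i3 hc' i4 hl
    rcases hl with ⟨rfl, h2⟩ | ⟨h1, h2⟩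
    · -- a point above, in the column `c`
      obtain ⟨r1, e1, e2⟩ := hb.dR.above r hr
      obtain ⟨w, w1, w2, w3⟩ := hf r1 c e1 hc
      have n1 : w ≠ p := by
        rintro rfl
        have := uR hp hr e1 i1 w2
        subst this
        exact lR _ hr e2
      have n2 : w ≠ q := by
        rintro rfl
        have := uR hq hr e1 i3 w2
        subst this
        exact lR _ hr e2
      refine ⟨w, n1, n2, (hz.pp q w r c' r1 c hq w1 hr i3 hc' i4 e1 w2 hc w3).2 (Or.inl ⟨e2, h2⟩),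
        fun h => ?_⟩
      rcases (hz.pp p w r c r1 c hp w1 hr i1 hc i2 e1 w2 hc w3).1 h with ⟨-, h⟩ | ⟨-, h⟩
      · exact lC _ hc h
      · exact lC _ hc h
    · -- a point below, in the row `r`
      obtain ⟨c1, e1, e2⟩ := hb.dC.below c' hc'
      obtain ⟨w, w1, w2, w3⟩ := hf r c1 hr e1
      have n2 : w ≠ q := by
        rintro rfl
        have := uR hq hr hr' w2 i3
        subst this
        exact lR _ hr h1
      have n1 : w ≠ p := by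
        rintro rfl
        have := uC hp hc e1 i2 w3
        subst this
        rcases h2 with rfl | h2
        · exact lC _ hc e2
        · exact lC _ hc (hb.dC.trans _ _ _ hc hc' hc e2 h2)
      refine ⟨w, n1, n2, (hz.pp q w r' c' r c1 hq w1 hr' i3 hc' i4 hr w2 e1 w3).2
        (Or.inr ⟨h1, e2⟩), fun h => ?_⟩
      rcases (hz.pp p w r c r c1 hp w1 hr i1 hc i2 hr w2 e1 w3).1 h with ⟨h, -⟩ | ⟨h, -⟩
      · exact lR _ hr h
      · exact lR _ hr h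
  have main : ∀ {p q r c r' c'}, γ.P p → γ.P q → γ.R r → γ.iR p r → γ.C c → γ.iC p c → γ.R r' →
      γ.iR q r' → γ.C c' → γ.iC q c' → (r = r' ∧ γ.lt c' c) ∨ γ.lt r r' → NV z p q := by
    intro p q r c r' c' hp hq hr i1 hc i2 hr' i3 hc' i4 hl
    rcases hl with ⟨h1, h2⟩ | h1
    · obtain ⟨w, w1, w2, w3, w4⟩ := wc hq hp hr' i3 hc' i4 hr i1 hc i2 h2
      exact ⟨⟨w, w2, w1, w3, w4⟩, key hp hq hr i1 hc i2 hr' i3 hc' i4 (Or.inl ⟨h1, h2⟩)⟩
    · refine ⟨wr hp hq hr i1 hc i2 hr' i3 hc' i4 h1, ?_⟩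
      by_cases h2 : c = c'
      · exact key hp hq hr i1 hc i2 hr' i3 hc' i4 (Or.inr ⟨h1, Or.inl h2⟩)
      · rcases hb.dC.total c c' hc hc' h2 with h3 | h3
        · exact wc hp hq hr i1 hc i2 hr' i3 hc' i4 h3
        · exact key hp hq hr i1 hc i2 hr' i3 hc' i4 (Or.inr ⟨h1, Or.inr h3⟩)
  by_cases h1 : r = r'
  · have h2 : c ≠ c' := fun h => hne ⟨h1, h⟩
    rcases hb.dC.total c c' hc hc' h2 with h3 | h3
    · exact (main hq hp hr' i3 hc' i4 hr i1 hc i2 (Or.inl ⟨h1.symm, h3⟩)).symm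
    · exact main hp hq hr i1 hc i2 hr' i3 hc' i4 (Or.inl ⟨h1, h3⟩)
  · rcases hb.dR.total r r' hr hr' h1 with h3 | h3
    · exact main hp hq hr i1 hc i2 hr' i3 hc' i4 (Or.inr h3)
    · exact (main hq hp hr' i3 hc' i4 hr i1 hc i2 (Or.inr h3)).symm

theorem pm_iff (hz : CRep γ z) (hb : Base γ) (hr0 : ∃ r, γ.R r) (hc0 : ∃ c, γ.C c)
    (hf : ∀ r c, γ.R r → γ.C c → ∃ p, γ.Fib r c p) (u : ℕ) : PM z u ↔ γ.P u := by
  have d : ∀ {u v}, ¬ γ.P u → γ.P v → v ≠ u := fun h h' e => h (e ▸ h')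
  have nR : ∀ {u}, γ.R u → ¬ γ.P u := fun h h' => h'.1 h
  have nC : ∀ {u}, γ.C u → ¬ γ.P u := fun h h' => h'.2 h
  constructor
  · intro h
    rcases cases3 γ u with hu | hu | hu
    · exfalso
      obtain ⟨r1, e1, e2⟩ := hb.dR.above u hu
      obtain ⟨c, hc⟩ := hc0
      obtain ⟨p, p1, p2, p3⟩ := hf r1 c e1 hc
      have := (h r1 (cm_rr hz hb hu e1 e2) p (d (nR hu) p1) (d (nR e1) p1)).2
        ((hz.rp r1 p r1 e1 p1 e1 p2).2 (Or.inl rfl))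
      rcases (hz.rp u p r1 hu p1 e1 p2).1 this with rfl | h'
      · exact hb.dR.irrefl _ hu e2
      · exact hb.dR.irrefl _ hu (hb.dR.trans _ _ _ hu e1 hu e2 h')
    · exfalso
      obtain ⟨c1, e1, e2⟩ := hb.dC.above u hu
      obtain ⟨r, hr⟩ := hr0
      obtain ⟨p, p1, p2, p3⟩ := hf r c1 hr e1
      have := (h c1 (cm_cc hz hb hu e1 e2) p (d (nC hu) p1) (d (nC e1) p1)).1
        ((hz.cp u p c1 hu p1 e1 p3).2 e2)
      exact hb.dC.irrefl _ e1 ((hz.cp c1 p c1 e1 p1 e1 p3).1 this)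
    · exact hu
  · intro hu v hv w hwu hwv
    obtain ⟨r, k1, k2, k2'⟩ := hb.rR u hu
    obtain ⟨c, k3, k4, k4'⟩ := hb.rC u hu
    rcases cases3 γ v with h1 | h1 | h1
    · exact absurd (nm_rp hz hb h1 hu).symm hv
    · exact absurd (nm_cp hz hb h1 hu).symm hv
    · obtain ⟨r', l1, l2, -⟩ := hb.rR v h1
      obtain ⟨c', l3, l4, -⟩ := hb.rC v h1
      have he : r = r' ∧ c = c' := by
        by_contra hne
        exact hv (nm_pp hz hb hf hu h1 k1 k2 k3 k4 l1 l2 l3 l4 hne)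
      obtain ⟨rfl, rfl⟩ := he
      rcases cases3 γ w with h2 | h2 | h2
      · have e1 := hz.rp w u r h2 hu k1 k2
        have e2 := hz.rp w v r h2 h1 k1 l2
        exact ⟨fun h => hz.symm _ _ (e2.2 (e1.1 (hz.symm _ _ h))),
          fun h => hz.symm _ _ (e1.2 (e2.1 (hz.symm _ _ h)))⟩
      · have e1 := hz.cp w u c h2 hu k3 k4
        have e2 := hz.cp w v c h2 h1 k3 l4
        exact ⟨fun h => hz.symm _ _ (e2.2 (e1.1 (hz.symm _ _ h))),
          fun h => hz.symm _ _ (e1.2 (e2.1 (hz.symm _ _ h)))⟩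
      · obtain ⟨r', m1, m2, -⟩ := hb.rR w h2
        obtain ⟨c', m3, m4, -⟩ := hb.rC w h2
        rw [hz.pp u w r c r' c' hu h2 k1 k2 k3 k4 m1 m2 m3 m4,
          hz.pp v w r c r' c' h1 h2 k1 l2 k3 l4 m1 m2 m3 m4]

theorem zc_arep (hz : CRep γ z) (hb : Base γ) (hr0 : ∃ r, γ.R r) (hc0 : ∃ c, γ.C c)
    (hf : ∀ r c, γ.R r → γ.C c → ∃ p, γ.Fib r c p) : ARep False False True False γ (zc z) := by
  have nR : ∀ {u}, γ.R u → ¬ γ.P u := fun h h' => h'.1 h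
  have nC : ∀ {u}, γ.C u → ¬ γ.P u := fun h h' => h'.2 h
  have e : ∀ u v, zc z u v ↔ (z u v ∧ ¬ (γ.P u ∧ γ.P v)) := fun u v => by
    unfold zc
    rw [pm_iff hz hb hr0 hc0 hf, pm_iff hz hb hr0 hc0 hf]
  refine ⟨?_, ?_, ?_, ?_, ?_, ?_, ?_⟩
  · intro u v h
    rw [e] at h ⊢
    exact ⟨hz.symm _ _ h.1, fun h' => h.2 ⟨h'.2, h'.1⟩⟩
  · intro u p r hu hp hr hi
    rw [e, hz.rp u p r hu hp hr hi]
    exact and_iff_left fun h => nR hu h.1
  · intro u p r hu hp hr hi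
    rw [e, hz.cp u p r hu hp hr hi]
    exact and_iff_left fun h => nC hu h.1
  · intro u v hu hv
    rw [e]
    exact ⟨fun h => absurd h.1 (hz.rr u v hu hv), fun h => h.1.elim⟩
  · intro u v hu hv
    rw [e]
    exact ⟨fun h => absurd h.1 (hz.cc u v hu hv), fun h => h.1.elim⟩
  · intro u v hu hv
    rw [e]
    exact ⟨fun _ => trivial, fun _ => ⟨hz.rc u v hu hv, fun h => nR hu h.1⟩⟩
  · intro u v hu hv
    rw [e]
    exact ⟨fun h => absurd ⟨hu, hv⟩ h.2, fun h => h.1.elim⟩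

end dec

section equi

variable {σ : Equiv.Perm ℕ} {y z : ℕ → ℕ → Prop}

theorem PM_equi (h : ∀ u v, y u v ↔ z (σ u) (σ v)) (u : ℕ) : PM y u ↔ PM z (σ u) :=
  σ.forall_congr fun _ => imp_congr (not_congr (NV_equi h _ _)) (σ.forall_congr fun _ =>
    imp_congr (not_congr σ.injective.eq_iff.symm) (imp_congr (not_congr σ.injective.eq_iff.symm)
      (iff_congr (h _ _) (h _ _))))

theorem zc_equi (h : ∀ u v, y u v ↔ z (σ u) (σ v)) (u v : ℕ) : zc y u v ↔ zc z (σ u) (σ v) :=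
  and_congr (h _ _) (not_congr (and_congr (PM_equi h _) (PM_equi h _)))

end equi

section meas

variable {Y : Type} [MeasurableSpace Y] {r : ℕ → ℕ → Y → Prop}

theorem bp_PM (h : ∀ u v, BP (r u v)) (u : ℕ) : BP (fun y => PM (fun u v => r u v y) u) :=
  BP.all fun v => (bp_NV h u v).not.imp <| BP.all fun w => (BP.const (w ≠ u)).imp <|
    (BP.const (w ≠ v)).imp <| (h u w).iff (h v w)

theorem bp_zc (h : ∀ u v, BP (r u v)) (u v : ℕ) : BP (fun y => zc (fun u v => r u v y) u v) :=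
  (h u v).and ((bp_PM h u).and (bp_PM h v)).not

theorem bp_crep {D : Y → Grid ℕ} (hD : MG D) (h : ∀ u v, BP (r u v)) :
    BP (fun y => CRep (D y) (fun u v => r u v y)) := by
  have : BP (fun y =>
      (∀ u v, r u v y → r v u y) ∧
      (∀ u p w, (D y).R u → (D y).P p → (D y).R w → (D y).iR p w →
        (r u p y ↔ (w = u ∨ (D y).lt w u))) ∧
      (∀ u p w, (D y).C u → (D y).P p → (D y).C w → (D y).iC p w →
        (r u p y ↔ (D y).lt u w)) ∧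
      (∀ u v, (D y).R u → (D y).R v → ¬ r u v y) ∧
      (∀ u v, (D y).C u → (D y).C v → ¬ r u v y) ∧
      (∀ u v, (D y).R u → (D y).C v → r u v y) ∧
      (∀ u v s c s' c', (D y).P u → (D y).P v → (D y).R s → (D y).iR u s → (D y).C c →
        (D y).iC u c → (D y).R s' → (D y).iR v s' → (D y).C c' → (D y).iC v c' →
        (r u v y ↔ (((D y).lt s s' ∧ (D y).lt c c') ∨ ((D y).lt s' s ∧ (D y).lt c' c))))) :=
    (BP.all fun u => BP.all fun v => (h u v).imp (h v u)).and <|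
    (BP.all fun u => BP.all fun p => BP.all fun w => (hD.R u).imp <| (hD.P p).imp <|
      (hD.R w).imp <| (hD.iR p w).imp <| (h u p).iff ((BP.const (w = u)).or (hD.lt w u))).and <|
    (BP.all fun u => BP.all fun p => BP.all fun w => (hD.C u).imp <| (hD.P p).imp <|
      (hD.C w).imp <| (hD.iC p w).imp <| (h u p).iff (hD.lt u w)).and <|
    (BP.all fun u => BP.all fun v => (hD.R u).imp <| (hD.R v).imp (h u v).not).and <|
    (BP.all fun u => BP.all fun v => (hD.C u).imp <| (hD.C v).imp (h u v).not).and <|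
    (BP.all fun u => BP.all fun v => (hD.R u).imp <| (hD.C v).imp (h u v)).and <|
    BP.all fun u => BP.all fun v => BP.all fun s => BP.all fun c => BP.all fun s' =>
      BP.all fun c' => (hD.P u).imp <| (hD.P v).imp <| (hD.R s).imp <| (hD.iR u s).imp <|
      (hD.C c).imp <| (hD.iC u c).imp <| (hD.R s').imp <| (hD.iR v s').imp <| (hD.C c').imp <|
      (hD.iC v c').imp <| (h u v).iff
        (((hD.lt s s').and (hD.lt c c')).or ((hD.lt s' s).and (hD.lt c' c)))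
  exact this.congr fun y => ⟨fun ⟨h1, h2, h3, h4, h5, h6, h7⟩ => ⟨h1, h2, h3, h4, h5, h6, h7⟩,
    fun ⟨h1, h2, h3, h4, h5, h6, h7⟩ => ⟨h1, h2, h3, h4, h5, h6, h7⟩⟩

end meas

section transport

variable {γ δ : Grid ℕ} {σ : Equiv.Perm ℕ} {y z : ℕ → ℕ → Prop}

theorem CRep.map (h : GIso σ γ δ) (hyz : ∀ u v, y u v ↔ z (σ u) (σ v)) (hy : CRep γ y) :
    CRep δ z := by
  have ex : ∀ v, ∃ u, σ u = v := fun v => ⟨σ.symm v, σ.apply_symm_apply v⟩
  refine ⟨?_, ?_, ?_, ?_, ?_, ?_, ?_⟩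
  · intro u v
    obtain ⟨u, rfl⟩ := ex u
    obtain ⟨v, rfl⟩ := ex v
    rw [← hyz, ← hyz]
    exact hy.symm u v
  · intro u p r hu hp hr hi
    obtain ⟨u, rfl⟩ := ex u
    obtain ⟨p, rfl⟩ := ex p
    obtain ⟨r, rfl⟩ := ex r
    have hu' := (h.R u).2 hu
    have hp' := (h.P p).2 hp
    have hr' := (h.R r).2 hr
    rw [← hyz, hy.rp u p r hu' hp' hr' ((h.iR p r hp' hr').2 hi), h.lR r u hr' hu',
      σ.injective.eq_iff]
  · intro u p r hu hp hr hi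
    obtain ⟨u, rfl⟩ := ex u
    obtain ⟨p, rfl⟩ := ex p
    obtain ⟨r, rfl⟩ := ex r
    have hu' := (h.C u).2 hu
    have hp' := (h.P p).2 hp
    have hr' := (h.C r).2 hr
    rw [← hyz, hy.cp u p r hu' hp' hr' ((h.iC p r hp' hr').2 hi), h.lC u r hu' hr']
  · intro u v hu hv
    obtain ⟨u, rfl⟩ := ex u
    obtain ⟨v, rfl⟩ := ex v
    rw [← hyz]
    exact hy.rr u v ((h.R u).2 hu) ((h.R v).2 hv)
  · intro u v hu hv
    obtain ⟨u, rfl⟩ := ex u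
    obtain ⟨v, rfl⟩ := ex v
    rw [← hyz]
    exact hy.cc u v ((h.C u).2 hu) ((h.C v).2 hv)
  · intro u v hu hv
    obtain ⟨u, rfl⟩ := ex u
    obtain ⟨v, rfl⟩ := ex v
    rw [← hyz]
    exact hy.rc u v ((h.R u).2 hu) ((h.C v).2 hv)
  · intro u v r c r' c' hu hv hr i1 hc i2 hr' i3 hc' i4
    obtain ⟨u, rfl⟩ := ex u
    obtain ⟨v, rfl⟩ := ex v
    obtain ⟨r, rfl⟩ := ex r
    obtain ⟨c, rfl⟩ := ex c
    obtain ⟨r', rfl⟩ := ex r'
    obtain ⟨c', rfl⟩ := ex c'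
    have ku := (h.P u).2 hu
    have kv := (h.P v).2 hv
    have kr := (h.R r).2 hr
    have kc := (h.C c).2 hc
    have kr' := (h.R r').2 hr'
    have kc' := (h.C c').2 hc'
    rw [← hyz, hy.pp u v r c r' c' ku kv kr ((h.iR _ _ ku kr).2 i1) kc ((h.iC _ _ ku kc).2 i2) kr'
      ((h.iR _ _ kv kr').2 i3) kc' ((h.iC _ _ kv kc').2 i4), h.lR _ _ kr kr', h.lR _ _ kr' kr,
      h.lC _ _ kc kc', h.lC _ _ kc' kc]

theorem CRep.iso (hb : Base γ) (h : GIso σ γ δ) (hy : CRep γ y)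
    (hz : CRep δ z) (u v : ℕ) : y u v ↔ z (σ u) (σ v) := by
  have sy : ∀ u v, y u v ↔ y v u := fun u v => ⟨hy.symm u v, hy.symm v u⟩
  have sz : ∀ u v, z u v ↔ z v u := fun u v => ⟨hz.symm u v, hz.symm v u⟩
  have k1 : ∀ u v, γ.R u → γ.P v → (y u v ↔ z (σ u) (σ v)) := by
    intro u v hu hv
    obtain ⟨r, h1, h2, -⟩ := hb.rR v hv
    rw [hy.rp u v r hu hv h1 h2, hz.rp _ _ (σ r) ((h.R u).1 hu) ((h.P v).1 hv) ((h.R r).1 h1)
      ((h.iR v r hv h1).1 h2), h.lR r u h1 hu, σ.injective.eq_iff]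
  have k2 : ∀ u v, γ.C u → γ.P v → (y u v ↔ z (σ u) (σ v)) := by
    intro u v hu hv
    obtain ⟨r, h1, h2, -⟩ := hb.rC v hv
    rw [hy.cp u v r hu hv h1 h2, hz.cp _ _ (σ r) ((h.C u).1 hu) ((h.P v).1 hv) ((h.C r).1 h1)
      ((h.iC v r hv h1).1 h2), h.lC u r hu h1]
  have k3 : ∀ u v, γ.R u → γ.C v → (y u v ↔ z (σ u) (σ v)) := fun u v hu hv =>
    ⟨fun _ => hz.rc _ _ ((h.R u).1 hu) ((h.C v).1 hv), fun _ => hy.rc u v hu hv⟩
  rcases cases3 γ u with hu | hu | hu <;> rcases cases3 γ v with hv | hv | hv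
  · exact iff_of_false (hy.rr u v hu hv) (hz.rr _ _ ((h.R u).1 hu) ((h.R v).1 hv))
  · exact k3 u v hu hv
  · exact k1 u v hu hv
  · rw [sy, sz]
    exact k3 v u hv hu
  · exact iff_of_false (hy.cc u v hu hv) (hz.cc _ _ ((h.C u).1 hu) ((h.C v).1 hv))
  · exact k2 u v hu hv
  · rw [sy, sz]
    exact k1 v u hv hu
  · rw [sy, sz]
    exact k2 v u hv hu
  · obtain ⟨r, h1, h2, -⟩ := hb.rR u hu
    obtain ⟨c, h3, h4, -⟩ := hb.rC u hu
    obtain ⟨r', h5, h6, -⟩ := hb.rR v hv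
    obtain ⟨c', h7, h8, -⟩ := hb.rC v hv
    rw [hy.pp u v r c r' c' hu hv h1 h2 h3 h4 h5 h6 h7 h8,
      hz.pp _ _ (σ r) (σ c) (σ r') (σ c') ((h.P u).1 hu) ((h.P v).1 hv) ((h.R _).1 h1)
      ((h.iR _ _ hu h1).1 h2) ((h.C _).1 h3) ((h.iC _ _ hu h3).1 h4) ((h.R _).1 h5)
      ((h.iR _ _ hv h5).1 h6) ((h.C _).1 h7) ((h.iC _ _ hv h7).1 h8),
      h.lR _ _ h1 h5, h.lR _ _ h5 h1, h.lC _ _ h3 h7, h.lC _ _ h7 h3]

/-- the graph of a grid -/
def cr (γ : Grid ℕ) (u v : ℕ) : Prop :=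
  (∃ r, γ.R u ∧ γ.P v ∧ γ.R r ∧ γ.iR v r ∧ (r = u ∨ γ.lt r u)) ∨
  (∃ r, γ.R v ∧ γ.P u ∧ γ.R r ∧ γ.iR u r ∧ (r = v ∨ γ.lt r v)) ∨
  (∃ c, γ.C u ∧ γ.P v ∧ γ.C c ∧ γ.iC v c ∧ γ.lt u c) ∨
  (∃ c, γ.C v ∧ γ.P u ∧ γ.C c ∧ γ.iC u c ∧ γ.lt v c) ∨
  (γ.R u ∧ γ.C v) ∨ (γ.C u ∧ γ.R v) ∨
  (∃ r c r' c', γ.P u ∧ γ.P v ∧ γ.R r ∧ γ.iR u r ∧ γ.C c ∧ γ.iC u c ∧ γ.R r' ∧ γ.iR v r' ∧
    γ.C c' ∧ γ.iC v c' ∧ ((γ.lt r r' ∧ γ.lt c c') ∨ (γ.lt r' r ∧ γ.lt c' c)))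

theorem cr_rep (hb : Base γ) : CRep γ (cr γ) := by
  have nR : ∀ {u}, γ.R u → ¬ γ.P u := fun h h' => h'.1 h
  have nC : ∀ {u}, γ.C u → ¬ γ.P u := fun h h' => h'.2 h
  have nRC : ∀ {u}, γ.R u → ¬ γ.C u := fun h => hb.disj _ h
  have nCR : ∀ {u}, γ.C u → ¬ γ.R u := fun h h' => hb.disj _ h' h
  have uR : ∀ {p r r'}, γ.P p → γ.R r → γ.iR p r → γ.R r' → γ.iR p r' → r = r' := by
    intro p r r' h1 h2 h4 h3 h5
    obtain ⟨s, -, -, h⟩ := hb.rR p h1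
    exact (h r h2 h4).trans (h r' h3 h5).symm
  have uC : ∀ {p r r'}, γ.P p → γ.C r → γ.iC p r → γ.C r' → γ.iC p r' → r = r' := by
    intro p r r' h1 h2 h4 h3 h5
    obtain ⟨s, -, -, h⟩ := hb.rC p h1
    exact (h r h2 h4).trans (h r' h3 h5).symm
  refine ⟨?_, ?_, ?_, ?_, ?_, ?_, ?_⟩
  · rintro u v (h | h | h | h | h | h | ⟨r, c, r', c', h1, h2, h3, h4, h5, h6, h7, h8, h9, h10, h⟩)
    · exact Or.inr (Or.inl h)
    · exact Or.inl h
    · exact Or.inr (Or.inr (Or.inr (Or.inl h)))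
    · exact Or.inr (Or.inr (Or.inl h))
    · exact Or.inr (Or.inr (Or.inr (Or.inr (Or.inr (Or.inl ⟨h.2, h.1⟩)))))
    · exact Or.inr (Or.inr (Or.inr (Or.inr (Or.inl ⟨h.2, h.1⟩))))
    · exact Or.inr (Or.inr (Or.inr (Or.inr (Or.inr (Or.inr
        ⟨r', c', r, c, h2, h1, h7, h8, h9, h10, h3, h4, h5, h6, h.symm⟩)))))
  · intro u p r hu hp hr hi
    constructor
    · rintro (⟨s, -, -, h1, h2, h⟩ | ⟨s, h, -⟩ | ⟨s, h, -⟩ | ⟨s, h, -⟩ | h | h |
        ⟨r, c, r', c', h, -⟩)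
      · rw [uR hp hr hi h1 h2]
        exact h
      · exact absurd hp (nR h)
      · exact absurd h (nRC hu)
      · exact absurd hp (nC h)
      · exact absurd hp (nC h.2)
      · exact absurd h.1 (nRC hu)
      · exact absurd h (nR hu)
    · exact fun h => Or.inl ⟨r, hu, hp, hr, hi, h⟩
  · intro u p r hu hp hr hi
    constructor
    · rintro (⟨s, h, -⟩ | ⟨s, h, -⟩ | ⟨s, -, -, h1, h2, h⟩ | ⟨s, h, -⟩ | h | h |
        ⟨r, c, r', c', h, -⟩)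
      · exact absurd h (nCR hu)
      · exact absurd hp (nR h)
      · rw [uC hp hr hi h1 h2]
        exact h
      · exact absurd hp (nC h)
      · exact absurd h.1 (nCR hu)
      · exact absurd hp (nR h.2)
      · exact absurd h (nC hu)
    · exact fun h => Or.inr (Or.inr (Or.inl ⟨r, hu, hp, hr, hi, h⟩))
  · rintro u v hu hv (⟨s, -, h, -⟩ | ⟨s, -, h, -⟩ | ⟨s, h, -⟩ | ⟨s, h, -⟩ | h | h |
        ⟨r, c, r', c', h, -⟩)
    · exact nR hv h
    · exact nR hu h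
    · exact nRC hu h
    · exact nRC hv h
    · exact nRC hv h.2
    · exact nRC hu h.1
    · exact nR hu h
  · rintro u v hu hv (⟨s, h, -⟩ | ⟨s, h, -⟩ | ⟨s, -, h, -⟩ | ⟨s, -, h, -⟩ | h | h |
        ⟨r, c, r', c', h, -⟩)
    · exact nCR hu h
    · exact nCR hv h
    · exact nC hv h
    · exact nC hu h
    · exact nCR hu h.1
    · exact nCR hv h.2
    · exact nC hu h
  · exact fun u v hu hv => Or.inr (Or.inr (Or.inr (Or.inr (Or.inl ⟨hu, hv⟩))))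
  · intro u v r c r' c' hu hv hr i1 hc i2 hr' i3 hc' i4
    constructor
    · rintro (⟨s, h, -⟩ | ⟨s, h, -⟩ | ⟨s, h, -⟩ | ⟨s, h, -⟩ | h | h |
        ⟨s, d, s', d', -, -, h3, h4, h5, h6, h7, h8, h9, h10, h⟩)
      · exact absurd hu (nR h)
      · exact absurd hv (nR h)
      · exact absurd hu (nC h)
      · exact absurd hv (nC h)
      · exact absurd hu (nR h.1)
      · exact absurd hu (nC h.1)
      · rw [uR hu hr i1 h3 h4, uC hu hc i2 h5 h6, uR hv hr' i3 h7 h8, uC hv hc' i4 h9 h10]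
        exact h
    · exact fun h => Or.inr (Or.inr (Or.inr (Or.inr (Or.inr (Or.inr
        ⟨r, c, r', c', hu, hv, hr, i1, hc, i2, hr', i3, hc', i4, h⟩)))))

end transport

/-- decoding of graphs -/
def DC (y : BinStr) : Grid ℕ := mkA (zc (fun u v => y u v = true))

/-- the graph is represented by its grid -/
def WC (y : BinStr) : Prop := CRep (DC y) (fun u v => y u v = true)

theorem DC_equi {σ : Equiv.Perm ℕ} {y z : BinStr}
    (h : ∀ m n, z (σ m) (σ n) = y m n) : GIso σ (DC y) (DC z) :=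
  mkA_equi (zc_equi (fun u v => by rw [h]))

theorem mg_DC : MG DC :=
  mg_mkA (r := fun u v (y : BinStr) => zc (fun u v => y u v = true) u v) (bp_zc bp_atom)

/-- grids can be described in permutation graphs -/
theorem target_C (K : BinStr → Prop)
    (hK : ∀ γ : Grid ℕ, Base γ → ∀ y : BinStr, CRep γ (fun u v => y u v = true) → K y) :
    Target BIso K DC WC where
  symm _ _ h := h.symm
  mg := mg_DC
  mW := bp_crep mg_DC bp_atom
  inv := by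
    rintro y z ⟨σ, h⟩ h1
    exact h1.map (DC_equi h) (fun u v => by rw [h])
  iso := by
    rintro y z ⟨σ, h⟩
    exact ⟨σ, DC_equi h⟩
  iso' := by
    rintro y z h1 h3 hb hb' ⟨σ, h⟩
    refine ⟨σ, fun m n => ?_⟩
    rw [Bool.eq_iff_iff]
    exact (CRep.iso hb h h1 h3 m n).symm
  ex := by
    classical
    intro γ hb hr0 hc0 hf _
    let y : BinStr := fun u v => decide (cr γ u v)
    have hy : (fun u v => y u v = true) = cr γ := by
      funext u v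
      simp [y]
    have h1 : CRep γ (fun u v => y u v = true) := by rw [hy]; exact cr_rep hb
    have h5 : GIso (Equiv.refl ℕ) γ (DC y) :=
      mkA_iso hb hr0 hc0 hf (zc_arep h1 hb hr0 hc0 hf)
    exact ⟨y, h1.map h5 (fun _ _ => Iff.rfl), h5⟩
  cls y hW hb := hK _ hb y hW

end Pool.Agent.Run7.h653.MD
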