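import Pool.Agent.Run7.h653.MD.Cross
import Pool.Agent.Run7.h653.MD.Half3

/-!
Graphs on the natural numbers inside crossings over the rational numbers; isolated vertices.
-/

set_option autoImplicit false

namespace Pool.Agent.Run7.h653.MD

open Pool.Agent.W889.VC
open Set

/-- the graph is an induced subgraph of a flipped crossing over `ℚ` -/
def InCross (κ : Kind) (r : ℕ) (F : Set (Sym2 (Fin (r + 2)))) (y : BinStr) : Prop :=
  ∃ pos : ℕ → Vtx ℚ r, Function.Injective pos ∧
    ∀ u v, y u v = true ↔ (crossing κ ℚ r F).Adj (pos u) (pos v)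

open Classical in
/-- the flip, as a function on the natural numbers -/
noncomputable def fF (r : ℕ) (F : Set (Sym2 (Fin (r + 2)))) (i j : ℕ) : Bool :=
  decide (∃ (hi : i < r + 2) (hj : j < r + 2), s((⟨i, hi⟩ : Fin (r + 2)), ⟨j, hj⟩) ∈ F)

theorem fF_symm (r : ℕ) (F : Set (Sym2 (Fin (r + 2)))) (i j : ℕ) : fF r F i j = fF r F j i := by
  unfold fF
  rw [decide_eq_decide]
  constructor
  · rintro ⟨hi, hj, h⟩
    exact ⟨hj, hi, by rw [Sym2.eq_swap]; exact h⟩
  · rintro ⟨hi, hj, h⟩
    exact ⟨hj, hi, by rw [Sym2.eq_swap]; exact h⟩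

theorem fF_iff {r : ℕ} {F : Set (Sym2 (Fin (r + 2)))} {i j : ℕ} {a b : Fin (r + 2)}
    (ha : a.val = i) (hb : b.val = j) : fF r F i j = true ↔ s(a, b) ∈ F := by
  classical
  subst ha
  subst hb
  unfold fF
  rw [decide_eq_true_iff]
  constructor
  · rintro ⟨hi, hj, h⟩
    exact h
  · intro h
    exact ⟨a.2, b.2, h⟩

theorem incross_of {κ : Kind} {r : ℕ} {F : Set (Sym2 (Fin (r + 2)))} {s : BinStr} {μ : ℕ → ℕ}
    (pos : ℕ → Vtx ℚ r) (hi : Function.Injective pos) (hl : ∀ u, (pos u).layer.val = μ u)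
    (he : ∀ u v, u ≠ v → (s u v = true ↔ (Edge κ (pos u) (pos v) ∨ Edge κ (pos v) (pos u)))) :
    InCross κ r F (flip (fF r F) s μ) := by
  refine ⟨pos, hi, fun u v => ?_⟩
  unfold flip crossing
  simp only
  by_cases huv : u = v
  · subst huv
    simp
  · rw [if_neg huv, ← he u v huv, ← fF_iff (F := F) (hl u) (hl v)]
    have : pos u ≠ pos v := fun h => huv (hi h)
    cases s u v <;> cases fF r F (μ u) (μ v) <;> simp [Xor, this]

/-- the positions of the isolated vertices -/
def plp (r : ℕ) (μ : ℕ → ℕ) (t : ℕ) : Vtx ℚ r :=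
  if μ t = 0 then .a (2 + t) else if h : 1 ≤ μ t ∧ μ t ≤ r then
    .p (-1 - t) (-1 - t) ⟨μ t - 1, by omega⟩ else .b (2 + t)

/-- the indices are between `0` and `1` -/
def In01 {r : ℕ} (x : Vtx ℚ r) : Prop := x.In (Set.Ioo (0 : ℚ) 1)

theorem no_edge {κ : Kind} {r : ℕ} {μ : ℕ → ℕ} {t v : ℕ} (htv : t ≠ v) {x : Vtx ℚ r}
    (hx : In01 x ∨ x = plp r μ v) : ¬ Edge κ (plp r μ t) x ∧ ¬ Edge κ x (plp r μ t) ∧
      plp r μ t ≠ x := by
  have hq : (t : ℚ) ≠ v := by exact_mod_cast htv
  have ht0 : (0 : ℚ) ≤ t := Nat.cast_nonneg t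
  have hv0 : (0 : ℚ) ≤ v := Nat.cast_nonneg v
  rcases hx with hx | rfl
  · unfold plp
    cases x with
    | a i =>
      have hx' : (0 : ℚ) < i ∧ i < 1 := hx
      split_ifs with h1 h2
      · simp only [Edge, not_false_iff, true_and]
        intro h
        simp only [Vtx.a.injEq] at h
        linarith
      · simp only [Edge, not_false_iff, true_and]
        refine ⟨?_, by simp⟩
        rintro ⟨-, h | ⟨-, h⟩⟩ <;> linarith
      · simp [Edge]
    | b i =>
      have hx' : (0 : ℚ) < i ∧ i < 1 := hx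
      split_ifs with h1 h2
      · simp [Edge]
      · simp only [Edge, not_false_iff, true_and]
        refine ⟨?_, by simp⟩
        rintro ⟨-, h | ⟨-, h⟩⟩ <;> linarith
      · simp only [Edge, not_false_iff, true_and]
        intro h
        simp only [Vtx.b.injEq] at h
        linarith
    | p i j l =>
      have hx1 : (0 : ℚ) < i ∧ i < 1 := hx.1
      have hx2 : (0 : ℚ) < j ∧ j < 1 := hx.2
      split_ifs with h1 h2
      · simp only [Edge, not_false_iff, true_and]
        refine ⟨?_, by simp⟩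
        rintro ⟨-, h | ⟨-, h⟩⟩ <;> linarith
      · simp only [Edge]
        refine ⟨?_, ?_, ?_⟩
        · rintro (⟨h, -⟩ | ⟨-, ⟨-, -, h, -⟩ | ⟨-, -, h, -⟩⟩) <;> linarith
        · rintro (⟨h, -⟩ | ⟨-, ⟨-, -, h, -⟩ | ⟨-, -, h, -⟩⟩) <;> linarith
        · intro h
          simp only [Vtx.p.injEq] at h
          linarith [h.1]
      · simp only [Edge, not_false_iff, true_and]
        refine ⟨?_, by simp⟩
        rintro ⟨-, h | ⟨-, h⟩⟩ <;> linarith
  · unfold plp
    split_ifs with h1 h2 h3 h4 h5 h6 h7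
    all_goals simp only [Edge, not_false_iff, true_and, Ne, Vtx.a.injEq, Vtx.b.injEq,
      Vtx.p.injEq, reduceCtorEq, and_true]
    · intro h
      exact hq (by linarith)
    · rintro ⟨-, h | ⟨-, h⟩⟩ <;> linarith
    · rintro ⟨-, h | ⟨-, h⟩⟩ <;> linarith
    · refine ⟨?_, ?_, ?_⟩
      · rintro (⟨h, -⟩ | ⟨-, ⟨-, -, h, -⟩ | ⟨-, -, h, -⟩⟩) <;> exact hq (by linarith)
      · rintro (⟨h, -⟩ | ⟨-, ⟨-, -, h, -⟩ | ⟨-, -, h, -⟩⟩) <;> exact hq (by linarith)
      · intro h
        exact hq (by linarith [h.1])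
    · rintro ⟨-, h | ⟨-, h⟩⟩ <;> linarith
    · rintro ⟨-, h | ⟨-, h⟩⟩ <;> linarith
    · intro h
      exact hq (by linarith)

/-- positions for the other vertices suffice -/
theorem incross_ext {κ : Kind} {r : ℕ} {F : Set (Sym2 (Fin (r + 2)))} {s : BinStr} {μ : ℕ → ℕ}
    (hs : ∀ u v, s u v = s v u) (hμ : ∀ u, μ u < r + 2) (pos : ℕ → Vtx ℚ r)
    (h01 : ∀ u, ¬ Plain s u → In01 (pos u))
    (hi : ∀ u v, ¬ Plain s u → ¬ Plain s v → pos u = pos v → u = v)
    (hl : ∀ u, ¬ Plain s u → (pos u).layer.val = μ u)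
    (he : ∀ u v, ¬ Plain s u → ¬ Plain s v → u ≠ v →
      (s u v = true ↔ (Edge κ (pos u) (pos v) ∨ Edge κ (pos v) (pos u)))) :
    InCross κ r F (flip (fF r F) s μ) := by
  classical
  let ps : ℕ → Vtx ℚ r := fun u => if Plain s u then plp r μ u else pos u
  have e1 : ∀ u, Plain s u → ps u = plp r μ u := fun u h => if_pos h
  have e2 : ∀ u, ¬ Plain s u → ps u = pos u := fun u h => if_neg h
  have e3 : ∀ u, In01 (ps u) ∨ ps u = plp r μ u := by
    intro u
    by_cases hu : Plain s u
    · exact Or.inr (e1 u hu)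
    · left
      rw [e2 u hu]
      exact h01 u hu
  refine incross_of ps ?_ ?_ ?_
  · intro u v huv
    by_contra hne
    by_cases hu : Plain s u
    · have := (no_edge (κ := κ) hne (e3 v)).2.2
      rw [e1 u hu] at huv
      exact this huv
    · by_cases hv : Plain s v
      · have := (no_edge (κ := κ) (fun h => hne h.symm) (e3 u)).2.2
        rw [e1 v hv] at huv
        exact this huv.symm
      · rw [e2 u hu, e2 v hv] at huv
        exact hne (hi u v hu hv huv)
  · intro u
    by_cases hu : Plain s u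
    · rw [e1 u hu]
      unfold plp
      have := hμ u
      split_ifs with h1 h2
      · rw [h1]
        rfl
      · show μ u - 1 + 1 = μ u
        omega
      · show r + 1 = μ u
        omega
    · rw [e2 u hu]
      exact hl u hu
  · intro u v huv
    by_cases hu : Plain s u
    · have h1 := no_edge (κ := κ) huv (e3 v)
      rw [e1 u hu, hu v]
      constructor
      · intro h
        exact absurd h (by decide)
      · rintro (h | h)
        · exact absurd h h1.1
        · exact absurd h h1.2.1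
    · by_cases hv : Plain s v
      · have h1 := no_edge (κ := κ) (fun h => huv h.symm) (e3 u)
        rw [e1 v hv, hs, hv u]
        constructor
        · intro h
          exact absurd h (by decide)
        · rintro (h | h)
          · exact absurd h h1.2.1
          · exact absurd h h1.1
      · rw [e2 u hu, e2 v hv]
        exact he u v hu hv huv

end Pool.Agent.Run7.h653.MD
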