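import Pool.Agent.Run7.h653.MD.Pos
import Pool.Agent.W889.VC.TD

/-!
Flipped half-graph crossings with paths of length at least two are faithfully complete.
-/

set_option autoImplicit false

namespace Pool.Agent.Run7.h653.MD

open Pool.Agent.W889.VC
open Pool.Agent.W889.VC.Grid
open Set

theorem ord_emb01 {S : Type} [Countable S] (r : S → S → Prop) (h1 : ∀ a, ¬ r a a)
    (h2 : ∀ a b c, r a b → r b c → r a c) (h3 : ∀ a b, a ≠ b → r a b ∨ r b a) :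
    ∃ f : S → ℚ, (∀ a, f a ∈ Set.Ioo (0 : ℚ) 1) ∧ ∀ a b, f a < f b ↔ r a b := by
  obtain ⟨f, hf⟩ := ord_emb r h1 h2 h3
  have : Countable (Set.range f) := (Set.countable_range f).to_subtype
  have hn : Nontrivial (Set.Ioo (0 : ℚ) 1) :=
    ⟨⟨1 / 2, by norm_num, by norm_num⟩, ⟨1 / 3, by norm_num, by norm_num⟩, by
      intro h
      have := congrArg Subtype.val h
      norm_num at this⟩
  obtain ⟨e⟩ := Order.embedding_from_countable_to_dense (Set.range f) (Set.Ioo (0 : ℚ) 1)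
  refine ⟨fun a => (e ⟨f a, a, rfl⟩).1, fun a => (e ⟨f a, a, rfl⟩).2, fun a b => ?_⟩
  rw [hf a b]
  exact e.lt_iff_lt

/-- many copies of a linear order, reversed -/
theorem exists_idx {S : ℕ → Prop} {lt : ℕ → ℕ → Prop} (h : On S lt) :
    ∃ D : ℕ → ℕ → ℚ, (∀ u m, D u m ∈ Set.Ioo (0 : ℚ) 1) ∧
      ∀ u v m n, S u → S v → (D u m < D v n ↔ (lt v u ∨ (u = v ∧ m < n))) := by
  classical
  obtain ⟨f, hf, hf'⟩ := ord_emb01 (S := {u : ℕ // S u} × ℕ)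
    (fun a b => lt b.1.1 a.1.1 ∨ (a.1.1 = b.1.1 ∧ a.2 < b.2))
    (fun a => by
      rintro (h1 | ⟨-, h1⟩)
      · exact h.irrefl _ a.1.2 h1
      · omega)
    (fun a b c => by
      rintro (h1 | ⟨h1, h2⟩) (h3 | ⟨h3, h4⟩)
      · exact Or.inl (h.trans _ _ _ c.1.2 b.1.2 a.1.2 h3 h1)
      · exact Or.inl (by rw [← h3]; exact h1)
      · exact Or.inl (by rw [h1]; exact h3)
      · exact Or.inr ⟨h1.trans h3, h2.trans h4⟩)
    (fun a b hab => by
      by_cases h1 : a.1.1 = b.1.1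
      · have h2 : a.2 ≠ b.2 := fun h2 => hab (Prod.ext (Subtype.ext h1) h2)
        rcases lt_or_gt_of_ne h2 with h3 | h3
        · exact Or.inl (Or.inr ⟨h1, h3⟩)
        · exact Or.inr (Or.inr ⟨h1.symm, h3⟩)
      · rcases h.total _ _ a.1.2 b.1.2 h1 with h3 | h3
        · exact Or.inr (Or.inl h3)
        · exact Or.inl (Or.inl h3))
  refine ⟨fun u m => if hu : S u then f (⟨u, hu⟩, m) else 1 / 2, fun u m => ?_,
    fun u v m n hu hv => ?_⟩
  · by_cases hu : S u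
    · simp only [dif_pos hu]
      exact hf _
    · simp only [dif_neg hu]
      exact ⟨by norm_num, by norm_num⟩
  · simp only [dif_pos hu, dif_pos hv]
    exact hf' _ _

/-- indices for the rows and for the columns -/
structure Idx (S : ℕ → Prop) (lt : ℕ → ℕ → Prop) (D : ℕ → ℕ → ℚ) : Prop where
  m : ∀ u m, D u m ∈ Set.Ioo (0 : ℚ) 1
  l : ∀ u v m n, S u → S v → (D u m < D v n ↔ (lt v u ∨ (u = v ∧ m < n)))

theorem Idx.eq {S : ℕ → Prop} {lt : ℕ → ℕ → Prop} {D : ℕ → ℕ → ℚ} (h : Idx S lt D)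
    (hS : On S lt) {u v m n : ℕ} (hu : S u) (hv : S v) (e : D u m = D v n) : u = v ∧ m = n := by
  have h1 : ¬ D u m < D v n := by
    rw [e]
    exact lt_irrefl _
  have h2 : ¬ D v n < D u m := by
    rw [e]
    exact lt_irrefl _
  rw [h.l _ _ _ _ hu hv] at h1
  rw [h.l _ _ _ _ hv hu] at h2
  have h3 : u = v := by
    by_contra h3
    rcases hS.total _ _ hu hv h3 with h4 | h4
    · exact h2 (Or.inl h4)
    · exact h1 (Or.inl h4)
  refine ⟨h3, ?_⟩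
  by_contra h4
  rcases lt_or_gt_of_ne h4 with h5 | h5
  · exact h1 (Or.inr ⟨h3, h5⟩)
  · exact h2 (Or.inr ⟨h3.symm, h5⟩)

/-- positions -/
def PH (r : ℕ) (D E : ℕ → ℕ → ℚ) (ρ : RH) (n : ℕ) (X : Vtx ℚ r) : Prop :=
  (∃ u, (toG ρ.1).R u ∧ ρ.2 u 1 = n ∧ X = .a (D u 0)) ∨
  (∃ u, (toG ρ.1).C u ∧ ρ.2 u 1 = n ∧ X = .b (1 - E u 0)) ∨
  (∃ (p v w k : ℕ) (hk : k < r), (toG ρ.1).P p ∧ (toG ρ.1).R v ∧ (toG ρ.1).iR p v ∧
    (toG ρ.1).C w ∧ (toG ρ.1).iC p w ∧ ρ.2 p (k + 1) = n ∧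
    X = .p (D v (p + 1)) (1 - E w (p + 1)) ⟨k, hk⟩)

section pos

variable {r : ℕ} {x : LGr} {ρ : RH} {D E : ℕ → ℕ → ℚ}

theorem ph_total (h : GoodH r x ρ) (hg : KG ρ.1) (hr : 2 ≤ r) {n : ℕ} (hn : ¬ Plain x.1 n) :
    ∃ X, PH r D E ρ n X := by
  rcases h.np hr hn with ⟨u, hu, rfl⟩ | ⟨u, hu, rfl⟩ | ⟨u, k, hu, hk, hk', rfl⟩
  · exact ⟨_, Or.inl ⟨u, hu, rfl, rfl⟩⟩
  · exact ⟨_, Or.inr (Or.inl ⟨u, hu, rfl, rfl⟩)⟩
  · obtain ⟨v, v1, v2, -⟩ := hg.b.rR u hu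
    obtain ⟨w, w1, w2, -⟩ := hg.b.rC u hu
    exact ⟨_, Or.inr (Or.inr ⟨u, v, w, k - 1, by omega, hu, v1, v2, w1, w2,
      by rw [Nat.sub_add_cancel hk], rfl⟩)⟩

theorem ph_inj (h : GoodH r x ρ) (hg : KG ρ.1) (hD : Idx (toG ρ.1).R (toG ρ.1).lt D)
    (hE : Idx (toG ρ.1).C (toG ρ.1).lt E) {n n' : ℕ}
    {X : Vtx ℚ r} (h1 : PH r D E ρ n X) (h2 : PH r D E ρ n' X) : n = n' := by
  rcases h1 with ⟨u, u1, rfl, h3⟩ | ⟨u, u1, rfl, h3⟩ | ⟨p, v, w, k, hk, p1, v1, v2, w1, w2, rfl, h3⟩ <;>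
    rcases h2 with ⟨u', u1', rfl, g3⟩ | ⟨u', u1', rfl, g3⟩ |
      ⟨p', v', w', k', hk', p1', v1', v2', w1', w2', rfl, g3⟩
  · rw [h3, Vtx.a.injEq] at g3
    rw [(hD.eq hg.b.dR u1 u1' g3).1]
  · rw [h3] at g3
    exact absurd g3 (by simp)
  · rw [h3] at g3
    exact absurd g3 (by simp)
  · rw [h3] at g3
    exact absurd g3 (by simp)
  · rw [h3, Vtx.b.injEq] at g3
    rw [(hE.eq hg.b.dC u1 u1' (by linarith)).1]
  · rw [h3] at g3
    exact absurd g3 (by simp)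
  · rw [h3] at g3
    exact absurd g3 (by simp)
  · rw [h3] at g3
    exact absurd g3 (by simp)
  · rw [h3, Vtx.p.injEq] at g3
    obtain ⟨e1, e2, e3⟩ := g3
    have e1 := (hD.eq hg.b.dR v1 v1' e1).2
    have e3 : k = k' := congrArg Fin.val e3
    have e4 : p = p' := by omega
    rw [e4, e3]

theorem ph_fun (h : GoodH r x ρ) (hg : KG ρ.1) {n : ℕ}
    {X X' : Vtx ℚ r} (h1 : PH r D E ρ n X) (h2 : PH r D E ρ n X') : X = X' := by
  rcases h1 with ⟨u, u1, h3, rfl⟩ | ⟨u, u1, h3, rfl⟩ | ⟨p, v, w, k, hk, p1, v1, v2, w1, w2, h3, rfl⟩ <;>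
    rcases h2 with ⟨u', u1', g3, rfl⟩ | ⟨u', u1', g3, rfl⟩ |
      ⟨p', v', w', k', hk', p1', v1', v2', w1', w2', g3, rfl⟩
  · rw [h.i1 (h3.trans g3.symm)]
  · have := h.i1 (h3.trans g3.symm)
    subst this
    exact absurd u1' (hg.b.disj _ u1)
  · have := (h.inj _ _ _ _ va1 (vaP p1' (Nat.le_add_left 1 k') hk') (h3.trans g3.symm)).1
    subst this
    exact absurd p1' (nRP u1)
  · have := h.i1 (h3.trans g3.symm)
    subst this
    exact absurd u1 (hg.b.disj _ u1')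
  · rw [h.i1 (h3.trans g3.symm)]
  · have := (h.inj _ _ _ _ va1 (vaP p1' (Nat.le_add_left 1 k') hk') (h3.trans g3.symm)).1
    subst this
    exact absurd p1' (nCP u1)
  · have := (h.inj _ _ _ _ va1 (vaP p1 (Nat.le_add_left 1 k) hk) (g3.trans h3.symm)).1
    subst this
    exact absurd p1 (nRP u1')
  · have := (h.inj _ _ _ _ va1 (vaP p1 (Nat.le_add_left 1 k) hk) (g3.trans h3.symm)).1
    subst this
    exact absurd p1 (nCP u1')
  · obtain ⟨e1, e2⟩ := h.iP p1 p1' (Nat.le_add_left 1 k) hk (Nat.le_add_left 1 k') hk'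
      (h3.trans g3.symm)
    subst e1
    have e2 : k = k' := by omega
    subst e2
    obtain ⟨v0, -, -, h0⟩ := hg.b.rR p p1
    obtain ⟨w0, -, -, h0'⟩ := hg.b.rC p p1
    rw [h0 v v1 v2, h0 v' v1' v2', h0' w w1 w2, h0' w' w1' w2']

theorem ph_edge (h : GoodH r x ρ) (hg : KG ρ.1) (hr : 2 ≤ r) (hD : Idx (toG ρ.1).R (toG ρ.1).lt D)
    (hE : Idx (toG ρ.1).C (toG ρ.1).lt E)
    {n n' : ℕ} {X X' : Vtx ℚ r} (h1 : PH r D E ρ n X) (h2 : PH r D E ρ n' X') :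
    x.1 n n' = true ↔ (Edge Kind.half X X' ∨ Edge Kind.half X' X) := by
  constructor
  · intro h3
    rw [h.adj] at h3
    have key : ∀ {n n' : ℕ} {X X' : Vtx ℚ r}, PH r D E ρ n X → PH r D E ρ n' X' →
        HE r ρ n n' → Edge Kind.half X X' := by
      intro n n' X X' h1 h2 h3
      rcases h3 with ⟨u, p, v, u1, p1, v1, v2, hl, rfl, rfl⟩ |
        ⟨u, p, v, u1, p1, v1, v2, hl, rfl, rfl⟩ | ⟨p, k, p1, k1, k2, rfl, rfl⟩
      · obtain ⟨w, w1, w2, -⟩ := hg.b.rC p p1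
        rw [ph_fun h hg h1 (Or.inl ⟨u, u1, rfl, rfl⟩), ph_fun h hg h2
          (Or.inr (Or.inr ⟨p, v, w, 0, by omega, p1, v1, v2, w1, w2, rfl, rfl⟩))]
        refine ⟨rfl, Or.inr ⟨rfl, (hD.l _ _ _ _ u1 v1).2 ?_⟩⟩
        rcases hl with rfl | hl
        · exact Or.inr ⟨rfl, by omega⟩
        · exact Or.inl hl
      · obtain ⟨w, w1, w2, -⟩ := hg.b.rR p p1
        rw [ph_fun h hg h1 (Or.inr (Or.inl ⟨u, u1, rfl, rfl⟩)), ph_fun h hg h2
          (Or.inr (Or.inr ⟨p, w, v, r - 1, by omega, p1, w1, w2, v1, v2,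
            by rw [Nat.sub_add_cancel (by omega)], rfl⟩))]
        refine ⟨Nat.sub_add_cancel (by omega), Or.inr ⟨rfl, ?_⟩⟩
        have := (hE.l v u (p + 1) 0 v1 u1).2 (Or.inl hl)
        linarith
      · obtain ⟨v, v1, v2, -⟩ := hg.b.rR p p1
        obtain ⟨w, w1, w2, -⟩ := hg.b.rC p p1
        rw [ph_fun h hg h1 (Or.inr (Or.inr ⟨p, v, w, k - 1, by omega, p1, v1, v2, w1, w2,
            by rw [Nat.sub_add_cancel k1], rfl⟩)), ph_fun h hg h2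
          (Or.inr (Or.inr ⟨p, v, w, k, by omega, p1, v1, v2, w1, w2, rfl, rfl⟩))]
        exact Or.inl ⟨rfl, rfl, Nat.sub_add_cancel k1⟩
    rcases h3 with h3 | h3
    · exact Or.inl (key h1 h2 h3)
    · exact Or.inr (key h2 h1 h3)
  · have key : ∀ {n n' : ℕ} {X X' : Vtx ℚ r}, PH r D E ρ n X → PH r D E ρ n' X' →
        Edge Kind.half X X' → HE r ρ n n' := by
      intro n n' X X' h1 h2 h3
      rcases h1 with ⟨u, u1, rfl, rfl⟩ | ⟨u, u1, rfl, rfl⟩ |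
          ⟨p, v, w, k, hk, p1, v1, v2, w1, w2, rfl, rfl⟩ <;>
        rcases h2 with ⟨u', u1', rfl, rfl⟩ | ⟨u', u1', rfl, rfl⟩ |
          ⟨p', v', w', k', hk', p1', v1', v2', w1', w2', rfl, rfl⟩
      · exact absurd h3 (by simp [Edge])
      · exact absurd h3 (by simp [Edge])
      · obtain ⟨e, h3⟩ : k' = 0 ∧ _ := h3
        subst e
        refine Or.inl ⟨u, p', v', u1, p1', v1', v2', ?_, rfl, rfl⟩
        rcases h3 with h3 | ⟨-, h3⟩
        · have := (hD.eq hg.b.dR u1 v1' h3).2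
          omega
        · rcases (hD.l _ _ _ _ u1 v1').1 h3 with h4 | ⟨h4, -⟩
          · exact Or.inr h4
          · exact Or.inl h4.symm
      · exact absurd h3 (by simp [Edge])
      · exact absurd h3 (by simp [Edge])
      · obtain ⟨e, h3⟩ : k' + 1 = r ∧ _ := h3
        refine Or.inr (Or.inl ⟨u, p', w', u1, p1', w1', w2', ?_, rfl, by rw [e]⟩)
        rcases h3 with h3 | ⟨-, h3⟩
        · have := (hE.eq hg.b.dC u1 w1' (by linarith)).2
          omega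
        · rcases (hE.l w' u (p' + 1) 0 w1' u1).1 (by linarith) with h4 | ⟨-, h4⟩
          · exact h4
          · omega
      · exact absurd h3 (by simp [Edge])
      · exact absurd h3 (by simp [Edge])
      · rcases h3 with ⟨e1, e2, e3⟩ | ⟨e, -⟩
        · have e4 := (hD.eq hg.b.dR v1 v1' e1).2
          have e3 : k + 1 = k' := e3
          have e5 : p = p' := by omega
          subst e5
          refine Or.inr (Or.inr ⟨p, k + 1, p1, by omega, by omega, rfl, by rw [e3]⟩)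
        · exact absurd e (by simp)
    rintro (h3 | h3)
    · exact (h.adj _ _).2 (Or.inl (key h1 h2 h3))
    · exact (h.adj _ _).2 (Or.inr (key h2 h1 h3))

theorem ph_layer (h : GoodH r x ρ) {n : ℕ} {X : Vtx ℚ r} (h1 : PH r D E ρ n X) :
    X.layer.val = x.2 n := by
  rcases h1 with ⟨u, u1, rfl, rfl⟩ | ⟨u, u1, rfl, rfl⟩ |
    ⟨p, v, w, k, hk, p1, v1, v2, w1, w2, rfl, rfl⟩
  · rw [h.layR u _ u1 rfl]
    rfl
  · rw [h.layC u _ u1 rfl]
    rfl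
  · rw [h.layP p (k + 1) _ p1 (by omega) hk rfl]
    rfl

theorem ph_in (hD : Idx (toG ρ.1).R (toG ρ.1).lt D) (hE : Idx (toG ρ.1).C (toG ρ.1).lt E)
    {n : ℕ} {X : Vtx ℚ r} (h1 : PH r D E ρ n X) : In01 X := by
  have hm : ∀ {q : ℚ}, q ∈ Set.Ioo (0 : ℚ) 1 → 1 - q ∈ Set.Ioo (0 : ℚ) 1 := fun {q} h =>
    ⟨by linarith [h.2], by linarith [h.1]⟩
  rcases h1 with ⟨u, u1, rfl, rfl⟩ | ⟨u, u1, rfl, rfl⟩ |
    ⟨p, v, w, k, hk, p1, v1, v2, w1, w2, rfl, rfl⟩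
  · exact hD.m _ _
  · exact hm (hE.m _ _)
  · exact ⟨hD.m _ _, hm (hE.m _ _)⟩

end pos

/-- **Flipped half-graph crossings, paths of length at least two.** -/
theorem faithful_half2 {r : ℕ} (hr : 2 ≤ r) (F : Set (Sym2 (Fin (r + 2)))) :
    Faithful BIso (InCross Kind.half r F) := by
  classical
  refine faithful_H hr (fF r F) (fF_symm r F) ?_
  rintro s μ ⟨ρ, h, hg⟩ hμ
  obtain ⟨D, D1, D2⟩ := exists_idx hg.b.dR
  obtain ⟨E, E1, E2⟩ := exists_idx hg.b.dC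
  have hD : Idx (toG ρ.1).R (toG ρ.1).lt D := ⟨D1, D2⟩
  have hE : Idx (toG ρ.1).C (toG ρ.1).lt E := ⟨E1, E2⟩
  have hex : ∀ n, ∃ X, ¬ Plain s n → PH r D E ρ n X := by
    intro n
    by_cases hn : Plain s n
    · exact ⟨.a 0, fun h => absurd hn h⟩
    · obtain ⟨X, hX⟩ := ph_total h hg hr hn (D := D) (E := E)
      exact ⟨X, fun _ => hX⟩
  choose pos hpos using hex
  refine incross_ext (fun u v => h.symm u v) hμ pos (fun u hu => ph_in hD hE (hpos u hu))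
    (fun u v hu hv e => ?_) (fun u hu => ?_) (fun u v hu hv _ => ?_)
  · have h1 := hpos u hu
    rw [e] at h1
    exact ph_inj h hg hD hE h1 (hpos v hv)
  · rw [ph_layer h (hpos u hu)]
    exact dec0_np (x := (s, μ)) hu
  · exact ph_edge h hg hr hD hE (hpos u hu) (hpos v hv)

end Pool.Agent.Run7.h653.MD
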