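import Pool.Agent.Run7.h653.MD.Pos

/-!
Flipped star crossings and clique crossings are faithfully complete.
-/

set_option autoImplicit false

namespace Pool.Agent.Run7.h653.MD

open Pool.Agent.W889.VC
open Set

/-- the index of a natural number -/
def th (u : ℕ) : ℚ := 1 / (u + 2)

theorem th_inj {u v : ℕ} (h : th u = th v) : u = v := by
  unfold th at h
  have hu : (0 : ℚ) ≤ u := Nat.cast_nonneg u
  have hv : (0 : ℚ) ≤ v := Nat.cast_nonneg v
  have h1 : ((u : ℚ) + 2) ≠ 0 := by positivity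
  have h2 : ((v : ℚ) + 2) ≠ 0 := by positivity
  rw [div_eq_div_iff h1 h2] at h
  have h3 : (u : ℚ) = v := by linarith
  exact_mod_cast h3

theorem th_mem (u : ℕ) : th u ∈ Set.Ioo (0 : ℚ) 1 := by
  unfold th
  have hu : (0 : ℚ) ≤ u := Nat.cast_nonneg u
  refine ⟨by positivity, ?_⟩
  rw [div_lt_one (by positivity)]
  linarith

/-- code of an unordered pair -/
def cd (u v : ℕ) : ℕ := Nat.pair (min u v) (max u v)

theorem cd_comm (u v : ℕ) : cd u v = cd v u := by
  unfold cd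
  rw [min_comm, max_comm]

theorem cd_inj {u v u' v' : ℕ} (h : cd u v = cd u' v') : (u = u' ∧ v = v') ∨ (u = v' ∧ v = u') := by
  have := Nat.pair_eq_pair.1 h
  omega

/-- positions -/
def PS (r : ℕ) (c : Prop) (ρ : RS) (n : ℕ) (X : Vtx ℚ r) : Prop :=
  (∃ u, ρ.2.1 u = n ∧ X = .a (th u)) ∨
  (∃ (u v k : ℕ) (hk : k < r), ρ.1 u v = true ∧ ρ.2.2 u v (k + 1) = n ∧
    X = .p (th u) (th (cd u v)) ⟨k, hk⟩) ∨
  (¬ c ∧ ∃ u v, ρ.1 u v = true ∧ ρ.2.2 u v (r + 1) = n ∧ X = .b (th (cd u v)))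

section pos

variable {r N : ℕ} {c : Prop} {x : LGr} {ρ : RS}

theorem ps_total (h : GoodS N c x ρ) (hN2 : 2 ≤ N) (hr : 1 ≤ r) (hN : c → N = 2 * r)
    (hN' : ¬ c → N = 2 * r + 1) {n : ℕ} (hn : ¬ Plain x.1 n) (hz : K0 ρ.1) : ∃ X, PS r c ρ n X := by
  rcases h.np hN2 hn with ⟨u, rfl⟩ | ⟨u, v, k, huv, hk, hk', rfl⟩
  · exact ⟨_, Or.inl ⟨u, rfl, rfl⟩⟩
  · by_cases k1 : k ≤ r
    · exact ⟨_, Or.inr (Or.inl ⟨u, v, k - 1, by omega, huv, by rw [Nat.sub_add_cancel hk], rfl⟩)⟩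
    · by_cases hc : c
      · have := hN hc
        refine ⟨_, Or.inr (Or.inl ⟨v, u, N - k, by omega, hz.symm _ _ huv, h.rv huv (by omega), rfl⟩)⟩
      · have := hN' hc
        by_cases k2 : k = r + 1
        · subst k2
          exact ⟨_, Or.inr (Or.inr ⟨hc, u, v, huv, rfl, rfl⟩)⟩
        · exact ⟨_, Or.inr (Or.inl ⟨v, u, N - k, by omega, hz.symm _ _ huv, h.rv huv (by omega), rfl⟩)⟩

theorem ps_fun (h : GoodS N c x ρ) (hr : 1 ≤ r) (hN : c → N = 2 * r)
    (hN' : ¬ c → N = 2 * r + 1) {n : ℕ} {X X' : Vtx ℚ r} (h1 : PS r c ρ n X) (h2 : PS r c ρ n X') :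
    X = X' := by
  have hNr : 2 * r ≤ N := by
    by_cases hc : c
    · exact (hN hc).ge
    · have := hN' hc
      omega
  rcases h1 with ⟨u, h3, rfl⟩ | ⟨u, v, k, hk, h3, h4, rfl⟩ | ⟨hc, u, v, h3, h4, rfl⟩ <;>
    rcases h2 with ⟨u', g3, rfl⟩ | ⟨u', v', k', hk', g3, g4, rfl⟩ | ⟨hc', u', v', g3, g4, rfl⟩
  · rw [h.a_inj (h3.trans g3.symm)]
  · exact absurd (g4.trans h3.symm) (h.nr _ _ _ _ g3 (by omega) (by omega))
  · exact absurd (g4.trans h3.symm) (h.nr _ _ _ _ g3 (by omega) (by omega))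
  · exact absurd (h4.trans g3.symm) (h.nr _ _ _ _ h3 (by omega) (by omega))
  · rcases h.inj _ _ _ _ _ _ h3 g3 (by omega) (by omega) (by omega) (by omega) (h4.trans g4.symm)
      with ⟨rfl, rfl, e⟩ | ⟨rfl, rfl, e⟩
    · have : k = k' := by omega
      subst this
      rfl
    · omega
  · rcases h.inj _ _ _ _ _ _ h3 g3 (by omega) (by omega) (by omega) (by omega) (h4.trans g4.symm)
      with ⟨rfl, rfl, e⟩ | ⟨rfl, rfl, e⟩
    · omega
    · have := hN' hc'
      omega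
  · exact absurd (h4.trans g3.symm) (h.nr _ _ _ _ h3 (by omega) (by have := hN' hc; omega))
  · rcases h.inj _ _ _ _ _ _ h3 g3 (by omega) (by have := hN' hc; omega) (by omega) (by omega)
      (h4.trans g4.symm) with ⟨rfl, rfl, e⟩ | ⟨rfl, rfl, e⟩
    · omega
    · have := hN' hc
      omega
  · rcases h.inj _ _ _ _ _ _ h3 g3 (by omega) (by have := hN' hc; omega) (by omega)
      (by have := hN' hc; omega) (h4.trans g4.symm) with ⟨rfl, rfl, e⟩ | ⟨rfl, rfl, e⟩
    · rfl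
    · rw [cd_comm]

theorem ps_inj (h : GoodS N c x ρ) (hz : K0 ρ.1) (hN' : ¬ c → N = 2 * r + 1) {n n' : ℕ}
    {X : Vtx ℚ r} (h1 : PS r c ρ n X) (h2 : PS r c ρ n' X) : n = n' := by
  rcases h1 with ⟨u, rfl, h3⟩ | ⟨u, v, k, hk, h3, rfl, h4⟩ | ⟨hc, u, v, h3, rfl, h4⟩ <;>
    rcases h2 with ⟨u', rfl, g3⟩ | ⟨u', v', k', hk', g3, rfl, g4⟩ | ⟨hc', u', v', g3, rfl, g4⟩
  · rw [h3, Vtx.a.injEq] at g3
    rw [th_inj g3]
  · rw [h3] at g4
    exact absurd g4 (by simp)
  · rw [h3] at g4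
    exact absurd g4 (by simp)
  · rw [h4] at g3
    exact absurd g3 (by simp)
  · rw [h4, Vtx.p.injEq] at g4
    obtain ⟨e1, e2, e3⟩ := g4
    have e1 := th_inj e1
    have e2 := th_inj e2
    have e3 : k = k' := congrArg Fin.val e3
    subst e1
    subst e3
    rcases cd_inj e2 with ⟨-, rfl⟩ | ⟨rfl, rfl⟩
    · rfl
    · exact absurd h3 (hz.irr _)
  · rw [h4] at g4
    exact absurd g4 (by simp)
  · rw [h4] at g3
    exact absurd g3 (by simp)
  · rw [h4] at g4
    exact absurd g4 (by simp)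
  · rw [h4, Vtx.b.injEq] at g4
    rcases cd_inj (th_inj g4) with ⟨rfl, rfl⟩ | ⟨rfl, rfl⟩
    · rfl
    · exact (h.rv h3 (by have := hN' hc; omega)).symm

theorem ps_step (h : GoodS N c x ρ) (hz : K0 ρ.1) (hr : 1 ≤ r) (hN : c → N = 2 * r)
    {κ : Kind} (hκ : c → κ = Kind.clique) {u v k : ℕ} (huv : ρ.1 u v = true) (hk : k ≤ r) :
    ∃ X X', PS r c ρ (ρ.2.2 u v k) X ∧ PS r c ρ (ρ.2.2 u v (k + 1)) X' ∧
      (Edge κ X X' ∨ Edge κ X' X) := by
  rcases Nat.eq_zero_or_pos k with h1 | h1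
  · subst h1
    exact ⟨_, _, Or.inl ⟨u, (h.w0 _ _ huv).symm, rfl⟩, Or.inr (Or.inl ⟨u, v, 0, hr, huv, rfl, rfl⟩),
      Or.inl ⟨rfl, Or.inl rfl⟩⟩
  · by_cases h2 : k = r
    · subst h2
      by_cases hc : c
      · have hN0 := hN hc
        refine ⟨_, _, Or.inr (Or.inl ⟨u, v, k - 1, by omega, huv, by rw [Nat.sub_add_cancel h1], rfl⟩),
          Or.inr (Or.inl ⟨v, u, k - 1, by omega, hz.symm _ _ huv, ?_, rfl⟩),
          Or.inl (Or.inr ⟨hκ hc, Or.inr ⟨Nat.sub_add_cancel h1, Nat.sub_add_cancel h1, ?_, ?_⟩⟩)⟩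
        · rw [Nat.sub_add_cancel h1]
          exact h.rv huv (by omega)
        · rw [cd_comm]
        · intro e
          have := th_inj e
          rw [this] at huv
          exact hz.irr _ huv
      · exact ⟨_, _, Or.inr (Or.inl ⟨u, v, k - 1, by omega, huv, by rw [Nat.sub_add_cancel h1], rfl⟩),
          Or.inr (Or.inr ⟨hc, u, v, huv, rfl, rfl⟩),
          Or.inr ⟨Nat.sub_add_cancel h1, Or.inl rfl⟩⟩
    · exact ⟨_, _, Or.inr (Or.inl ⟨u, v, k - 1, by omega, huv, by rw [Nat.sub_add_cancel h1], rfl⟩),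
        Or.inr (Or.inl ⟨u, v, k, by omega, huv, rfl, rfl⟩),
        Or.inl (Or.inl ⟨rfl, rfl, Nat.sub_add_cancel h1⟩)⟩

theorem ps_edge (h : GoodS N c x ρ) (hz : K0 ρ.1) (hN2 : 2 ≤ N) (hr : 1 ≤ r) (hN : c → N = 2 * r)
    (hN' : ¬ c → N = 2 * r + 1) {κ : Kind} (hκ : κ = Kind.clique ↔ c) (hκ' : κ ≠ Kind.half)
    {n n' : ℕ} {X X' : Vtx ℚ r} (h1 : PS r c ρ n X) (h2 : PS r c ρ n' X') :
    x.1 n n' = true ↔ (Edge κ X X' ∨ Edge κ X' X) := by
  have hNr : 2 * r ≤ N := by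
    by_cases hc : c
    · exact (hN hc).ge
    · have := hN' hc
      omega
  constructor
  · intro h3
    rw [h.adj] at h3
    have key : ∀ {n n' : ℕ} {X X' : Vtx ℚ r} {u v k : ℕ}, PS r c ρ n X → PS r c ρ n' X' →
        ρ.1 u v = true → k ≤ r → ρ.2.2 u v k = n → ρ.2.2 u v (k + 1) = n' →
        (Edge κ X X' ∨ Edge κ X' X) := by
      intro n n' X X' u v k h1 h2 h3 h4 h5 h6
      obtain ⟨Y, Y', k1, k2, k3⟩ := ps_step h hz hr hN hκ.2 h3 h4
      rw [h5] at k1
      rw [h6] at k2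
      rw [ps_fun h hr hN hN' h1 k1, ps_fun h hr hN hN' h2 k2]
      exact k3
    rcases h3 with ⟨u, v, k, h4, h5, h6, h7⟩ | ⟨hc, u, v, v', h4, h5, h6, h7, h8⟩
    · by_cases h8 : k ≤ r
      · exact key h1 h2 h4 h8 h6 h7
      · have hk : N - k ≤ r := by
          by_cases hc : c
          · have := hN hc
            omega
          · have := hN' hc
            omega
        rw [or_comm]
        exact key h2 h1 (hz.symm _ _ h4) hk ((h.rv h4 (by omega)).trans h7)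
          ((h.rv h4 (by omega)).trans h6)
    · have k1 : PS r c ρ n (.p (th u) (th (cd u v)) ⟨0, hr⟩) :=
        Or.inr (Or.inl ⟨u, v, 0, hr, h4, h7, rfl⟩)
      have k2 : PS r c ρ n' (.p (th u) (th (cd u v')) ⟨0, hr⟩) :=
        Or.inr (Or.inl ⟨u, v', 0, hr, h5, h8, rfl⟩)
      rw [ps_fun h hr hN hN' h1 k1, ps_fun h hr hN hN' h2 k2]
      refine Or.inl (Or.inr ⟨hκ.2 hc, Or.inl ⟨rfl, rfl, rfl, fun e => ?_⟩⟩)
      rcases cd_inj (th_inj e) with ⟨-, e⟩ | ⟨e, e'⟩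
      · exact h6 e
      · rw [e'] at h4
        exact hz.irr _ h4
  · have key : ∀ {n n' : ℕ} {X X' : Vtx ℚ r}, PS r c ρ n X → PS r c ρ n' X' → Edge κ X X' →
        x.1 n n' = true := by
      intro n n' X X' h1 h2 h3
      rcases h1 with ⟨u, h4, rfl⟩ | ⟨u, v, k, hk, h4, h5, rfl⟩ | ⟨hc, u, v, h4, h5, rfl⟩ <;>
        rcases h2 with ⟨u', g4, rfl⟩ | ⟨u', v', k', hk', g4, g5, rfl⟩ | ⟨hc', u', v', g4, g5, rfl⟩
      · exact absurd h3 (by simp [Edge])
      · simp only [Edge] at h3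
        obtain ⟨rfl, h3 | h3⟩ := h3
        · have := th_inj h3
          subst this
          rw [← h4, h.nb_root hN2]
          exact ⟨v', g4, g5⟩
        · exact absurd h3.1 hκ'
      · exact absurd h3 (by simp [Edge])
      · exact absurd h3 (by simp [Edge])
      · simp only [Edge] at h3
        rcases h3 with ⟨e1, e2, e3⟩ | ⟨e0, ⟨e1, e2, e3, e4⟩ | ⟨e1, e2, e3, e4⟩⟩
        · have e1 := th_inj e1
          subst e1
          have e5 : v = v' := by
            rcases cd_inj (th_inj e2) with ⟨-, e⟩ | ⟨e, e'⟩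
            · exact e
            · rw [e'] at h4
              exact absurd h4 (hz.irr _)
          subst e5
          rw [← h5, ← g5, ← e3]
          exact h.step h4 (by omega)
        · have e3 := th_inj e3
          subst e1
          subst e2
          subst e3
          rw [h.adj]
          exact Or.inr ⟨hκ.1 e0, u, v, v', h4, g4, fun e => e4 (by rw [e]), h5, g5⟩
        · rcases cd_inj (th_inj e3) with ⟨e, -⟩ | ⟨rfl, rfl⟩
          · exact absurd (by rw [e]) e4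
          · have := hN (hκ.1 e0)
            rw [← h5, ← g5, e1, e2, h.rv h4 (show (r + 1) + r = N + 1 by omega)]
            exact h.step h4 (by omega)
      · exact absurd h3 (by simp [Edge])
      · exact absurd h3 (by simp [Edge])
      · simp only [Edge] at h3
        obtain ⟨e1, h3 | h3⟩ := h3
        · have := hN' hc
          rw [h.symm hz]
          rcases cd_inj (th_inj h3) with ⟨rfl, rfl⟩ | ⟨rfl, rfl⟩
          · rw [← h5, ← g5, e1]
            exact h.step h4 (by omega)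
          · rw [← h5, ← g5, e1, ← h.rv h4 (show (r + 1) + (r + 1) = N + 1 by omega)]
            exact h.step g4 (by omega)
        · exact absurd h3.1 hκ'
      · exact absurd h3 (by simp [Edge])
    rintro (h3 | h3)
    · exact key h1 h2 h3
    · rw [h.symm hz]
      exact key h2 h1 h3

theorem ps_layer (h : GoodS N c x ρ) (hz : K0 ρ.1) (hN : c → N = 2 * r)
    (hN' : ¬ c → N = 2 * r + 1) {n : ℕ} {X : Vtx ℚ r} (h1 : PS r c ρ n X) :
    X.layer.val = x.2 n := by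
  have hNr : 2 * r ≤ N := by
    by_cases hc : c
    · exact (hN hc).ge
    · have := hN' hc
      omega
  rcases h1 with ⟨u, h3, rfl⟩ | ⟨u, v, k, hk, h3, h4, rfl⟩ | ⟨hc, u, v, h3, h4, rfl⟩
  · rw [← h3, h.lay0 hz]
    rfl
  · rw [h.lay u v (k + 1) n h3 (by omega) h4]
    show k + 1 = _
    omega
  · have := hN' hc
    rw [h.lay u v (r + 1) n h3 (by omega) h4]
    show r + 1 = _
    omega

theorem ps_in {c : Prop} {ρ : RS} {n : ℕ} {X : Vtx ℚ r} (h1 : PS r c ρ n X) : In01 X := by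
  rcases h1 with ⟨u, h3, rfl⟩ | ⟨u, v, k, hk, h3, h4, rfl⟩ | ⟨hc, u, v, h3, h4, rfl⟩
  · exact th_mem _
  · exact ⟨th_mem _, th_mem _⟩
  · exact th_mem _

end pos

/-- **Flipped star crossings and clique crossings.** -/
theorem faithful_star_clique {r : ℕ} (hr : 1 ≤ r) {κ : Kind} (hκ' : κ ≠ Kind.half)
    (F : Set (Sym2 (Fin (r + 2)))) : Faithful BIso (InCross κ r F) := by
  classical
  let c : Prop := κ = Kind.clique
  let N : ℕ := if κ = Kind.clique then 2 * r else 2 * r + 1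
  have hN : c → N = 2 * r := fun h => if_pos h
  have hN' : ¬ c → N = 2 * r + 1 := fun h => if_neg h
  have hN2 : 2 ≤ N := by
    by_cases hc : c
    · have := hN hc
      omega
    · have := hN' hc
      omega
  refine faithful_S (N := N) (c := c) hN2 (fun hc => ⟨r, by rw [hN hc]; omega⟩) (fF r F)
    (fF_symm r F) ?_
  rintro s μ ⟨ρ, h, hz⟩ hμ
  have hs : ∀ u v, s u v = s v u := fun u v => h.symm hz u v
  have hex : ∀ n, ∃ X, ¬ Plain s n → PS r c ρ n X := by
    intro n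
    by_cases hn : Plain s n
    · exact ⟨.a 0, fun h => absurd hn h⟩
    · obtain ⟨X, hX⟩ := ps_total h hN2 hr hN hN' hn hz
      exact ⟨X, fun _ => hX⟩
  choose pos hpos using hex
  refine incross_ext hs (fun u => ?_) pos (fun u hu => ps_in (hpos u hu))
    (fun u v hu hv e => ?_) (fun u hu => ?_) (fun u v hu hv _ => ?_)
  · have := hμ u
    by_cases hc : c
    · have := hN hc
      omega
    · have := hN' hc
      omega
  · have h1 := hpos u hu
    rw [e] at h1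
    exact ps_inj h hz hN' h1 (hpos v hv)
  · rw [ps_layer h hz hN hN' (hpos u hu)]
    exact dec0_np (x := (s, μ)) hu
  · exact ps_edge h hz hN2 hr hN hN' Iff.rfl hκ' (hpos u hu) (hpos v hv)

end Pool.Agent.Run7.h653.MD
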