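import Pool.Agent.Run7.h653.MD.Flip
import Pool.Agent.Run7.h653.FH.A2

/-!
Sources: graphs in which all degrees are infinite, and grids.
-/

set_option autoImplicit false

namespace Pool.Agent.Run7.h653.MD

open Pool.Agent.W889.VC
open Pool.Agent.W889.VC.Grid
open Pool.Agent.Run7.h653.FH
open Set

theorem on_inf {S : ℕ → Prop} {lt : ℕ → ℕ → Prop} (h : On S lt) {a : ℕ} (ha : S a) :
    {v | S v ∧ lt a v}.Infinite := by
  classical
  choose f hf1 hf2 using h.above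
  let g : ℕ → {v // S v} := fun n => n.rec ⟨f a ha, hf1 a ha⟩ fun _ v => ⟨f v.1 v.2, hf1 v.1 v.2⟩
  have gs : ∀ n, lt (g n).1 (g (n + 1)).1 := fun n => hf2 (g n).1 (g n).2
  have gl : ∀ m k, lt (g m).1 (g (m + k + 1)).1 := by
    intro m k
    induction k with
    | zero => exact gs m
    | succ k ih =>
      exact h.trans (g m).1 (g (m + k + 1)).1 (g (m + k + 1 + 1)).1 (g m).2 (g (m + k + 1)).2
        (g (m + k + 1 + 1)).2 ih (gs (m + k + 1))
  have ga : ∀ n, lt a (g n).1 := by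
    intro n
    induction n with
    | zero => exact hf2 a ha
    | succ n ih => exact h.trans a (g n).1 (g (n + 1)).1 ha (g n).2 (g (n + 1)).2 ih (gs n)
  have gi : Function.Injective fun n => (g n).1 := by
    intro m n hmn
    have hmn' : (g m).1 = (g n).1 := hmn
    rcases lt_trichotomy m n with hl | hl | hl
    · obtain ⟨k, rfl⟩ : ∃ k, n = m + k + 1 := ⟨n - m - 1, by omega⟩
      have := gl m k
      rw [← hmn'] at this
      exact absurd this (h.irrefl _ (g m).2)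
    · exact hl
    · obtain ⟨k, rfl⟩ : ∃ k, m = n + k + 1 := ⟨m - n - 1, by omega⟩
      have := gl n k
      rw [hmn'] at this
      exact absurd this (h.irrefl _ (g n).2)
  exact (Set.infinite_range_of_injective gi).mono (by
    rintro _ ⟨n, rfl⟩
    exact ⟨(g n).2, ga n⟩)

/-- grids, coded -/
abbrev GS : Type := (ℕ → Bool) × ((ℕ → Bool) × (BinStr × (BinStr × BinStr)))

/-- the grid -/
def toG (g : GS) : Grid ℕ where
  R u := g.1 u = true
  C u := g.2.1 u = true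
  lt u v := g.2.2.1 u v = true
  iR u v := g.2.2.2.1 u v = true
  iC u v := g.2.2.2.2 u v = true

/-- isomorphism -/
def GE (g g' : GS) : Prop :=
  ∃ σ : Equiv.Perm ℕ, (∀ u, g'.1 (σ u) = g.1 u) ∧ (∀ u, g'.2.1 (σ u) = g.2.1 u) ∧
    (∀ u v, g'.2.2.1 (σ u) (σ v) = g.2.2.1 u v) ∧
    (∀ u v, g'.2.2.2.1 (σ u) (σ v) = g.2.2.2.1 u v) ∧
    ∀ u v, g'.2.2.2.2 (σ u) (σ v) = g.2.2.2.2 u v

/-- rows and columns exist, and every row and column has a point; normal form -/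
structure Full (g : GS) : Prop where
  r0 : ∃ r, (toG g).R r
  c0 : ∃ r, (toG g).C r
  f : ∀ r c, (toG g).R r → (toG g).C c → ∃ p, (toG g).Fib r c p
  nl : ∀ u v, (toG g).lt u v → ((toG g).R u ∧ (toG g).R v) ∨ ((toG g).C u ∧ (toG g).C v)
  nR : ∀ u v, (toG g).iR u v → (toG g).P u ∧ (toG g).R v
  nC : ∀ u v, (toG g).iC u v → (toG g).P u ∧ (toG g).C v

/-- the source -/
structure KG (g : GS) : Prop where
  b : Base (toG g)
  f : Full g

theorem mg_toG : MG toG := by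
  have m1 : ∀ u, Measurable (fun g : GS => g.1 u) := fun u =>
    (measurable_pi_apply u).comp measurable_fst
  have m2 : ∀ u, Measurable (fun g : GS => g.2.1 u) := fun u =>
    (measurable_pi_apply u).comp (measurable_fst.comp measurable_snd)
  have n3 : Measurable (fun g : GS => g.2.2.1) :=
    measurable_fst.comp (measurable_snd.comp measurable_snd)
  have n4 : Measurable (fun g : GS => g.2.2.2.1) :=
    measurable_fst.comp (measurable_snd.comp (measurable_snd.comp measurable_snd))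
  have n5 : Measurable (fun g : GS => g.2.2.2.2) :=
    measurable_snd.comp (measurable_snd.comp (measurable_snd.comp measurable_snd))
  exact ⟨fun u => bp_of (m1 u) (fun b => b = true), fun u => bp_of (m2 u) (fun b => b = true),
    fun u v => bp_of (meas1 n3 u v) (fun b => b = true),
    fun u v => bp_of (meas1 n4 u v) (fun b => b = true),
    fun u v => bp_of (meas1 n5 u v) (fun b => b = true)⟩

theorem bp_full : BP (fun g : GS => Full g) := by
  have hD := mg_toG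
  have : BP (fun g : GS => (∃ r, (toG g).R r) ∧ (∃ r, (toG g).C r) ∧
      (∀ r c, (toG g).R r → (toG g).C c → ∃ p, (toG g).Fib r c p) ∧
      (∀ u v, (toG g).lt u v → ((toG g).R u ∧ (toG g).R v) ∨ ((toG g).C u ∧ (toG g).C v)) ∧
      (∀ u v, (toG g).iR u v → (toG g).P u ∧ (toG g).R v) ∧
      (∀ u v, (toG g).iC u v → (toG g).P u ∧ (toG g).C v)) :=
    (BP.ex fun r => hD.R r).and <| (BP.ex fun r => hD.C r).and <|
    (BP.all fun r => BP.all fun c => (hD.R r).imp <| (hD.C c).imp <| BP.ex fun p =>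
      hD.Fib r c p).and <|
    (BP.all fun u => BP.all fun v => (hD.lt u v).imp (((hD.R u).and (hD.R v)).or
      ((hD.C u).and (hD.C v)))).and <|
    (BP.all fun u => BP.all fun v => (hD.iR u v).imp ((hD.P u).and (hD.R v))).and
    (BP.all fun u => BP.all fun v => (hD.iC u v).imp ((hD.P u).and (hD.C v)))
  exact this.congr fun y => ⟨fun ⟨h1, h2, h3, h4, h5, h6⟩ => ⟨h1, h2, h3, h4, h5, h6⟩,
    fun ⟨h1, h2, h3, h4, h5, h6⟩ => ⟨h1, h2, h3, h4, h5, h6⟩⟩

theorem GE.symm {g g' : GS} (h : GE g g') : GE g' g := by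
  obtain ⟨σ, h1, h2, h3, h4, h5⟩ := h
  refine ⟨σ.symm, fun u => ?_, fun u => ?_, fun u v => ?_, fun u v => ?_, fun u v => ?_⟩
  · rw [← h1, σ.apply_symm_apply]
  · rw [← h2, σ.apply_symm_apply]
  · rw [← h3, σ.apply_symm_apply, σ.apply_symm_apply]
  · rw [← h4, σ.apply_symm_apply, σ.apply_symm_apply]
  · rw [← h5, σ.apply_symm_apply, σ.apply_symm_apply]

/-- an isomorphism preserves the predicates of the grid -/
structure GM (σ : Equiv.Perm ℕ) (γ δ : Grid ℕ) : Prop where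
  R : ∀ u, δ.R (σ u) ↔ γ.R u
  C : ∀ u, δ.C (σ u) ↔ γ.C u
  lt : ∀ u v, δ.lt (σ u) (σ v) ↔ γ.lt u v
  iR : ∀ u v, δ.iR (σ u) (σ v) ↔ γ.iR u v
  iC : ∀ u v, δ.iC (σ u) (σ v) ↔ γ.iC u v

theorem GM.P {σ : Equiv.Perm ℕ} {γ δ : Grid ℕ} (h : GM σ γ δ) (u : ℕ) : δ.P (σ u) ↔ γ.P u :=
  and_congr (not_congr (h.R u)) (not_congr (h.C u))

theorem gm_of {g g' : GS} {σ : Equiv.Perm ℕ} (h1 : ∀ u, g'.1 (σ u) = g.1 u)
    (h2 : ∀ u, g'.2.1 (σ u) = g.2.1 u) (h3 : ∀ u v, g'.2.2.1 (σ u) (σ v) = g.2.2.1 u v)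
    (h4 : ∀ u v, g'.2.2.2.1 (σ u) (σ v) = g.2.2.2.1 u v)
    (h5 : ∀ u v, g'.2.2.2.2 (σ u) (σ v) = g.2.2.2.2 u v) : GM σ (toG g) (toG g') where
  R u := by
    show g'.1 (σ u) = true ↔ g.1 u = true
    rw [h1]
  C u := by
    show g'.2.1 (σ u) = true ↔ g.2.1 u = true
    rw [h2]
  lt u v := by
    show g'.2.2.1 (σ u) (σ v) = true ↔ g.2.2.1 u v = true
    rw [h3]
  iR u v := by
    show g'.2.2.2.1 (σ u) (σ v) = true ↔ g.2.2.2.1 u v = true
    rw [h4]
  iC u v := by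
    show g'.2.2.2.2 (σ u) (σ v) = true ↔ g.2.2.2.2 u v = true
    rw [h5]

theorem GM.gi {σ : Equiv.Perm ℕ} {γ δ : Grid ℕ} (h : GM σ γ δ) : GIso σ γ δ :=
  ⟨fun u => (h.R u).symm, fun u => (h.C u).symm, fun u v _ _ => (h.lt u v).symm,
    fun u v _ _ => (h.lt u v).symm, fun u v _ _ => (h.iR u v).symm, fun u v _ _ => (h.iC u v).symm⟩

theorem GE.full {g g' : GS} (h : GE g g') (hf : Full g) : Full g' := by
  obtain ⟨σ, h1, h2, h3, h4, h5⟩ := h
  have m := gm_of h1 h2 h3 h4 h5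
  have ex : ∀ v, ∃ u, σ u = v := fun v => ⟨σ.symm v, σ.apply_symm_apply v⟩
  refine ⟨?_, ?_, ?_, ?_, ?_, ?_⟩
  · obtain ⟨r, hr⟩ := hf.r0
    exact ⟨σ r, (m.R r).2 hr⟩
  · obtain ⟨r, hr⟩ := hf.c0
    exact ⟨σ r, (m.C r).2 hr⟩
  · intro r c
    obtain ⟨r, rfl⟩ := ex r
    obtain ⟨c, rfl⟩ := ex c
    rw [m.R, m.C]
    intro hr hc
    obtain ⟨p, p1, p2, p3⟩ := hf.f r c hr hc
    exact ⟨σ p, (m.P p).2 p1, (m.iR p r).2 p2, (m.iC p c).2 p3⟩
  · intro u v
    obtain ⟨u, rfl⟩ := ex u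
    obtain ⟨v, rfl⟩ := ex v
    rw [m.lt, m.R, m.R, m.C, m.C]
    exact hf.nl u v
  · intro u v
    obtain ⟨u, rfl⟩ := ex u
    obtain ⟨v, rfl⟩ := ex v
    rw [m.iR, m.P, m.R]
    exact hf.nR u v
  · intro u v
    obtain ⟨u, rfl⟩ := ex u
    obtain ⟨v, rfl⟩ := ex v
    rw [m.iC, m.P, m.C]
    exact hf.nC u v

theorem target_G : Target GE KG toG Full where
  symm _ _ h := h.symm
  mg := mg_toG
  mW := bp_full
  inv _ _ h hf := h.full hf
  iso g g' h := by
    obtain ⟨σ, h1, h2, h3, h4, h5⟩ := h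
    exact ⟨σ, (gm_of h1 h2 h3 h4 h5).gi⟩
  iso' := by
    rintro g g' hf hf' - - ⟨σ, h⟩
    have eR : ∀ u, g'.1 (σ u) = true ↔ g.1 u = true := fun u => (h.R u).symm
    have eC : ∀ u, g'.2.1 (σ u) = true ↔ g.2.1 u = true := fun u => (h.C u).symm
    refine ⟨σ, fun u => Bool.eq_iff_iff.2 (eR u), fun u => Bool.eq_iff_iff.2 (eC u), fun u v => ?_,
      fun u v => ?_, fun u v => ?_⟩
    · rw [Bool.eq_iff_iff]
      constructor
      · intro h1
        rcases hf'.nl _ _ h1 with ⟨h2, h3⟩ | ⟨h2, h3⟩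
        · exact (h.lR u v ((h.R u).2 h2) ((h.R v).2 h3)).2 h1
        · exact (h.lC u v ((h.C u).2 h2) ((h.C v).2 h3)).2 h1
      · intro h1
        rcases hf.nl _ _ h1 with ⟨h2, h3⟩ | ⟨h2, h3⟩
        · exact (h.lR u v h2 h3).1 h1
        · exact (h.lC u v h2 h3).1 h1
    · rw [Bool.eq_iff_iff]
      constructor
      · intro h1
        obtain ⟨h2, h3⟩ := hf'.nR _ _ h1
        exact (h.iR u v ((h.P u).2 h2) ((h.R v).2 h3)).2 h1
      · intro h1
        obtain ⟨h2, h3⟩ := hf.nR _ _ h1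
        exact (h.iR u v h2 h3).1 h1
    · rw [Bool.eq_iff_iff]
      constructor
      · intro h1
        obtain ⟨h2, h3⟩ := hf'.nC _ _ h1
        exact (h.iC u v ((h.P u).2 h2) ((h.C v).2 h3)).2 h1
      · intro h1
        obtain ⟨h2, h3⟩ := hf.nC _ _ h1
        exact (h.iC u v h2 h3).1 h1
  ex := by
    classical
    intro γ hb hr0 hc0 hf _
    let g : GS := (fun u => decide (γ.R u), fun u => decide (γ.C u),
      fun u v => decide (γ.lt u v ∧ ((γ.R u ∧ γ.R v) ∨ (γ.C u ∧ γ.C v))),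
      fun u v => decide (γ.iR u v ∧ γ.P u ∧ γ.R v), fun u v => decide (γ.iC u v ∧ γ.P u ∧ γ.C v))
    have eR : ∀ u, (toG g).R u ↔ γ.R u := fun u => decide_eq_true_iff
    have eC : ∀ u, (toG g).C u ↔ γ.C u := fun u => decide_eq_true_iff
    have eP : ∀ u, (toG g).P u ↔ γ.P u := fun u => and_congr (not_congr (eR u)) (not_congr (eC u))
    have el : ∀ u v, (toG g).lt u v ↔ (γ.lt u v ∧ ((γ.R u ∧ γ.R v) ∨ (γ.C u ∧ γ.C v))) :=
      fun u v => decide_eq_true_iff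
    have eiR : ∀ u v, (toG g).iR u v ↔ (γ.iR u v ∧ γ.P u ∧ γ.R v) := fun u v => decide_eq_true_iff
    have eiC : ∀ u v, (toG g).iC u v ↔ (γ.iC u v ∧ γ.P u ∧ γ.C v) := fun u v => decide_eq_true_iff
    refine ⟨g, ⟨?_, ?_, ?_, ?_, ?_, ?_⟩, ?_⟩
    · obtain ⟨r, hr⟩ := hr0
      exact ⟨r, (eR r).2 hr⟩
    · obtain ⟨r, hr⟩ := hc0
      exact ⟨r, (eC r).2 hr⟩
    · intro r c hr hc
      obtain ⟨p, p1, p2, p3⟩ := hf r c ((eR r).1 hr) ((eC c).1 hc)
      exact ⟨p, (eP p).2 p1, (eiR p r).2 ⟨p2, p1, (eR r).1 hr⟩, (eiC p c).2 ⟨p3, p1, (eC c).1 hc⟩⟩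
    · intro u v h
      rw [eR, eR, eC, eC]
      exact ((el u v).1 h).2
    · intro u v h
      rw [eP, eR]
      exact ((eiR u v).1 h).2
    · intro u v h
      rw [eP, eC]
      exact ((eiC u v).1 h).2
    · refine ⟨fun u => (eR u).symm, fun u => (eC u).symm, fun u v hu hv => ?_, fun u v hu hv => ?_,
        fun u v hu hv => ?_, fun u v hu hv => ?_⟩
      · exact ⟨fun h => (el u v).2 ⟨h, Or.inl ⟨hu, hv⟩⟩, fun h => ((el u v).1 h).1⟩
      · exact ⟨fun h => (el u v).2 ⟨h, Or.inr ⟨hu, hv⟩⟩, fun h => ((el u v).1 h).1⟩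
      · exact ⟨fun h => (eiR u v).2 ⟨h, hu, hv⟩, fun h => ((eiR u v).1 h).1⟩
      · exact ⟨fun h => (eiC u v).2 ⟨h, hu, hv⟩, fun h => ((eiC u v).1 h).1⟩
  cls g hf hb := ⟨hb, hf⟩

theorem faithful_G : Faithful GE KG := target_G.faithful

/-- graphs, all degrees are infinite -/
structure K0 (z : BinStr) : Prop where
  symm : ∀ u v, z u v = true → z v u = true
  irr : ∀ u, z u u ≠ true
  inf : ∀ u n, ∃ v, n ≤ v ∧ z u v = true

theorem faithful_K0 : Faithful BIso K0 := by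
  refine (target_A True True False False K0 ?_).faithful
  intro γ hb y h
  refine ⟨h.symm, fun u => ?_, fun u n => ?_⟩
  · rcases cases3 γ u with hu | hu | hu
    · rw [Ne, h.rr u u hu hu]
      exact fun h => h.2 rfl
    · rw [Ne, h.cc u u hu hu]
      exact fun h => h.2 rfl
    · rw [Ne, h.pp u u hu hu]
      exact fun h => h.2 rfl
  · have key : {v | y u v = true}.Infinite := by
      rcases cases3 γ u with hu | hu | hu
      · refine (on_inf hb.dR hu).mono fun v hv => (h.rr u v hu hv.1).2 ⟨trivial, ?_⟩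
        rintro rfl
        exact hb.dR.irrefl _ hu hv.2
      · refine (on_inf hb.dC hu).mono fun v hv => (h.cc u v hu hv.1).2 ⟨trivial, ?_⟩
        rintro rfl
        exact hb.dC.irrefl _ hu hv.2
      · obtain ⟨r, h1, h2, -⟩ := hb.rR u hu
        exact (on_inf hb.dR h1).mono fun v hv =>
          h.symm _ _ ((h.rp v u r hv.1 hu h1 h2).2 (Or.inr hv.2))
    obtain ⟨v, h1, h2⟩ := key.exists_gt n
    exact ⟨v, h2.le, h1⟩

end Pool.Agent.Run7.h653.MD
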