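import Pool.Agent.Run7.h653.MD.Src

/-!
Subdivisions of graphs, and line graphs of subdivisions (with centres), as layered graphs.
-/

set_option autoImplicit false

namespace Pool.Agent.Run7.h653.MD

open Pool.Agent.W889.VC
open Set

/-- a graph, an enumeration of the roots, and the paths -/
abbrev RS : Type := BinStr × ((ℕ → ℕ) × (ℕ → ℕ → ℕ → ℕ))

/-- The vertex `u` of `z` is represented by the root `a u`, the edge `uv` by a path
`a u = w u v 0, w u v 1, ..., w u v (N + 1) = a v`; if `c`, then the neighbours of a root are adjacent. -/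
structure GoodS (N : ℕ) (c : Prop) (x : LGr) (ρ : RS) : Prop where
  mono : ∀ m n, m < n → ρ.2.1 m < ρ.2.1 n
  w0 : ∀ u v, ρ.1 u v = true → ρ.2.2 u v 0 = ρ.2.1 u
  rev : ∀ u v k, ρ.1 u v = true → k ≤ N + 1 → ρ.2.2 v u (N + 1 - k) = ρ.2.2 u v k
  inj : ∀ u v k u' v' k', ρ.1 u v = true → ρ.1 u' v' = true → 1 ≤ k → k ≤ N → 1 ≤ k' → k' ≤ N →
    ρ.2.2 u v k = ρ.2.2 u' v' k' → (u = u' ∧ v = v' ∧ k = k') ∨ (u = v' ∧ v = u' ∧ k' = N + 1 - k)
  nr : ∀ u v k n, ρ.1 u v = true → 1 ≤ k → k ≤ N → ρ.2.2 u v k ≠ ρ.2.1 n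
  junk : ∀ u v k, ¬ (ρ.1 u v = true ∧ k ≤ N + 1) → ρ.2.2 u v k = 0
  adj : ∀ p q, x.1 p q = true ↔
    (∃ u v k, ρ.1 u v = true ∧ k ≤ N ∧ ρ.2.2 u v k = p ∧ ρ.2.2 u v (k + 1) = q) ∨
    (c ∧ ∃ u v v', ρ.1 u v = true ∧ ρ.1 u v' = true ∧ v ≠ v' ∧ ρ.2.2 u v 1 = p ∧ ρ.2.2 u v' 1 = q)
  lay : ∀ u v k n, ρ.1 u v = true → k ≤ N + 1 → ρ.2.2 u v k = n → x.2 n = min k (N + 1 - k)
  pl : ∀ t, Plain x.1 t → x.2 t = 0
  inf : ∀ n, ∃ t, n ≤ t ∧ Plain x.1 t

section basic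

variable {N : ℕ} {c : Prop} {x : LGr} {ρ : RS}

theorem GoodS.a_inj (h : GoodS N c x ρ) {m n : ℕ} (e : ρ.2.1 m = ρ.2.1 n) : m = n := by
  rcases lt_trichotomy m n with hl | hl | hl
  · have := h.mono _ _ hl
    omega
  · exact hl
  · have := h.mono _ _ hl
    omega

theorem GoodS.rv (h : GoodS N c x ρ) {u v k j : ℕ} (huv : ρ.1 u v = true) (hk : k + j = N + 1) :
    ρ.2.2 v u j = ρ.2.2 u v k := by
  have := h.rev u v k huv (by omega)
  rwa [show N + 1 - k = j by omega] at this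

theorem GoodS.wN (h : GoodS N c x ρ) (hz : K0 ρ.1) {u v : ℕ} (huv : ρ.1 u v = true) :
    ρ.2.2 u v (N + 1) = ρ.2.1 v := by
  have := h.rev v u 0 (hz.symm _ _ huv) (Nat.zero_le _)
  rw [Nat.sub_zero] at this
  rw [this]
  exact h.w0 _ _ (hz.symm _ _ huv)

theorem GoodS.nb_root (h : GoodS N c x ρ) (hN : 2 ≤ N) (u q : ℕ) :
    x.1 (ρ.2.1 u) q = true ↔ ∃ v, ρ.1 u v = true ∧ ρ.2.2 u v 1 = q := by
  rw [h.adj]
  constructor
  · rintro (⟨u1, v1, k, h1, h2, h3, h4⟩ | ⟨-, u1, v1, v2, h1, h2, h3, h4, h5⟩)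
    · rcases Nat.eq_zero_or_pos k with hk | hk
      · subst hk
        rw [h.w0 _ _ h1] at h3
        have := h.a_inj h3
        subst this
        exact ⟨v1, h1, h4⟩
      · exact absurd h3 (h.nr _ _ _ _ h1 hk h2)
    · exact absurd h4 (h.nr _ _ _ _ h1 le_rfl (by omega))
  · rintro ⟨v, h1, h2⟩
    exact Or.inl ⟨u, v, 0, h1, Nat.zero_le _, h.w0 _ _ h1, h2⟩

theorem GoodS.nb_mid (h : GoodS N c x ρ) (hz : K0 ρ.1) (hN : 2 ≤ N) {u v k : ℕ}
    (huv : ρ.1 u v = true) (hk : 1 ≤ k) (hk' : k ≤ N) (q : ℕ) :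
    x.1 (ρ.2.2 u v k) q = true ↔ ρ.2.2 u v (k - 1) = q ∨ ρ.2.2 u v (k + 1) = q ∨
      (c ∧ k = 1 ∧ ∃ v', v' ≠ v ∧ ρ.1 u v' = true ∧ ρ.2.2 u v' 1 = q) ∨
      (c ∧ k = N ∧ ∃ u', u' ≠ u ∧ ρ.1 v u' = true ∧ ρ.2.2 v u' 1 = q) := by
  have hvu := hz.symm _ _ huv
  rw [h.adj]
  constructor
  · rintro (⟨u1, v1, k1, h1, h2, h3, h4⟩ | ⟨hc, u1, v1, v2, h1, h2, h3, h4, h5⟩)
    · rcases Nat.eq_zero_or_pos k1 with hk1 | hk1
      · subst hk1
        rw [h.w0 _ _ h1] at h3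
        exact absurd h3.symm (h.nr _ _ _ _ huv hk hk')
      · rcases h.inj _ _ _ _ _ _ h1 huv hk1 h2 hk hk' h3 with ⟨rfl, rfl, rfl⟩ | ⟨rfl, rfl, h6⟩
        · exact Or.inr (Or.inl h4)
        · left
          exact (h.rv h1 (by omega)).trans h4
    · rcases h.inj _ _ _ _ _ _ h1 huv le_rfl (by omega) hk hk' h4 with ⟨rfl, rfl, rfl⟩ | ⟨rfl, rfl, h6⟩
      · exact Or.inr (Or.inr (Or.inl ⟨hc, rfl, v2, h3.symm, h2, h5⟩))
      · exact Or.inr (Or.inr (Or.inr ⟨hc, by omega, v2, h3.symm, h2, h5⟩))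
  · rintro (h1 | h1 | ⟨hc, h1, v', h2, h3, h4⟩ | ⟨hc, h1, u', h2, h3, h4⟩)
    · exact Or.inl ⟨v, u, N + 1 - k, hvu, by omega, h.rv huv (by omega),
        (h.rv huv (by omega)).trans h1⟩
    · exact Or.inl ⟨u, v, k, huv, hk', rfl, h1⟩
    · subst h1
      exact Or.inr ⟨hc, u, v, v', huv, h3, h2.symm, rfl, h4⟩
    · exact Or.inr ⟨hc, v, u, u', hvu, h3, h2.symm, h.rv huv (by omega), h4⟩

theorem GoodS.symm (h : GoodS N c x ρ) (hz : K0 ρ.1) (p q : ℕ) : x.1 p q = x.1 q p := by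
  have key : ∀ p q, x.1 p q = true → x.1 q p = true := by
    intro p q hpq
    rw [h.adj] at hpq ⊢
    rcases hpq with ⟨u, v, k, h1, h2, h3, h4⟩ | ⟨hc, u, v, v', h1, h2, h3, h4, h5⟩
    · exact Or.inl ⟨v, u, N - k, hz.symm _ _ h1, by omega, (h.rv h1 (by omega)).trans h4,
        (h.rv h1 (by omega)).trans h3⟩
    · exact Or.inr ⟨hc, u, v', v, h2, h1, h3.symm, h5, h4⟩
  rw [Bool.eq_iff_iff]
  exact ⟨key p q, key q p⟩

/-- vertices which are not isolated -/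
theorem GoodS.np (h : GoodS N c x ρ) (hN : 2 ≤ N) {p : ℕ} (hp : ¬ Plain x.1 p) :
    (∃ u, ρ.2.1 u = p) ∨ ∃ u v k, ρ.1 u v = true ∧ 1 ≤ k ∧ k ≤ N ∧ ρ.2.2 u v k = p := by
  unfold Plain at hp
  push Not at hp
  obtain ⟨q, hq⟩ := hp
  have hq' : x.1 p q = true := by simpa using hq
  rw [h.adj] at hq'
  rcases hq' with ⟨u, v, k, h1, h2, h3, h4⟩ | ⟨hc, u, v, v', h1, h2, h3, h4, h5⟩
  · rcases Nat.eq_zero_or_pos k with hk | hk
    · subst hk
      rw [h.w0 _ _ h1] at h3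
      exact Or.inl ⟨u, h3⟩
    · exact Or.inr ⟨u, v, k, h1, hk, h2, h3⟩
  · exact Or.inr ⟨u, v, 1, h1, le_rfl, by omega, h4⟩

theorem GoodS.w1_inj (h : GoodS N c x ρ) (hN : 2 ≤ N) {u v v' : ℕ}
    (h1 : ρ.1 u v = true) (h2 : ρ.1 u v' = true) (e : ρ.2.2 u v 1 = ρ.2.2 u v' 1) : v = v' := by
  rcases h.inj _ _ _ _ _ _ h1 h2 le_rfl (by omega) le_rfl (by omega) e with h3 | h3
  · exact h3.2.1
  · omega

/-- the second vertex of a path is not adjacent to the root -/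
theorem GoodS.n2 (h : GoodS N c x ρ) (hz : K0 ρ.1) (hN : 2 ≤ N) {u v v' : ℕ}
    (h1 : ρ.1 u v = true) (h2 : ρ.1 u v' = true) : ρ.2.2 u v 2 ≠ ρ.2.2 u v' 1 := by
  intro e
  rcases h.inj _ _ _ _ _ _ h1 h2 (by omega) hN le_rfl (by omega) e with h3 | h3
  · omega
  · obtain ⟨-, h4, -⟩ := h3
    rw [h4] at h1
    exact hz.irr u h1

theorem GoodS.nadj (h : GoodS N c x ρ) (hz : K0 ρ.1) (hN : 2 ≤ N) {u v : ℕ}
    (h1 : ρ.1 u v = true) : x.1 (ρ.2.1 u) (ρ.2.2 u v 2) ≠ true := by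
  rw [Ne, h.nb_root hN]
  rintro ⟨v', h2, h3⟩
  exact h.n2 hz hN h1 h2 h3.symm

/-- roots, from the graph -/
def Root (c : Prop) (s : BinStr) (p : ℕ) : Prop :=
  (∀ n, ∃ q, n ≤ q ∧ s p q = true) ∧
    ∀ q q', s p q = true → s p q' = true → q ≠ q' → (s q q' = true ↔ c)

theorem GoodS.mid (h : GoodS N c x ρ) (hz : K0 ρ.1) (hN : 2 ≤ N) {u v k : ℕ}
    (huv : ρ.1 u v = true) (hk : 1 ≤ k) (hk' : k ≤ N) (hc : c → 2 ≤ k ∧ k + 1 ≤ N) {q : ℕ}
    (hq : x.1 (ρ.2.2 u v k) q = true) : ρ.2.2 u v (k - 1) = q ∨ ρ.2.2 u v (k + 1) = q := by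
  rw [h.nb_mid hz hN huv hk hk'] at hq
  rcases hq with h1 | h1 | ⟨h1, h2, -⟩ | ⟨h1, h2, -⟩
  · exact Or.inl h1
  · exact Or.inr h1
  · have := hc h1
    omega
  · have := hc h1
    omega

theorem GoodS.inf1 (h : GoodS N c x ρ) (hz : K0 ρ.1) (hN : 2 ≤ N) (u : ℕ) :
    {q | x.1 (ρ.2.1 u) q = true}.Infinite := by
  have h1 : {v | ρ.1 u v = true}.Infinite := by
    intro hfin
    obtain ⟨M, hM⟩ := hfin.bddAbove
    obtain ⟨v, h2, h3⟩ := hz.inf u (M + 1)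
    have := hM (show v ∈ {v | ρ.1 u v = true} from h3)
    omega
  refine Set.Infinite.mono ?_ (h1.image (f := fun v => ρ.2.2 u v 1)
    (fun v hv v' hv' e => h.w1_inj hN hv hv' e))
  rintro q ⟨v, h2, h3⟩
  exact (h.nb_root hN u q).2 ⟨v, h2, h3⟩

theorem GoodS.root_iff (h : GoodS N c x ρ) (hz : K0 ρ.1) (hN : 2 ≤ N) (p : ℕ) :
    Root c x.1 p ↔ ∃ u, ρ.2.1 u = p := by
  constructor
  · rintro ⟨h1, h2⟩
    have hp : ¬ Plain x.1 p := by
      intro hp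
      obtain ⟨q, -, h3⟩ := h1 0
      rw [hp q] at h3
      exact absurd h3 (by decide)
    rcases h.np hN hp with h3 | ⟨u, v, k, huv, hk, hk', rfl⟩
    · exact h3
    exfalso
    have key : ∀ u v, ρ.1 u v = true → c → (∀ q q', x.1 (ρ.2.2 u v 1) q = true →
        x.1 (ρ.2.2 u v 1) q' = true → q ≠ q' → (x.1 q q' = true ↔ c)) → False := by
      intro u v huv hc h2
      have e1 : x.1 (ρ.2.2 u v 1) (ρ.2.1 u) = true := by
        rw [h.symm hz]
        exact (h.nb_root hN u _).2 ⟨v, huv, rfl⟩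
      have e2 : x.1 (ρ.2.2 u v 1) (ρ.2.2 u v 2) = true :=
        (h.nb_mid hz hN huv le_rfl (by omega) _).2 (Or.inr (Or.inl rfl))
      have e3 := (h2 _ _ e1 e2 (h.nr _ _ _ _ huv (by omega) hN).symm).2 hc
      exact h.nadj hz hN huv e3
    by_cases hc : c
    · by_cases hk1 : k = 1
      · subst hk1
        exact key u v huv hc h2
      · by_cases hk2 : k = N
        · have e : ρ.2.2 v u 1 = ρ.2.2 u v k := h.rv huv (by omega)
          rw [← e] at h2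
          exact key v u (hz.symm _ _ huv) hc h2
        · obtain ⟨q, h3, h4⟩ := h1 (ρ.2.2 u v (k - 1) + ρ.2.2 u v (k + 1) + 1)
          rcases h.mid hz hN huv hk hk' (fun _ => by omega) h4 with h5 | h5 <;> omega
    · obtain ⟨q, h3, h4⟩ := h1 (ρ.2.2 u v (k - 1) + ρ.2.2 u v (k + 1) + 1)
      rcases h.mid hz hN huv hk hk' (fun h => absurd h hc) h4 with h5 | h5 <;> omega
  · rintro ⟨u, rfl⟩
    refine ⟨fun n => ?_, ?_⟩
    · obtain ⟨q, h1, h2⟩ := (h.inf1 hz hN u).exists_gt n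
      exact ⟨q, h2.le, h1⟩
    · intro q q' hq hq' hne
      obtain ⟨v, h1, rfl⟩ := (h.nb_root hN u q).1 hq
      obtain ⟨v', h3, rfl⟩ := (h.nb_root hN u q').1 hq'
      rw [h.nb_mid hz hN h1 le_rfl (by omega)]
      constructor
      · rintro (h5 | h5 | h5 | h5)
        · rw [h.w0 _ _ h1] at h5
          exact absurd h5.symm (h.nr _ _ _ _ h3 le_rfl (by omega))
        · exact absurd h5 (h.n2 hz hN h1 h3)
        · exact h5.1
        · exact h5.1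
      · intro hc
        refine Or.inr (Or.inr (Or.inl ⟨hc, rfl, v', ?_, h3, rfl⟩))
        rintro rfl
        exact hne rfl

theorem GoodS.ne2 (h : GoodS N c x ρ) (hz : K0 ρ.1) (hN : 2 ≤ N) {u v k : ℕ}
    (huv : ρ.1 u v = true) (hk : 1 ≤ k) (hk' : k ≤ N) : ρ.2.2 u v (k + 1) ≠ ρ.2.2 u v (k - 1) := by
  intro e
  by_cases h1 : k = 1
  · subst h1
    rw [Nat.sub_self, h.w0 _ _ huv] at e
    exact h.nr _ _ _ _ huv (by omega) hN e
  · by_cases h2 : k = N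
    · subst h2
      rw [h.wN hz huv] at e
      exact h.nr _ _ _ _ huv (by omega) (by omega) e.symm
    · rcases h.inj _ _ _ _ _ _ huv huv (by omega) (by omega) (by omega) (by omega) e with h3 | h3
      · omega
      · obtain ⟨h4, -⟩ := h3
        rw [h4] at huv
        exact hz.irr _ huv

theorem GoodS.sub (h : GoodS N c x ρ) (hz : K0 ρ.1) (hN : 2 ≤ N) {x' : LGr} {ρ' : RS}
    (h' : GoodS N c x' ρ') (hz' : K0 ρ'.1) (hx : x.1 = x'.1) (ha : ρ.2.1 = ρ'.2.1) {u v : ℕ}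
    (huv : ρ.1 u v = true) : ρ'.1 u v = true ∧ ∀ k, k ≤ N + 1 → ρ.2.2 u v k = ρ'.2.2 u v k := by
  have e1 : x.1 (ρ.2.1 u) (ρ.2.2 u v 1) = true := (h.nb_root hN _ _).2 ⟨v, huv, rfl⟩
  rw [hx, ha] at e1
  obtain ⟨v', huv', h1⟩ := (h'.nb_root hN _ _).1 e1
  have key : ∀ k, k ≤ N → ρ.2.2 u v k = ρ'.2.2 u v' k ∧ ρ.2.2 u v (k + 1) = ρ'.2.2 u v' (k + 1) := by
    intro k
    induction k with
    | zero =>
      intro _
      refine ⟨?_, h1.symm⟩
      rw [h.w0 _ _ huv, h'.w0 _ _ huv', ha]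
    | succ k ih =>
      intro hk
      obtain ⟨i1, i2⟩ := ih (by omega)
      refine ⟨i2, ?_⟩
      have e2 : x.1 (ρ.2.2 u v (k + 1)) (ρ.2.2 u v (k + 2)) = true :=
        (h.nb_mid hz hN huv (by omega) hk _).2 (Or.inr (Or.inl rfl))
      rw [hx, i2] at e2
      rcases (h'.nb_mid hz' hN huv' (by omega) hk _).1 e2 with h3 | h3 | h3 | h3
      · rw [Nat.add_sub_cancel, ← i1] at h3
        exact absurd h3.symm (h.ne2 hz hN huv (k := k + 1) (by omega) hk)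
      · exact h3.symm
      · obtain ⟨-, h4, v'', -, h5, h6⟩ := h3
        have : k = 0 := by omega
        subst this
        have e3 : x'.1 (ρ'.2.1 u) (ρ'.2.2 u v'' 1) = true := (h'.nb_root hN _ _).2 ⟨v'', h5, rfl⟩
        rw [h6, ← hx, ← ha] at e3
        exact absurd e3 (h.nadj hz hN huv)
      · obtain ⟨-, h4, u', -, h5, h6⟩ := h3
        have e4 : ρ.2.2 u v (k + 2) = ρ.2.1 v := by
          rw [show k + 2 = N + 1 by omega]
          exact h.wN hz huv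
        rw [e4, ha] at h6
        exact absurd h6 (h'.nr _ _ _ _ h5 le_rfl (by omega))
  have hv : v = v' := by
    have := (key N le_rfl).2
    rw [h.wN hz huv, h'.wN hz' huv', ha] at this
    exact h'.a_inj this
  subst hv
  refine ⟨huv', fun k hk => ?_⟩
  rcases Nat.lt_or_ge k (N + 1) with h2 | h2
  · exact (key k (by omega)).1
  · have : k = N + 1 := by omega
    subst this
    exact (key N le_rfl).2

theorem GoodS.uniq (h : GoodS N c x ρ) (hz : K0 ρ.1) (hN : 2 ≤ N) {x' : LGr} {ρ' : RS}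
    (h' : GoodS N c x' ρ') (hz' : K0 ρ'.1) (hx : x.1 = x'.1) : ρ = ρ' := by
  have ha : ρ.2.1 = ρ'.2.1 := by
    refine (StrictMono.range_inj (f := ρ.2.1) (g := ρ'.2.1) (fun m n hmn => h.mono m n hmn)
      (fun m n hmn => h'.mono m n hmn)).1 ?_
    ext p
    rw [Set.mem_range, Set.mem_range, ← h.root_iff hz hN p, ← h'.root_iff hz' hN p, hx]
  have k1 := fun u v (huv : ρ.1 u v = true) => h.sub hz hN h' hz' hx ha huv
  have k2 := fun u v (huv : ρ'.1 u v = true) => h'.sub hz' hN h hz hx.symm ha.symm huv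
  have hz0 : ρ.1 = ρ'.1 := by
    funext u v
    rw [Bool.eq_iff_iff]
    exact ⟨fun e => (k1 u v e).1, fun e => (k2 u v e).1⟩
  refine Prod.ext hz0 (Prod.ext ha ?_)
  funext u v k
  by_cases hk : ρ.1 u v = true ∧ k ≤ N + 1
  · exact (k1 u v hk.1).2 k hk.2
  · rw [h.junk _ _ _ hk, h'.junk _ _ _ (by rw [← hz0]; exact hk)]

/-- a vertex with a neighbour of finite degree has finitely many twins -/
theorem tw_fin {s : BinStr} (hs : ∀ p q, s p q = s q p) {p q : ℕ} (hqp : q ≠ p)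
    (h : s p q = true) (hq : {r | s q r = true}.Finite) : {v | Tw s p v}.Finite := by
  refine (hq.union (Set.toFinite {q})).subset fun v hv => ?_
  by_cases h1 : q = v
  · exact Or.inr h1.symm
  · have := hv q hqp h1
    rw [h] at this
    left
    show s q v = true
    rw [hs]
    exact this.symm

theorem GoodS.ne1 (h : GoodS N c x ρ) (hz : K0 ρ.1) (hN : 2 ≤ N) {u v k : ℕ}
    (huv : ρ.1 u v = true) (hk : k ≤ N) : ρ.2.2 u v k ≠ ρ.2.2 u v (k + 1) := by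
  intro e
  rcases Nat.eq_zero_or_pos k with h1 | h1
  · subst h1
    rw [h.w0 _ _ huv] at e
    exact h.nr _ _ _ _ huv (by omega) (by omega) e.symm
  · by_cases h2 : k = N
    · subst h2
      rw [h.wN hz huv] at e
      exact h.nr _ _ _ _ huv (by omega) (by omega) e
    · rcases h.inj _ _ _ _ _ _ huv huv (by omega) (by omega) (by omega) (by omega) e with h3 | h3
      · omega
      · obtain ⟨h4, -⟩ := h3
        rw [h4] at huv
        exact hz.irr _ huv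

theorem GoodS.irr (h : GoodS N c x ρ) (hz : K0 ρ.1) (hN : 2 ≤ N) (p : ℕ) : x.1 p p ≠ true := by
  intro hp
  rw [h.adj] at hp
  rcases hp with ⟨u, v, k, h1, h2, h3, h4⟩ | ⟨-, u, v, v', h1, h2, h3, h4, h5⟩
  · exact h.ne1 hz hN h1 h2 (h3.trans h4.symm)
  · exact h3 (h.w1_inj hN h1 h2 (h4.trans h5.symm))

theorem GoodS.fin_mid (h : GoodS N c x ρ) (hz : K0 ρ.1) (hN : 2 ≤ N) {u v k : ℕ}
    (huv : ρ.1 u v = true) (hk : 1 ≤ k) (hk' : k ≤ N) (hc : c → 2 ≤ k ∧ k + 1 ≤ N) :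
    {q | x.1 (ρ.2.2 u v k) q = true}.Finite := by
  refine (Set.toFinite {ρ.2.2 u v (k - 1), ρ.2.2 u v (k + 1)}).subset fun q hq => ?_
  rcases h.mid hz hN huv hk hk' hc hq with h1 | h1
  · exact Or.inl h1.symm
  · exact Or.inr h1.symm

/-- adjacency along paths -/
theorem GoodS.step (h : GoodS N c x ρ) {u v k : ℕ} (huv : ρ.1 u v = true) (hk : k ≤ N) :
    x.1 (ρ.2.2 u v k) (ρ.2.2 u v (k + 1)) = true :=
  (h.adj _ _).2 (Or.inl ⟨u, v, k, huv, hk, rfl, rfl⟩)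

theorem GoodS.not2 (h : GoodS N c x ρ) (hz : K0 ρ.1) (hN : 2 ≤ N) {u v v' : ℕ}
    (h1 : ρ.1 u v = true) (h2 : ρ.1 u v' = true) (hv : v ≠ v') :
    x.1 (ρ.2.2 u v' 1) (ρ.2.2 u v 2) ≠ true := by
  rw [Ne, h.nb_mid hz hN h2 le_rfl (by omega)]
  rintro (h3 | h3 | ⟨-, -, v3, -, h4, h5⟩ | ⟨-, h4, -⟩)
  · rw [h.w0 _ _ h2] at h3
    exact h.nr _ _ _ _ h1 (by omega) hN h3.symm
  · rcases h.inj _ _ _ _ _ _ h2 h1 (by omega) hN (by omega) hN h3 with h4 | h4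
    · exact hv h4.2.1.symm
    · obtain ⟨h4, -⟩ := h4
      rw [h4] at h1
      exact hz.irr _ h1
  · exact h.n2 hz hN h1 h4 h5.symm
  · omega

theorem GoodS.tw_one (h : GoodS N c x ρ) (hz : K0 ρ.1) (hN : 2 ≤ N) {u v : ℕ}
    (huv : ρ.1 u v = true) : {r | Tw x.1 (ρ.2.2 u v 1) r}.Finite := by
  refine (Set.toFinite {ρ.2.2 u v 1, ρ.2.1 u}).subset fun r hr => ?_
  by_contra hcon
  rw [Set.mem_insert_iff, Set.mem_singleton_iff, not_or] at hcon
  have e1 : x.1 (ρ.2.2 u v 1) (ρ.2.1 u) = true := by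
    rw [h.symm hz]
    exact (h.nb_root hN u _).2 ⟨v, huv, rfl⟩
  have e2 : x.1 r (ρ.2.1 u) = true := by
    rw [← hr (ρ.2.1 u) (h.nr _ _ _ _ huv le_rfl (by omega)).symm (fun e => hcon.2 e.symm)]
    exact e1
  rw [h.symm hz, h.nb_root hN] at e2
  obtain ⟨v', h1, rfl⟩ := e2
  have hv : v ≠ v' := by
    rintro rfl
    exact hcon.1 rfl
  have e3 := h.step huv (k := 1) (by omega)
  have e4 := hr (ρ.2.2 u v 2) (h.ne1 hz hN huv (k := 1) (by omega)).symm (h.n2 hz hN huv h1)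
  rw [e3] at e4
  exact h.not2 hz hN huv h1 hv e4.symm

theorem GoodS.tw_root (h : GoodS N c x ρ) (hz : K0 ρ.1) (hN : 2 ≤ N) (u : ℕ) :
    {r | Tw x.1 (ρ.2.1 u) r}.Finite := by
  by_cases hc : c
  · refine (Set.toFinite {ρ.2.1 u}).subset fun r hr => ?_
    by_contra hcon
    rw [Set.mem_singleton_iff] at hcon
    have nb : ∀ q, x.1 (ρ.2.1 u) q = true → q ≠ r → x.1 r q = true := by
      intro q h1 h2
      have h3 : q ≠ ρ.2.1 u := by
        rintro rfl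
        exact h.irr hz hN _ h1
      rw [← hr q h3 h2]
      exact h1
    have bad : ∀ v, ρ.1 u v = true → ρ.2.2 u v 1 ≠ r := by
      rintro v h1 rfl
      have e1 := hr (ρ.2.2 u v 2) (h.nr _ _ _ _ h1 (by omega) hN)
        (h.ne1 hz hN h1 (k := 1) (by omega)).symm
      rw [h.step h1 (k := 1) (by omega)] at e1
      exact h.nadj hz hN h1 e1
    obtain ⟨v1, h1, h2⟩ := hz.inf u 0
    obtain ⟨v2, h3, h4⟩ := hz.inf u (v1 + 1)
    have hv : v1 ≠ v2 := by omega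
    have e1 := nb _ ((h.nb_root hN u _).2 ⟨v1, h2, rfl⟩) (bad v1 h2)
    have e2 := nb _ ((h.nb_root hN u _).2 ⟨v2, h4, rfl⟩) (bad v2 h4)
    rw [h.symm hz, h.nb_mid hz hN h2 le_rfl (by omega)] at e1
    rcases e1 with h5 | h5 | ⟨-, -, v3, -, h6, h7⟩ | ⟨-, h6, -⟩
    · rw [h.w0 _ _ h2] at h5
      exact hcon h5.symm
    · rw [← h5, h.symm hz] at e2
      exact h.not2 hz hN h2 h4 hv e2
    · exact bad v3 h6 h7
    · omega
  · obtain ⟨v, -, h1⟩ := hz.inf u 0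
    exact tw_fin (h.symm hz) (h.nr _ _ _ _ h1 le_rfl (by omega))
      ((h.nb_root hN u _).2 ⟨v, h1, rfl⟩) (h.fin_mid hz hN h1 le_rfl (by omega) (fun h => absurd h hc))

theorem GoodS.tw (h : GoodS N c x ρ) (hz : K0 ρ.1) (hN : 2 ≤ N) (hpar : c → Even N) {p : ℕ}
    (hp : ¬ Plain x.1 p) : {r | Tw x.1 p r}.Finite := by
  rcases h.np hN hp with ⟨u, rfl⟩ | ⟨u, v, k, huv, hk, hk', rfl⟩
  · exact h.tw_root hz hN u
  by_cases k1 : k = 1
  · subst k1
    exact h.tw_one hz hN huv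
  by_cases k2 : k = N
  · have e : ρ.2.2 v u 1 = ρ.2.2 u v k := h.rv huv (by omega)
    rw [← e]
    exact h.tw_one hz hN (hz.symm _ _ huv)
  by_cases k3 : k = 2
  · subst k3
    by_cases hc : c
    · obtain ⟨j, hj⟩ := hpar hc
      exact tw_fin (h.symm hz) (h.ne1 hz hN huv hk').symm (h.step huv hk')
        (h.fin_mid hz hN huv (by omega) (by omega) (fun _ => by omega))
    · exact tw_fin (h.symm hz) (h.ne1 hz hN huv hk').symm (h.step huv hk')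
        (h.fin_mid hz hN huv (by omega) (by omega) (fun h => absurd h hc))
  · obtain ⟨j, rfl⟩ : ∃ j, k = j + 1 := ⟨k - 1, by omega⟩
    have e1 := h.step huv (k := j) (by omega)
    rw [h.symm hz] at e1
    exact tw_fin (h.symm hz) (h.ne1 hz hN huv (by omega)) e1
      (h.fin_mid hz hN huv (by omega) (by omega) (fun _ => by omega))

theorem GoodS.lay0 (h : GoodS N c x ρ) (hz : K0 ρ.1) (u : ℕ) : x.2 (ρ.2.1 u) = 0 := by
  obtain ⟨v, -, h1⟩ := hz.inf u 0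
  rw [h.lay u v 0 _ h1 (Nat.zero_le _) (h.w0 _ _ h1)]
  simp

theorem GoodS.lays (h : GoodS N c x ρ) (hz : K0 ρ.1) (hN : 2 ≤ N) (hpar : c → Even N) :
    Lay ((N + 1) / 2 + 1) x where
  irr p := by
    have := h.irr hz hN p
    simpa using this
  symm := h.symm hz
  lt p := by
    by_cases hp : Plain x.1 p
    · rw [h.pl p hp]
      omega
    · rcases h.np hN hp with ⟨u, rfl⟩ | ⟨u, v, k, huv, hk, hk', rfl⟩
      · rw [h.lay0 hz]
        omega
      · rw [h.lay u v k _ huv (by omega) rfl]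
        omega
  tw p hp := h.tw hz hN hpar hp
  occ k hk := by
    obtain ⟨v, -, h1⟩ := hz.inf 0 0
    refine ⟨ρ.2.2 0 v k, fun hp => ?_, ?_⟩
    · have := h.step h1 (k := k) (by omega)
      rw [hp] at this
      exact absurd this (by decide)
    · rw [h.lay 0 v k _ h1 (by omega) rfl]
      omega
  inf := by
    intro hfin
    obtain ⟨M, hM⟩ := hfin.bddAbove
    obtain ⟨t, h1, h2⟩ := h.inf (M + 1)
    have := hM (show t ∈ {t | Plain x.1 t} from h2)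
    omega
  pl := h.pl

/-- the layers are determined by the graph -/
theorem GoodS.lay_eq (h : GoodS N c x ρ) (hz : K0 ρ.1) (hN : 2 ≤ N) {x' : LGr} {ρ' : RS}
    (h' : GoodS N c x' ρ') (hz' : K0 ρ'.1) (hx : x.1 = x'.1) : x.2 = x'.2 := by
  have hρ := h.uniq hz hN h' hz' hx
  subst hρ
  funext p
  by_cases hp : Plain x.1 p
  · rw [h.pl p hp, h'.pl p (by rw [← hx]; exact hp)]
  · rcases h.np hN hp with ⟨u, rfl⟩ | ⟨u, v, k, huv, hk, hk', rfl⟩
    · rw [h.lay0 hz, h'.lay0 hz]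
    · rw [h.lay u v k _ huv (by omega) rfl, h'.lay u v k _ huv (by omega) rfl]

end basic

end Pool.Agent.Run7.h653.MD
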