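import Pool.Agent.Run7.h653.MD.Sub

/-!
Subdivisions, and line graphs of subdivisions, are faithfully complete as layered graphs.
-/

set_option autoImplicit false

namespace Pool.Agent.Run7.h653.MD

open Pool.Agent.W889.VC
open Set

/-- strictly increasing enumeration of the range of an injective function -/
theorem enum (b : ℕ → ℕ) (hb : Function.Injective b) :
    ∃ (a : ℕ → ℕ) (τ : Equiv.Perm ℕ), (∀ m n, m < n → a m < a n) ∧ ∀ n, a (τ n) = b n := by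
  classical
  have i : Infinite (Set.range b) := (Set.infinite_range_of_injective hb).to_subtype
  let o := Nat.Subtype.orderIsoOfNat (Set.range b)
  refine ⟨fun n => (o n : ℕ), (Equiv.ofInjective b hb).trans o.symm.toEquiv, fun m n hmn => ?_,
    fun n => ?_⟩
  · exact o.strictMono hmn
  · show ((o (o.symm (Equiv.ofInjective b hb n)) : Set.range b) : ℕ) = b n
    rw [o.apply_symm_apply]
    rfl

/-- the axioms about paths -/
structure PreS (N : ℕ) (ρ : RS) : Prop where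
  mono : ∀ m n, m < n → ρ.2.1 m < ρ.2.1 n
  w0 : ∀ u v, ρ.1 u v = true → ρ.2.2 u v 0 = ρ.2.1 u
  rev : ∀ u v k, ρ.1 u v = true → k ≤ N + 1 → ρ.2.2 v u (N + 1 - k) = ρ.2.2 u v k
  inj : ∀ u v k u' v' k', ρ.1 u v = true → ρ.1 u' v' = true → 1 ≤ k → k ≤ N → 1 ≤ k' → k' ≤ N →
    ρ.2.2 u v k = ρ.2.2 u' v' k' → (u = u' ∧ v = v' ∧ k = k') ∨ (u = v' ∧ v = u' ∧ k' = N + 1 - k)
  nr : ∀ u v k n, ρ.1 u v = true → 1 ≤ k → k ≤ N → ρ.2.2 u v k ≠ ρ.2.1 n
  junk : ∀ u v k, ¬ (ρ.1 u v = true ∧ k ≤ N + 1) → ρ.2.2 u v k = 0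

theorem GoodS.pre {N : ℕ} {c : Prop} {x : LGr} {ρ : RS} (h : GoodS N c x ρ) : PreS N ρ :=
  ⟨h.mono, h.w0, h.rev, h.inj, h.nr, h.junk⟩

/-- equality of the coordinates -/
def Eqv (N u v k u' v' k' : ℕ) : Prop :=
  (k = 0 ∧ k' = 0 ∧ u = u') ∨ (k = 0 ∧ k' = N + 1 ∧ u = v') ∨ (k = N + 1 ∧ k' = 0 ∧ v = u') ∨
  (k = N + 1 ∧ k' = N + 1 ∧ v = v') ∨
  (1 ≤ k ∧ k ≤ N ∧ ((u = u' ∧ v = v' ∧ k = k') ∨ (u = v' ∧ v = u' ∧ k' = N + 1 - k)))

theorem PreS.weq {N : ℕ} {ρ : RS} (h : PreS N ρ) (hz : K0 ρ.1) {u v k u' v' k' : ℕ}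
    (h1 : ρ.1 u v = true) (h2 : ρ.1 u' v' = true) (hk : k ≤ N + 1) (hk' : k' ≤ N + 1) :
    ρ.2.2 u v k = ρ.2.2 u' v' k' ↔ Eqv N u v k u' v' k' := by
  have ai : ∀ m n, ρ.2.1 m = ρ.2.1 n ↔ m = n := by
    intro m n
    constructor
    · intro e
      rcases lt_trichotomy m n with hl | hl | hl
      · have := h.mono _ _ hl
        omega
      · exact hl
      · have := h.mono _ _ hl
        omega
    · rintro rfl
      rfl
  have wN : ∀ u v, ρ.1 u v = true → ρ.2.2 u v (N + 1) = ρ.2.1 v := by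
    intro u v huv
    have := h.rev v u 0 (hz.symm _ _ huv) (Nat.zero_le _)
    rw [Nat.sub_zero] at this
    rw [this]
    exact h.w0 _ _ (hz.symm _ _ huv)
  unfold Eqv
  rcases Nat.eq_zero_or_pos k with a1 | a1
  · subst a1
    rw [h.w0 _ _ h1]
    rcases Nat.eq_zero_or_pos k' with b1 | b1
    · subst b1
      rw [h.w0 _ _ h2, ai]
      omega
    · by_cases b2 : k' = N + 1
      · subst b2
        rw [wN _ _ h2, ai]
        omega
      · have := h.nr u' v' k' u h2 b1 (by omega)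
        constructor
        · intro e
          exact absurd e.symm this
        · omega
  · by_cases a2 : k = N + 1
    · subst a2
      rw [wN _ _ h1]
      rcases Nat.eq_zero_or_pos k' with b1 | b1
      · subst b1
        rw [h.w0 _ _ h2, ai]
        omega
      · by_cases b2 : k' = N + 1
        · subst b2
          rw [wN _ _ h2, ai]
          omega
        · have := h.nr u' v' k' v h2 b1 (by omega)
          constructor
          · intro e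
            exact absurd e.symm this
          · omega
    · rcases Nat.eq_zero_or_pos k' with b1 | b1
      · subst b1
        rw [h.w0 _ _ h2]
        have := h.nr u v k u' h1 a1 (by omega)
        constructor
        · intro e
          exact absurd e this
        · omega
      · by_cases b2 : k' = N + 1
        · subst b2
          rw [wN _ _ h2]
          have := h.nr u v k v' h1 a1 (by omega)
          constructor
          · intro e
            exact absurd e this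
          · omega
        · constructor
          · intro e
            exact Or.inr (Or.inr (Or.inr (Or.inr ⟨a1, by omega,
              h.inj _ _ _ _ _ _ h1 h2 a1 (by omega) b1 (by omega) e⟩)))
          · rintro (⟨h3, -⟩ | ⟨h3, -⟩ | ⟨h3, -⟩ | ⟨h3, -⟩ | ⟨-, -, ⟨rfl, rfl, rfl⟩ | ⟨rfl, rfl, rfl⟩⟩)
            · omega
            · omega
            · exact absurd h3 a2
            · exact absurd h3 a2
            · rfl
            · exact (h.rev _ _ _ h1 hk).symm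

theorem eqv_map {N u v k u' v' k' : ℕ} (τ : Equiv.Perm ℕ) :
    Eqv N (τ u) (τ v) k (τ u') (τ v') k' ↔ Eqv N u v k u' v' k' := by
  unfold Eqv
  simp only [τ.injective.eq_iff]

section main

variable {N : ℕ} {c : Prop}

theorem GoodS.equi {x x' : LGr} {ρ : RS} (h : GoodS N c x ρ) (hz : K0 ρ.1) (hi : LIso x x') :
    ∃ ρ', GoodS N c x' ρ' ∧ BIso ρ.1 ρ'.1 := by
  classical
  obtain ⟨σ, s1, s2⟩ := hi
  obtain ⟨a', τ, t1, t2⟩ := enum (fun n => σ (ρ.2.1 n)) (fun m n e => h.a_inj (σ.injective e))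
  let ρ' : RS := (fun u v => ρ.1 (τ.symm u) (τ.symm v), a', fun u v k =>
    if ρ.1 (τ.symm u) (τ.symm v) = true ∧ k ≤ N + 1 then σ (ρ.2.2 (τ.symm u) (τ.symm v) k) else 0)
  have e1 : ∀ u v, ρ'.1 (τ u) (τ v) = ρ.1 u v := fun u v => by simp [ρ']
  have e2 : ∀ u, ρ'.2.1 (τ u) = σ (ρ.2.1 u) := fun u => t2 u
  have e3 : ∀ u v k, ρ.1 u v = true → k ≤ N + 1 → ρ'.2.2 (τ u) (τ v) k = σ (ρ.2.2 u v k) := by
    intro u v k h1 h2
    simp [ρ', h1, h2]
  have ex : ∀ v, ∃ u, τ u = v := fun v => ⟨τ.symm v, τ.apply_symm_apply v⟩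
  have exs : ∀ v, ∃ u, σ u = v := fun v => ⟨σ.symm v, σ.apply_symm_apply v⟩
  have hP : ∀ t, Plain x.1 t ↔ Plain x'.1 (σ t) := plain_map s1
  refine ⟨ρ', ⟨t1, ?_, ?_, ?_, ?_, ?_, ?_, ?_, ?_, ?_⟩, τ, e1⟩
  · intro u v
    obtain ⟨u, rfl⟩ := ex u
    obtain ⟨v, rfl⟩ := ex v
    rw [e1, e2]
    intro h1
    rw [e3 _ _ _ h1 (Nat.zero_le _), h.w0 _ _ h1]
  · intro u v k
    obtain ⟨u, rfl⟩ := ex u
    obtain ⟨v, rfl⟩ := ex v
    rw [e1]
    intro h1 h2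
    rw [e3 _ _ _ h1 h2, e3 _ _ _ (hz.symm _ _ h1) (by omega), h.rev _ _ _ h1 h2]
  · intro u v k u' v' k'
    obtain ⟨u, rfl⟩ := ex u
    obtain ⟨v, rfl⟩ := ex v
    obtain ⟨u', rfl⟩ := ex u'
    obtain ⟨v', rfl⟩ := ex v'
    rw [e1, e1]
    intro h1 h2 h3 h4 h5 h6 h7
    rw [e3 _ _ _ h1 (by omega), e3 _ _ _ h2 (by omega)] at h7
    rcases h.inj _ _ _ _ _ _ h1 h2 h3 h4 h5 h6 (σ.injective h7) with ⟨rfl, rfl, rfl⟩ | ⟨rfl, rfl, rfl⟩
    · exact Or.inl ⟨rfl, rfl, rfl⟩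
    · exact Or.inr ⟨rfl, rfl, rfl⟩
  · intro u v k n
    obtain ⟨u, rfl⟩ := ex u
    obtain ⟨v, rfl⟩ := ex v
    obtain ⟨n, rfl⟩ := ex n
    rw [e1]
    intro h1 h2 h3 h4
    rw [e3 _ _ _ h1 (by omega), e2] at h4
    exact h.nr _ _ _ _ h1 h2 h3 (σ.injective h4)
  · intro u v k h1
    exact if_neg h1
  · intro p q
    obtain ⟨p, rfl⟩ := exs p
    obtain ⟨q, rfl⟩ := exs q
    rw [s1, h.adj]
    constructor
    · rintro (⟨u, v, k, h1, h2, h3, h4⟩ | ⟨hc, u, v, v', h1, h2, h3, h4, h5⟩)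
      · refine Or.inl ⟨τ u, τ v, k, (e1 u v).trans h1, h2, ?_, ?_⟩
        · rw [e3 _ _ _ h1 (by omega), h3]
        · rw [e3 _ _ _ h1 (by omega), h4]
      · refine Or.inr ⟨hc, τ u, τ v, τ v', (e1 u v).trans h1, (e1 u v').trans h2,
          fun e => h3 (τ.injective e), ?_, ?_⟩
        · rw [e3 _ _ _ h1 (by omega), h4]
        · rw [e3 _ _ _ h2 (by omega), h5]
    · rintro (⟨u, v, k, h1, h2, h3, h4⟩ | ⟨hc, u, v, v', h1, h2, h3, h4, h5⟩)
      · obtain ⟨u, rfl⟩ := ex u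
        obtain ⟨v, rfl⟩ := ex v
        rw [e1] at h1
        rw [e3 _ _ _ h1 (by omega)] at h3 h4
        exact Or.inl ⟨u, v, k, h1, h2, σ.injective h3, σ.injective h4⟩
      · obtain ⟨u, rfl⟩ := ex u
        obtain ⟨v, rfl⟩ := ex v
        obtain ⟨v', rfl⟩ := ex v'
        rw [e1] at h1 h2
        rw [e3 _ _ _ h1 (by omega)] at h4
        rw [e3 _ _ _ h2 (by omega)] at h5
        exact Or.inr ⟨hc, u, v, v', h1, h2, fun e => h3 (by rw [e]), σ.injective h4, σ.injective h5⟩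
  · intro u v k n
    obtain ⟨u, rfl⟩ := ex u
    obtain ⟨v, rfl⟩ := ex v
    rw [e1]
    intro h1 h2 h3
    rw [e3 _ _ _ h1 h2] at h3
    rw [← h3, s2]
    exact h.lay _ _ _ _ h1 h2 rfl
  · intro t ht
    obtain ⟨t, rfl⟩ := exs t
    rw [s2]
    exact h.pl t ((hP t).2 ht)
  · intro n
    have hinf : {t | Plain x.1 t}.Infinite := by
      intro hfin
      obtain ⟨M, hM⟩ := hfin.bddAbove
      obtain ⟨t, h1, h2⟩ := h.inf (M + 1)
      have := hM (show t ∈ {t | Plain x.1 t} from h2)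
      omega
    obtain ⟨t', ⟨t, h1, rfl⟩, h2⟩ := (hinf.image σ.injective.injOn).exists_gt n
    exact ⟨σ t, h2.le, (hP t).1 h1⟩

theorem GoodS.cnp {x : LGr} {ρ : RS} (h : GoodS N c x ρ) (hz : K0 ρ.1) {u v k : ℕ}
    (h1 : ρ.1 u v = true) (hk : k ≤ N + 1) : ¬ Plain x.1 (ρ.2.2 u v k) := by
  intro hp
  rcases Nat.lt_or_ge k (N + 1) with h2 | h2
  · have := h.step h1 (k := k) (by omega)
    rw [hp] at this
    exact absurd this (by decide)
  · have e : k = N + 1 := by omega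
    subst e
    have := h.step h1 (k := N) le_rfl
    rw [h.symm hz, hp] at this
    exact absurd this (by decide)

theorem GoodS.np' {x : LGr} {ρ : RS} (h : GoodS N c x ρ) (hz : K0 ρ.1) (hN : 2 ≤ N) {p : ℕ}
    (hp : ¬ Plain x.1 p) : ∃ u v k, ρ.1 u v = true ∧ k ≤ N + 1 ∧ ρ.2.2 u v k = p := by
  rcases h.np hN hp with ⟨u, rfl⟩ | ⟨u, v, k, huv, hk, hk', rfl⟩
  · obtain ⟨v, -, h1⟩ := hz.inf u 0
    exact ⟨u, v, 0, h1, Nat.zero_le _, h.w0 _ _ h1⟩
  · exact ⟨u, v, k, huv, by omega, rfl⟩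

theorem GoodS.fwd {x x' : LGr} {ρ ρ' : RS} (h : GoodS N c x ρ) (h' : GoodS N c x' ρ')
    {τ : Equiv.Perm ℕ} (ht : ∀ u v, ρ'.1 (τ u) (τ v) = ρ.1 u v) {σ : ℕ → ℕ}
    (hN : 2 ≤ N)
    (hs : ∀ u v k, ρ.1 u v = true → k ≤ N + 1 → σ (ρ.2.2 u v k) = ρ'.2.2 (τ u) (τ v) k) {p q : ℕ}
    (hpq : x.1 p q = true) : x'.1 (σ p) (σ q) = true := by
  rw [h.adj] at hpq
  rw [h'.adj]
  rcases hpq with ⟨u, v, k, h1, h2, h3, h4⟩ | ⟨hc, u, v, v', h1, h2, h3, h4, h5⟩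
  · refine Or.inl ⟨τ u, τ v, k, (ht u v).trans h1, h2, ?_, ?_⟩
    · rw [← hs _ _ _ h1 (by omega), h3]
    · rw [← hs _ _ _ h1 (by omega), h4]
  · refine Or.inr ⟨hc, τ u, τ v, τ v', (ht u v).trans h1, (ht u v').trans h2,
      fun e => h3 (τ.injective e), ?_, ?_⟩
    · rw [← hs _ _ _ h1 (by omega), h4]
    · rw [← hs _ _ _ h2 (by omega), h5]

theorem GoodS.iso {x x' : LGr} {ρ ρ' : RS} (h : GoodS N c x ρ) (hz : K0 ρ.1)
    (h' : GoodS N c x' ρ') (hz' : K0 ρ'.1) (hN : 2 ≤ N) (hi : BIso ρ.1 ρ'.1) : LIso x x' := by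
  classical
  obtain ⟨τ, ht⟩ := hi
  let f : ℕ → ℕ := fun p => if h0 : ∃ q : ℕ × ℕ × ℕ, ρ.1 q.1 q.2.1 = true ∧ q.2.2 ≤ N + 1 ∧
    ρ.2.2 q.1 q.2.1 q.2.2 = p then ρ'.2.2 (τ h0.choose.1) (τ h0.choose.2.1) h0.choose.2.2 else 0
  have hf : ∀ u v k, ρ.1 u v = true → k ≤ N + 1 → f (ρ.2.2 u v k) = ρ'.2.2 (τ u) (τ v) k := by
    intro u v k h1 h2
    have h0 : ∃ q : ℕ × ℕ × ℕ, ρ.1 q.1 q.2.1 = true ∧ q.2.2 ≤ N + 1 ∧
      ρ.2.2 q.1 q.2.1 q.2.2 = ρ.2.2 u v k := ⟨(u, v, k), h1, h2, rfl⟩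
    have e : f (ρ.2.2 u v k) = ρ'.2.2 (τ h0.choose.1) (τ h0.choose.2.1) h0.choose.2.2 := dif_pos h0
    rw [e]
    obtain ⟨k1, k2, k3⟩ := h0.choose_spec
    rw [h'.pre.weq hz' ((ht _ _).trans k1) ((ht _ _).trans h1) k2 h2, eqv_map,
      ← h.pre.weq hz k1 h1 k2 h2]
    exact k3
  have hinfP : ∀ {x : LGr} {ρ : RS}, GoodS N c x ρ → {t | ¬ ¬ Plain x.1 t}.Infinite := by
    intro x ρ h hfin
    obtain ⟨M, hM⟩ := hfin.bddAbove
    obtain ⟨t, h1, h2⟩ := h.inf (M + 1)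
    have := hM (show t ∈ {t | ¬ ¬ Plain x.1 t} from fun h => h h2)
    omega
  obtain ⟨σ, hσ⟩ := ext_perm (X := fun p => ¬ Plain x.1 p) (X' := fun p => ¬ Plain x'.1 p) f
    (by
      intro p hp
      obtain ⟨u, v, k, h1, h2, rfl⟩ := h.np' hz hN hp
      rw [hf _ _ _ h1 h2]
      exact h'.cnp hz' ((ht _ _).trans h1) h2)
    (by
      intro p q hp hq he
      obtain ⟨u, v, k, h1, h2, rfl⟩ := h.np' hz hN hp
      obtain ⟨u', v', k', h3, h4, rfl⟩ := h.np' hz hN hq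
      rw [hf _ _ _ h1 h2, hf _ _ _ h3 h4, h'.pre.weq hz' ((ht _ _).trans h1) ((ht _ _).trans h3) h2 h4,
        eqv_map, ← h.pre.weq hz h1 h3 h2 h4] at he
      exact he)
    (by
      intro q hq
      obtain ⟨u, v, k, h1, h2, rfl⟩ := h'.np' hz' hN hq
      have e1 : ρ.1 (τ.symm u) (τ.symm v) = true := by
        rw [← ht, τ.apply_symm_apply, τ.apply_symm_apply]
        exact h1
      refine ⟨ρ.2.2 (τ.symm u) (τ.symm v) k, h.cnp hz e1 h2, ?_⟩
      rw [hf _ _ _ e1 h2, τ.apply_symm_apply, τ.apply_symm_apply])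
    (hinfP h) (hinfP h')
  have hw : ∀ u v k, ρ.1 u v = true → k ≤ N + 1 → σ (ρ.2.2 u v k) = ρ'.2.2 (τ u) (τ v) k := by
    intro u v k h1 h2
    rw [hσ _ (h.cnp hz h1 h2)]
    exact hf _ _ _ h1 h2
  have hw' : ∀ u v k, ρ'.1 u v = true → k ≤ N + 1 →
      σ.symm (ρ'.2.2 u v k) = ρ.2.2 (τ.symm u) (τ.symm v) k := by
    intro u v k h1 h2
    have e1 : ρ.1 (τ.symm u) (τ.symm v) = true := by
      rw [← ht, τ.apply_symm_apply, τ.apply_symm_apply]
      exact h1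
    rw [Equiv.symm_apply_eq, hw _ _ _ e1 h2, τ.apply_symm_apply, τ.apply_symm_apply]
  have hP : ∀ p, Plain x.1 p → Plain x'.1 (σ p) := by
    intro p hp
    by_contra hcon
    obtain ⟨u, v, k, h1, h2, h3⟩ := h'.np' hz' hN hcon
    have e1 : ρ.1 (τ.symm u) (τ.symm v) = true := by
      rw [← ht, τ.apply_symm_apply, τ.apply_symm_apply]
      exact h1
    have e2 := hw' _ _ _ h1 h2
    rw [h3, σ.symm_apply_apply] at e2
    rw [e2] at hp
    exact h.cnp hz e1 h2 hp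
  refine ⟨σ, fun p q => ?_, fun p => ?_⟩
  · rw [Bool.eq_iff_iff]
    constructor
    · intro h1
      have := h'.fwd h (τ := τ.symm) (fun u v => by
        rw [← ht, τ.apply_symm_apply, τ.apply_symm_apply]) (σ := σ.symm) hN hw' h1
      rwa [σ.symm_apply_apply, σ.symm_apply_apply] at this
    · intro h1
      exact h.fwd h' ht hN hw h1
  · by_cases hp : Plain x.1 p
    · rw [h.pl p hp, h'.pl _ (hP p hp)]
    · obtain ⟨u, v, k, h1, h2, rfl⟩ := h.np' hz hN hp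
      rw [hw _ _ _ h1 h2, h.lay _ _ _ _ h1 h2 rfl, h'.lay _ _ _ _ ((ht _ _).trans h1) h2 rfl]

end main

end Pool.Agent.Run7.h653.MD
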